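import Pool.Agent.CQF.Gnc
import Pool.Agent.CQF.Sec

set_option autoImplicit false

/-!
# Definitions for the version in residue classes

`Cls L` is the set of vectors with first coordinate divisible by `L`; the matrices which are
scalar units modulo `L` preserve it.
-/

open Matrix Pool.Agent.CQF

namespace Pool.Agent.CQG

/-- `h` is a scalar unit modulo `L` -/
def Scl (L : ℕ) (h : M2) : Prop :=
  ∃ u : ℤ, IsCoprime u (L : ℤ) ∧ (L : ℤ) ∣ h 0 0 - u ∧ (L : ℤ) ∣ h 1 1 - u ∧ (L : ℤ) ∣ h 0 1 ∧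
    (L : ℤ) ∣ h 1 0

/-- vectors with first coordinate divisible by `L` -/
def Cls (L : ℕ) : Set (Fin 2 → ℤ) := {v | (L : ℤ) ∣ v 0}

/-- `h` is in the approximate invariance group of the base set `X0` in the class, with sign `η` -/
def InvL (X0 : Set (Fin 2 → ℤ)) (L : ℕ) (D : ℤ) (h : M2) (η : ℤ) : Prop :=
  Scl L h ∧ h.det ≠ 0 ∧ (η = 1 ∨ η = -1) ∧ ∃ A : ℝ, 1 ≤ A ∧ ∀ N1 N2 : ℝ, 1 ≤ N1 → N1 ≤ N2 →
    ms (Dst D h η ∩ Cls L) N1 N2 ≤ A * ms X0 (N1 / A) (A * N2)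

/-- `b` times the unipotent which fixes the row vector `(1, L)`, with parameter `a/b` -/
def UT (L : ℕ) (a b : ℤ) : M2 := !![b + L * a, (L : ℤ) ^ 2 * a; -a, b - L * a]

/-- the bad set of nodes, in the class -/
def BdsL (D : ℤ) (K0 : ℕ) (rr : M2 → M2) (Δ : Finset M2) : Set M2 :=
  {v | ∃ δ ∈ Δ, Cg K0 v δ ∧ F D ((v * rr δ.adjugate) 1) ≠ F D ((v * δ.adjugate) 1)}

/-- the base set in the class of `(r, s)` (up to units) modulo `N` -/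
def X0c (a1 b1 c1 a2 b2 c2 ε r s : ℤ) (N : ℕ) : Set (Fin 2 → ℤ) :=
  {w | (∃ u : ℤ, IsCoprime u (N : ℤ) ∧ (N : ℤ) ∣ w 0 - u * r ∧ (N : ℤ) ∣ w 1 - u * s) ∧
    lam (qf a1 b1 c1 w * qf a2 b2 c2 w) ≠ ε}

/-- in the class `lam Q = η F` up to a set controlled by the base set -/
def NearL (X0 : Set (Fin 2 → ℤ)) (L : ℕ) (D α β γ η : ℤ) : Prop :=
  (η = 1 ∨ η = -1) ∧ ∃ A : ℝ, 1 ≤ A ∧ ∀ N1 N2 : ℝ, 1 ≤ N1 → N1 ≤ N2 →
    ms ({v | lam (qf α β γ v) ≠ η * F D v} ∩ Cls L) N1 N2 ≤ A * ms X0 (N1 / A) (A * N2)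

open Classical in
/-- logarithmic mass of a set of (not necessarily primitive) vectors -/
noncomputable def msA (E : Set (Fin 2 → ℤ)) (N1 N2 : ℝ) : ℝ :=
  ∑ v ∈ (Fintype.piFinset fun _ : Fin 2 => Finset.Icc (-(⌊N2⌋₊ : ℤ)) (⌊N2⌋₊ : ℤ)).filter
    (fun v => v ∈ E ∧ v ≠ 0 ∧ N1 ≤ (ht v : ℝ) ∧ (ht v : ℝ) ≤ N2), 1 / (ht v : ℝ) ^ 2

/-- the admissible cofactors of the form `a U² + b U V + c V²` for the class of `(r, s)` mod `N`: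
irreducible quadratic forms which are not proportional to it, and polynomials with a symmetry `S`
which is not a symmetry of it and which fixes the class -/
def Cof (a b c : ℤ) (P : MvPolynomial (Fin 2) ℤ) (N : ℕ) (r s : ℤ) : Prop :=
  (∃ a2 b2 c2 : ℤ, ¬ IsSquare (b2 ^ 2 - 4 * a2 * c2) ∧
    ¬ (a * b2 = a2 * b ∧ a * c2 = a2 * c ∧ b * c2 = b2 * c) ∧
    ∀ v : Fin 2 → ℤ, MvPolynomial.eval v P = qf a2 b2 c2 v) ∨
  (∃ (S : M2) (κ : ℤ), S.det ≠ 0 ∧ κ ≠ 0 ∧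
    (∀ v : Fin 2 → ℤ, MvPolynomial.eval (v ᵥ* S) P = κ * MvPolynomial.eval v P) ∧
    (¬ ∃ t : ℚ, ∀ v : Fin 2 → ℤ, (qf a b c (v ᵥ* S) : ℚ) = t * qf a b c v) ∧
    (N : ℤ) ∣ (r * S 0 0 + s * S 1 0) - r ∧ (N : ℤ) ∣ (r * S 0 1 + s * S 1 1) - s)

/-- the vectors of the class of `(r, s)` modulo `N` at which `lam (Q P)` has the value `e` -/
def Es (a b c : ℤ) (P : MvPolynomial (Fin 2) ℤ) (N : ℕ) (r s e : ℤ) : Set (Fin 2 → ℤ) :=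
  {v | (N : ℤ) ∣ v 0 - r ∧ (N : ℤ) ∣ v 1 - s ∧ lam (qf a b c v * MvPolynomial.eval v P) = e}

end Pool.Agent.CQG
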