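import Pool.Agent.CQG.Cdf
import Pool.Agent.CQF.Lnb

set_option autoImplicit false

/-!
# Module Nb (size 2): the bad set of nodes, in the class

Copy of the proof of `bds_le` in `Pool/Agent/CQF/Lnb.lean`. For a node `v ∈ BdsL` with `δ`: `v ≡ δ` mod `K0`, so
`v * adj δ ≡ δ * adj δ = 1` and `z = (v * adj δ) 1 ≡ (0, 1)` mod `K0`; so `z ∈ Cls L` as `L ∣ K0`.
-/

open Matrix Pool.Agent.CQF

namespace Pool.Agent.CQG

private theorem nbL_inj {v v' : M2} (hv : IsNd v) (hv' : IsNd v') (hc : v 1 0 = v' 1 0)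
    (hd : v 1 1 = v' 1 1) (hq : v 0 1 / v 1 1 = v' 0 1 / v' 1 1) : v = v' := by
  have e1 := hv.det
  have e2 := hv'.det
  rw [← hc, ← hd] at e2
  rw [← hd] at hq
  have hd0 := hv.d0
  have h1 : v 1 1 ∣ v 0 1 - v' 0 1 := by
    have h2 : v 1 1 ∣ (v 0 1 - v' 0 1) * v 1 0 := ⟨v 0 0 - v' 0 0, by linear_combination e2 - e1⟩
    have h3 : IsCoprime (v 1 1) (v 1 0) := ⟨v 0 0, - v 0 1, by linear_combination e1⟩
    exact h3.dvd_of_dvd_mul_right h2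
  have h4 : v 0 1 = v' 0 1 := by
    obtain ⟨k, hk⟩ := h1
    have h5 : v 0 1 = v' 0 1 + v 1 1 * k := by linarith
    rw [h5, Int.add_mul_ediv_left _ _ hd0.ne'] at hq
    have h6 : k = 0 := by linarith
    rw [h5, h6]
    ring
  have h7 : v 0 0 = v' 0 0 := by
    rw [← h4] at e2
    have h8 : (v 0 0 - v' 0 0) * v 1 1 = 0 := by linear_combination e1 - e2
    rcases mul_eq_zero.1 h8 with h9 | h9
    · linarith
    · exact absurd h9 hd0.ne'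
  ext i j
  fin_cases i <;> fin_cases j
  · exact h7
  · exact h4
  · exact hc
  · exact hd

private theorem nbL_card {K N1 N2 : ℕ} (hK : 1 ≤ K) (T : Finset M2)
    (hT : ∀ v ∈ T, v ∈ ndw K N1 N2)
    (hrow : ∀ v ∈ T, ∀ v' ∈ T, v 1 0 = v' 1 0 ∧ v 1 1 = v' 1 1) : T.card ≤ K := by
  have h0 : ∀ v ∈ T, 0 ≤ v 0 1 / v 1 1 := fun v hv => by
    obtain ⟨h1, -, -⟩ := (mem_ndw hK).1 (hT v hv)
    exact Int.ediv_nonneg h1.b0 h1.d0.le
  have h := Finset.card_le_card_of_injOn (s := T) (t := Finset.range K)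
    (fun v : M2 => (v 0 1 / v 1 1).toNat) ?_ ?_
  · simpa using h
  · intro v hv
    obtain ⟨h1, -, h3⟩ := (mem_ndw hK).1 (hT v hv)
    have hc := h1.c0
    have hd := h1.d0
    have h4 : v 0 1 < K * v 1 1 := by
      have h5 : v 0 1 * v 1 0 < (K * v 1 1) * v 1 0 := by
        have := h1.det
        have h6 := mul_le_mul_of_nonneg_right h3 hd.le
        nlinarith
      exact lt_of_mul_lt_mul_right h5 hc.le
    have h5 : v 0 1 / v 1 1 < K := Int.ediv_lt_of_lt_mul hd h4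
    have h6 := h0 v hv
    simp only [Finset.coe_range, Set.mem_Iio]
    omega
  · intro v hv v' hv' hvv
    obtain ⟨h1, -, -⟩ := (mem_ndw hK).1 (hT v hv)
    obtain ⟨h1', -, -⟩ := (mem_ndw hK).1 (hT v' hv')
    obtain ⟨hc, hd⟩ := hrow v hv v' hv'
    refine nbL_inj h1 h1' hc hd ?_
    have h2 := h0 v hv
    have h3 := h0 v' hv'
    simp only at hvv
    omega

private theorem nbL_ht (z : Fin 2 → ℤ) : |z 0| ≤ (ht z : ℤ) ∧ |z 1| ≤ (ht z : ℤ) ∧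
    ((ht z : ℤ) = |z 0| ∨ (ht z : ℤ) = |z 1|) := by
  unfold ht
  rw [Int.abs_eq_natAbs, Int.abs_eq_natAbs]
  refine ⟨?_, ?_, ?_⟩
  · exact_mod_cast le_max_left _ _
  · exact_mod_cast le_max_right _ _
  · rcases max_choice (z 0).natAbs (z 1).natAbs with h | h <;> rw [h]
    · exact Or.inl rfl
    · exact Or.inr rfl

/-- heights of the vectors attached to a node -/
private theorem nbL_bd {v δ : M2} (hv : IsNd v) (hδ : D1 δ) {R : ℕ}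
    (hR : ∀ i j, |δ i j| ≤ (R : ℤ)) :
    (ht ((v * δ.adjugate) 1) : ℤ) ≤ R * (v 1 0 + v 1 1) ∧
    v 1 0 + v 1 1 ≤ 4 * R * ht ((v * δ.adjugate) 1) ∧
    v 1 0 = ((v * δ.adjugate) 1) 0 * δ 0 0 + ((v * δ.adjugate) 1) 1 * δ 1 0 ∧
    v 1 1 = ((v * δ.adjugate) 1) 0 * δ 0 1 + ((v * δ.adjugate) 1) 1 * δ 1 1 := by
  have hc := hv.c0
  have hd := hv.d0
  have e0 : ((v * δ.adjugate) 1) 0 = v 1 0 * δ 1 1 - v 1 1 * δ 1 0 := by
    rw [Matrix.mul_apply, Fin.sum_univ_two, Matrix.adjugate_fin_two]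
    simp
    ring
  have e1 : ((v * δ.adjugate) 1) 1 = v 1 1 * δ 0 0 - v 1 0 * δ 0 1 := by
    rw [Matrix.mul_apply, Fin.sum_univ_two, Matrix.adjugate_fin_two]
    simp
    ring
  obtain ⟨z, hz⟩ : ∃ z, z = (v * δ.adjugate) 1 := ⟨_, rfl⟩
  rw [← hz] at e0 e1 ⊢
  unfold D1 at hδ
  have f0 : v 1 0 = z 0 * δ 0 0 + z 1 * δ 1 0 := by
    rw [e0, e1]
    linear_combination -(v 1 0) * hδ
  have f1 : v 1 1 = z 0 * δ 0 1 + z 1 * δ 1 1 := by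
    rw [e0, e1]
    linear_combination -(v 1 1) * hδ
  obtain ⟨g0, g1, g2⟩ := nbL_ht z
  obtain ⟨H, hH⟩ : ∃ H : ℤ, H = (ht z : ℤ) := ⟨_, rfl⟩
  rw [← hH] at g0 g1 g2 ⊢
  have hH0 : 0 ≤ H := (abs_nonneg _).trans g0
  have hR0 : (0 : ℤ) ≤ R := by positivity
  have hb : ∀ a b c d : ℤ, |a| ≤ H → |b| ≤ R → |c| ≤ H → |d| ≤ R → a * b + c * d ≤ 2 * R * H := by
    intro a b c d h1 h2 h3 h4
    have h5 : |a| * |b| ≤ H * R := mul_le_mul h1 h2 (abs_nonneg _) hH0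
    have h6 : |c| * |d| ≤ H * R := mul_le_mul h3 h4 (abs_nonneg _) hH0
    rw [← abs_mul] at h5 h6
    have h7 := le_abs_self (a * b)
    have h8 := le_abs_self (c * d)
    linarith
  have hz0 : |z 0| ≤ R * (v 1 0 + v 1 1) := by
    rw [e0]
    have h5 : |v 1 0 * δ 1 1| ≤ v 1 0 * R := by
      rw [abs_mul, abs_of_pos hc]
      exact mul_le_mul_of_nonneg_left (hR 1 1) hc.le
    have h6 : |v 1 1 * δ 1 0| ≤ v 1 1 * R := by
      rw [abs_mul, abs_of_pos hd]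
      exact mul_le_mul_of_nonneg_left (hR 1 0) hd.le
    have h7 := abs_sub (v 1 0 * δ 1 1) (v 1 1 * δ 1 0)
    linarith
  have hz1 : |z 1| ≤ R * (v 1 0 + v 1 1) := by
    rw [e1]
    have h5 : |v 1 1 * δ 0 0| ≤ v 1 1 * R := by
      rw [abs_mul, abs_of_pos hd]
      exact mul_le_mul_of_nonneg_left (hR 0 0) hd.le
    have h6 : |v 1 0 * δ 0 1| ≤ v 1 0 * R := by
      rw [abs_mul, abs_of_pos hc]
      exact mul_le_mul_of_nonneg_left (hR 0 1) hc.le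
    have h7 := abs_sub (v 1 1 * δ 0 0) (v 1 0 * δ 0 1)
    linarith
  refine ⟨?_, ?_, f0, f1⟩
  · rcases g2 with g2 | g2 <;> rw [g2]
    · exact hz0
    · exact hz1
  · have h1 := hb _ _ _ _ g0 (hR 0 0) g1 (hR 1 0)
    have h2 := hb _ _ _ _ g0 (hR 0 1) g1 (hR 1 1)
    rw [← f0] at h1
    rw [← f1] at h2
    linarith

open Classical in
private theorem nbL_one (L : ℕ) (D : ℤ) (K : ℕ) (hK : 1 ≤ K) (δ γ : M2) (hδ : D1 δ) (R : ℕ) (hR1 : 1 ≤ R)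
    (hR : ∀ i j, |δ i j| ≤ (R : ℤ)) (ρ : ℝ) (hρ : 1 ≤ ρ) (A : ℝ) (hA : 4 * (R : ℝ) ≤ A)
    (N1 N2 : ℕ) (T : Finset M2)
    (hT : ∀ v ∈ T, v ∈ ndw K N1 N2 ∧ Bal ρ v ∧ (v * δ.adjugate) 1 ∈ Dst D γ 1 ∩ Cls L) :
    ∑ v ∈ T, len v ≤ K * (4 * ρ * R ^ 2) * ms (Dst D γ 1 ∩ Cls L) ((N1 : ℝ) / A) (A * N2) := by
  generalize Dst D γ 1 ∩ Cls L = X at hT ⊢
  have hR1' : (1 : ℝ) ≤ R := by exact_mod_cast hR1
  have hA0 : 0 < A := by linarith
  -- the basic estimates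
  have key : ∀ v ∈ T, Prm ((v * δ.adjugate) 1) ∧ 0 < (ht ((v * δ.adjugate) 1) : ℝ) ∧
      (N1 : ℝ) / A ≤ ht ((v * δ.adjugate) 1) ∧ (ht ((v * δ.adjugate) 1) : ℝ) ≤ A * N2 ∧
      len v ≤ 4 * ρ * R ^ 2 * (1 / (ht ((v * δ.adjugate) 1) : ℝ) ^ 2) := by
    intro v hv
    obtain ⟨h1, h2, -⟩ := hT v hv
    obtain ⟨h3, h4, -⟩ := (mem_ndw hK).1 h1
    obtain ⟨h5, h6, h7⟩ := h4
    obtain ⟨g1, g2, -, -⟩ := nbL_bd h3 hδ hR
    obtain ⟨b1, b2⟩ := h2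
    have hp : Prm ((v * δ.adjugate) 1) := by
      have h8 : D1 (v * δ.adjugate) := d1_mul h3.det (d1_adj hδ).1
      exact row_prm h8 1
    obtain ⟨H, hH⟩ : ∃ H : ℕ, H = ht ((v * δ.adjugate) 1) := ⟨_, rfl⟩
    rw [← hH] at g1 g2 ⊢
    have c0 : (0 : ℝ) < v 1 0 := by exact_mod_cast h3.c0
    have d0 : (0 : ℝ) < v 1 1 := by exact_mod_cast h3.d0
    have g1' : (H : ℝ) ≤ R * (v 1 0 + v 1 1) := by exact_mod_cast g1
    have g2' : (v 1 0 : ℝ) + v 1 1 ≤ 4 * R * H := by exact_mod_cast g2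
    have h5' : (v 1 0 : ℝ) ≤ N2 := by exact_mod_cast h5
    have h6' : (v 1 1 : ℝ) ≤ N2 := by exact_mod_cast h6
    have h7' : (N1 : ℝ) < v 1 0 + v 1 1 := by exact_mod_cast h7
    have hH0 : (0 : ℝ) < H := by
      by_contra hcon
      have h8 : (H : ℝ) ≤ 0 := not_lt.1 hcon
      have h9 : 4 * (R : ℝ) * H ≤ 0 := mul_nonpos_of_nonneg_of_nonpos (by positivity) h8
      linarith
    have hN2 : (0 : ℝ) ≤ N2 := Nat.cast_nonneg _
    refine ⟨hp, hH0, ?_, ?_, ?_⟩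
    · rw [div_le_iff₀ hA0]
      have h8 : 4 * (R : ℝ) * H ≤ A * H := mul_le_mul_of_nonneg_right hA hH0.le
      linarith
    · have h8 : (R : ℝ) * (v 1 0 + v 1 1) ≤ R * (2 * N2) :=
        mul_le_mul_of_nonneg_left (by linarith) (by linarith)
      have h9 : (2 * (R : ℝ)) * N2 ≤ A * N2 := mul_le_mul_of_nonneg_right (by linarith) hN2
      linarith
    · rw [len, mul_one_div, div_le_div_iff₀ (by positivity) (by positivity), one_mul]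
      have h8 : (H : ℝ) ^ 2 ≤ (R * (v 1 0 + v 1 1)) ^ 2 := pow_le_pow_left₀ hH0.le g1' 2
      have h9 : ((v 1 0 : ℝ) + v 1 1) ^ 2 ≤ 4 * ρ * (v 1 0 * v 1 1) := by
        have i1 : (v 1 0 : ℝ) * v 1 0 ≤ (ρ * v 1 1) * v 1 0 := mul_le_mul_of_nonneg_right b1 c0.le
        have i2 : (v 1 1 : ℝ) * v 1 1 ≤ (ρ * v 1 0) * v 1 1 := mul_le_mul_of_nonneg_right b2 d0.le
        have i3 : 1 * ((v 1 0 : ℝ) * v 1 1) ≤ ρ * (v 1 0 * v 1 1) :=
          mul_le_mul_of_nonneg_right hρ (by positivity)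
        nlinarith
      calc (H : ℝ) ^ 2 ≤ (R * (v 1 0 + v 1 1)) ^ 2 := h8
        _ = R ^ 2 * (v 1 0 + v 1 1) ^ 2 := by ring
        _ ≤ R ^ 2 * (4 * ρ * (v 1 0 * v 1 1)) := mul_le_mul_of_nonneg_left h9 (by positivity)
        _ = 4 * ρ * R ^ 2 * (v 1 0 * v 1 1) := by ring
  have hmaps : ∀ v ∈ T, (v * δ.adjugate) 1 ∈
      (pv ((N1 : ℝ) / A) (A * N2)).filter (fun z => z ∈ X) := by
    intro v hv
    obtain ⟨k1, k2, k3, k4, -⟩ := key v hv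
    rw [Finset.mem_filter]
    refine ⟨?_, (hT v hv).2.2⟩
    unfold pv
    rw [Finset.mem_filter, Fintype.mem_piFinset]
    refine ⟨fun i => ?_, k1, k3, k4⟩
    have h1 : (ht ((v * δ.adjugate) 1) : ℤ) ≤ (⌊A * (N2 : ℝ)⌋₊ : ℤ) := by
      exact_mod_cast Nat.le_floor k4
    obtain ⟨g0, g1, -⟩ := nbL_ht ((v * δ.adjugate) 1)
    rw [Finset.mem_Icc, ← abs_le]
    fin_cases i
    · exact g0.trans h1
    · exact g1.trans h1
  rw [← Finset.sum_fiberwise_of_maps_to hmaps]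
  unfold ms
  rw [Finset.mul_sum]
  refine Finset.sum_le_sum fun z hz => ?_
  have hfib : (T.filter (fun v => (v * δ.adjugate) 1 = z)).card ≤ K := by
    refine nbL_card (N1 := N1) (N2 := N2) hK _
      (fun v hv => (hT v (Finset.mem_filter.1 hv).1).1) fun v hv v' hv' => ?_
    obtain ⟨a1, a2⟩ := Finset.mem_filter.1 hv
    obtain ⟨a1', a2'⟩ := Finset.mem_filter.1 hv'
    obtain ⟨b1, -, -⟩ := (mem_ndw hK).1 (hT v a1).1
    obtain ⟨b1', -, -⟩ := (mem_ndw hK).1 (hT v' a1').1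
    obtain ⟨-, -, c1, c2⟩ := nbL_bd b1 hδ hR
    obtain ⟨-, -, c1', c2'⟩ := nbL_bd b1' hδ hR
    rw [a2] at c1 c2
    rw [a2'] at c1' c2'
    exact ⟨c1.trans c1'.symm, c2.trans c2'.symm⟩
  have hz0 : (0 : ℝ) ≤ 4 * ρ * R ^ 2 * (1 / (ht z : ℝ) ^ 2) := by positivity
  refine (Finset.sum_le_card_nsmul _ _ (4 * ρ * R ^ 2 * (1 / (ht z : ℝ) ^ 2))
    fun v hv => ?_).trans ?_
  · obtain ⟨a1, a2⟩ := Finset.mem_filter.1 hv
    have := (key v a1).2.2.2.2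
    rwa [a2] at this
  · rw [nsmul_eq_mul]
    calc _ ≤ (K : ℝ) * (4 * ρ * R ^ 2 * (1 / (ht z : ℝ) ^ 2)) :=
          mul_le_mul_of_nonneg_right (by exact_mod_cast hfib) hz0
      _ = _ := by ring

private theorem nbL_cls {L K0 : ℕ} (hLK : L ∣ K0) {v δ : M2} (hδ : D1 δ) (h : Cg K0 v δ) :
    (v * δ.adjugate) 1 ∈ Cls L := by
  have h1 : Cg K0 (v * δ.adjugate) (δ * δ.adjugate) :=
    cg_mul h (fun i j => by simp)
  obtain ⟨-, h2, -⟩ := d1_adj hδ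
  rw [h2] at h1
  have h3 := h1 1 0
  have h4 : (L : ℤ) ∣ (K0 : ℤ) := by exact_mod_cast hLK
  have h5 : (L : ℤ) ∣ (v * δ.adjugate) 1 0 - (1 : M2) 1 0 := h4.trans h3
  show (L : ℤ) ∣ (v * δ.adjugate) 1 0
  simpa using h5

open Classical in
theorem bds_leL (L : ℕ) (D : ℤ) (hD : ¬ IsSquare D) (K0 K : ℕ) (hK0 : 1 ≤ K0) (hLK : L ∣ K0)
    (hK : 1 ≤ K) (rr : M2 → M2) (Rg : Finset M2) (hr : IsSec K0 rr Rg) (Δ : Finset M2)
    (hΔ : ∀ δ ∈ Δ, D1 δ) (ρ : ℝ) (hρ : 1 ≤ ρ) :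
    ∃ (Gam : Finset M2) (A : ℝ), 1 ≤ A ∧ (∀ γ ∈ Gam, D1 γ ∧ Cg K0 γ 1) ∧
      ∀ (N1 N2 : ℕ), 1 ≤ N1 → N1 ≤ N2 →
        ∑ v ∈ (ndw K N1 N2).filter (fun v => v ∈ BdsL D K0 rr Δ ∧ Bal ρ v), len v ≤
          A * ∑ γ ∈ Gam, ms (Dst D γ 1 ∩ Cls L) ((N1 : ℝ) / A) (A * N2) := by
  obtain ⟨R, hR1, hR⟩ : ∃ R : ℕ, 1 ≤ R ∧ ∀ δ ∈ Δ, ∀ i j, |δ i j| ≤ (R : ℤ) := by
    refine ⟨1 + ∑ δ ∈ Δ, ∑ i, ∑ j, (δ i j).natAbs, by omega, fun δ hδ i j => ?_⟩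
    have h1 : (δ i j).natAbs ≤ ∑ j, (δ i j).natAbs :=
      Finset.single_le_sum (f := fun j => (δ i j).natAbs) (fun _ _ => Nat.zero_le _)
        (Finset.mem_univ j)
    have h2 : ∑ j, (δ i j).natAbs ≤ ∑ i, ∑ j, (δ i j).natAbs :=
      Finset.single_le_sum (f := fun i => ∑ j, (δ i j).natAbs) (fun _ _ => Nat.zero_le _)
        (Finset.mem_univ i)
    have h3 : ∑ i, ∑ j, (δ i j).natAbs ≤ ∑ δ ∈ Δ, ∑ i, ∑ j, (δ i j).natAbs :=
      Finset.single_le_sum (f := fun δ : M2 => ∑ i, ∑ j, (δ i j).natAbs)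
        (fun _ _ => Nat.zero_le _) hδ
    rw [Int.abs_eq_natAbs]
    exact_mod_cast (by omega)
  have hR1' : (1 : ℝ) ≤ R := by exact_mod_cast hR1
  have hK' : (1 : ℝ) ≤ K := by exact_mod_cast hK
  obtain ⟨A, hA⟩ : ∃ A : ℝ, A = 4 * R + Δ.card * (K * (4 * ρ * R ^ 2)) := ⟨_, rfl⟩
  have hA2 : (0 : ℝ) ≤ Δ.card * (K * (4 * ρ * R ^ 2)) := by positivity
  have hA4 : 4 * (R : ℝ) ≤ A := by rw [hA]; linarith
  have hA3 : (Δ.card : ℝ) * (K * (4 * ρ * R ^ 2)) ≤ A := by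
    rw [hA]
    linarith
  have hcg : ∀ δ ∈ Δ, D1 (δ * rr δ.adjugate) ∧ Cg K0 (δ * rr δ.adjugate) 1 := by
    intro δ hδ
    obtain ⟨h1, h2, -⟩ := d1_adj (hΔ δ hδ)
    refine ⟨d1_mul (hΔ δ hδ) (hr.d1 _ h1), ?_⟩
    have h3 : Cg K0 δ δ := fun i j => by simp
    have h4 := cg_mul h3 (hr.cg _ h1)
    rwa [h2] at h4
  refine ⟨Δ.image (fun δ => δ * rr δ.adjugate), A, by linarith, ?_, ?_⟩
  · intro γ hγ
    obtain ⟨δ, hδ, rfl⟩ := Finset.mem_image.1 hγ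
    exact hcg δ hδ
  · intro N1 N2 hN1 hN12
    obtain ⟨S, hS⟩ : ∃ S : ℝ, S = ∑ γ ∈ Δ.image (fun δ => δ * rr δ.adjugate),
      ms (Dst D γ 1 ∩ Cls L) ((N1 : ℝ) / A) (A * N2) := ⟨_, rfl⟩
    have hS0 : 0 ≤ S := by
      rw [hS]
      exact Finset.sum_nonneg fun _ _ => ms_nonneg _ _ _
    rw [← hS]
    have hnn : ∀ v ∈ ndw K N1 N2, 0 ≤ len v := fun v hv =>
      (len_pos ((mem_ndw hK).1 hv).1).le
    -- split according to `δ`
    have h1 : ∑ v ∈ (ndw K N1 N2).filter (fun v => v ∈ BdsL D K0 rr Δ ∧ Bal ρ v), len v ≤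
        ∑ δ ∈ Δ, ∑ v ∈ (ndw K N1 N2).filter (fun v => Bal ρ v ∧ Cg K0 v δ ∧
          F D ((v * rr δ.adjugate) 1) ≠ F D ((v * δ.adjugate) 1)), len v := by
      have h2 : (ndw K N1 N2).filter (fun v => v ∈ BdsL D K0 rr Δ ∧ Bal ρ v) ⊆
          Δ.biUnion (fun δ => (ndw K N1 N2).filter (fun v => Bal ρ v ∧ Cg K0 v δ ∧
            F D ((v * rr δ.adjugate) 1) ≠ F D ((v * δ.adjugate) 1))) := by
        intro v hv
        obtain ⟨a1, ⟨δ, hδ, a4, a2⟩, a3⟩ := Finset.mem_filter.1 hv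
        exact Finset.mem_biUnion.2 ⟨δ, hδ, Finset.mem_filter.2 ⟨a1, a3, a4, a2⟩⟩
      refine (Finset.sum_le_sum_of_subset_of_nonneg h2 fun v hv _ => ?_).trans ?_
      · obtain ⟨δ, -, hv'⟩ := Finset.mem_biUnion.1 hv
        exact hnn v (Finset.mem_filter.1 hv').1
      · have h3 : ∀ (Δ' : Finset M2), ∑ v ∈ Δ'.biUnion (fun δ => (ndw K N1 N2).filter
            (fun v => Bal ρ v ∧ Cg K0 v δ ∧ F D ((v * rr δ.adjugate) 1) ≠ F D ((v * δ.adjugate) 1))), len v ≤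
            ∑ δ ∈ Δ', ∑ v ∈ (ndw K N1 N2).filter (fun v => Bal ρ v ∧ Cg K0 v δ ∧
              F D ((v * rr δ.adjugate) 1) ≠ F D ((v * δ.adjugate) 1)), len v := by
          intro Δ'
          induction Δ' using Finset.induction_on with
          | empty => simp
          | insert δ Δ' hδ ih =>
            rw [Finset.biUnion_insert, Finset.sum_insert hδ]
            refine le_trans ?_ (add_le_add_right ih _)
            rw [← Finset.sum_union_inter]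
            refine le_add_of_nonneg_right (Finset.sum_nonneg fun v hv => ?_)
            exact hnn v (Finset.mem_filter.1 (Finset.mem_inter.1 hv).1).1
        exact h3 Δ
    have h2 : ∀ δ ∈ Δ, ∑ v ∈ (ndw K N1 N2).filter (fun v => Bal ρ v ∧ Cg K0 v δ ∧
        F D ((v * rr δ.adjugate) 1) ≠ F D ((v * δ.adjugate) 1)), len v ≤
        K * (4 * ρ * R ^ 2) * S := by
      intro δ hδ
      obtain ⟨k1, k2, k3⟩ := d1_adj (hΔ δ hδ)
      have h3 := nbL_one L D K hK δ (δ * rr δ.adjugate) (hΔ δ hδ) R hR1 (hR δ hδ) ρ hρ A hA4 N1 N2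
        ((ndw K N1 N2).filter (fun v => Bal ρ v ∧ Cg K0 v δ ∧
          F D ((v * rr δ.adjugate) 1) ≠ F D ((v * δ.adjugate) 1))) (by
          intro v hv
          obtain ⟨a1, a2, a4, a3⟩ := Finset.mem_filter.1 hv
          refine ⟨a1, a2, ?_, nbL_cls hLK (hΔ δ hδ) a4⟩
          show F D (((v * δ.adjugate) 1) ᵥ* (δ * rr δ.adjugate)) ≠ 1 * F D ((v * δ.adjugate) 1)
          have e1 : ((v * δ.adjugate) 1) ᵥ* (δ * rr δ.adjugate) = (v * rr δ.adjugate) 1 := by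
            have e2 : (v * δ.adjugate) * (δ * rr δ.adjugate) = v * rr δ.adjugate := by
              rw [Matrix.mul_assoc, ← Matrix.mul_assoc δ.adjugate, k3, Matrix.one_mul]
            rw [← e2]
            rfl
          rw [e1, one_mul]
          exact a3)
      refine h3.trans (mul_le_mul_of_nonneg_left ?_ (by positivity))
      rw [hS]
      exact Finset.single_le_sum (f := fun γ => ms (Dst D γ 1 ∩ Cls L) ((N1 : ℝ) / A) (A * N2))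
        (fun _ _ => ms_nonneg _ _ _) (Finset.mem_image_of_mem _ hδ)
    refine h1.trans ((Finset.sum_le_card_nsmul _ _ _ h2).trans ?_)
    rw [nsmul_eq_mul, ← mul_assoc]
    exact mul_le_mul_of_nonneg_right hA3 hS0

end Pool.Agent.CQG
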