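import Pool.Agent.CQG.Cdf
import Pool.Agent.CQF.Lnk

set_option autoImplicit false

/-!
# Module Nk (size 2): splits which change `Φ`, in the class

Copy of the proof of `chg_le` in `Pool/Agent/CQF/Lnk.lean`. The only new point: the vector `z = (h * rr (adj h)) 1` is `≡ (0, 1)`
mod `K0` (`rr (adj h) ≡ adj h`, `IsSec.cg`, so `h * rr (adj h) ≡ 1`), so `K0 ∣ z 0` and `z ∈ Cls L` as `L ∣ K0`.
-/

open Matrix Pool.Agent.CQF

namespace Pool.Agent.CQG

private theorem Nk_adjadj (h : M2) : h.adjugate.adjugate = h := by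
  rw [Matrix.adjugate_fin_two, Matrix.adjugate_fin_two]
  ext i j
  fin_cases i <;> fin_cases j <;> simp

private theorem Nk_split {K0 : ℕ} {rr : M2 → M2} {Rg : Finset M2} (hr : IsSec K0 rr Rg)
    {h X : M2} (hh : D1 h) (hX : D1 X) :
    D1 ((rr h.adjugate).adjugate * X * rr (h * X).adjugate) ∧
    Cg K0 ((rr h.adjugate).adjugate * X * rr (h * X).adjugate) 1 ∧
    (h * X * rr (h * X).adjugate) 1 = (h * rr h.adjugate) 1 ᵥ*
      ((rr h.adjugate).adjugate * X * rr (h * X).adjugate) := by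
  have h1 := d1_adj hh
  have hg := hr.d1 _ h1.1
  have hg2 := d1_adj hg
  have hX2 := d1_mul hh hX
  have hX3 := d1_adj hX2
  have hg' := hr.d1 _ hX3.1
  refine ⟨d1_mul (d1_mul hg2.1 hX) hg', ?_, ?_⟩
  · have c1 := cg_adj (hr.cg _ h1.1)
    have c2 : Cg K0 X X := fun i j => by simp
    have c3 := hr.cg _ hX3.1
    have c4 := cg_mul (cg_mul c1 c2) c3
    rw [Nk_adjadj, hX3.2.1] at c4
    exact c4
  · rw [← Matrix.mul_apply_eq_vecMul]
    have e2 : h * X * rr (h * X).adjugate = h * rr h.adjugate *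
        ((rr h.adjugate).adjugate * X * rr (h * X).adjugate) := by
      have e3 : h * rr h.adjugate * ((rr h.adjugate).adjugate * X * rr (h * X).adjugate) =
          h * (rr h.adjugate * (rr h.adjugate).adjugate) * X * rr (h * X).adjugate := by
        simp only [Matrix.mul_assoc]
      rw [e3, hg2.2.1, Matrix.mul_one]
    rw [← e2]

/-- a node is determined by its second row and `⌊b/d⌋` -/
private theorem Nk_inj {h h' : M2} (hh : IsNd h) (hh' : IsNd h') (hc : h 1 0 = h' 1 0)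
    (hd : h 1 1 = h' 1 1) (ht : h 0 1 / h 1 1 = h' 0 1 / h' 1 1) : h = h' := by
  have e1 := hh.det
  have e2 := hh'.det
  rw [← hc, ← hd] at e2
  rw [← hd] at ht
  have hd0 := hh.d0
  have h3 : h 1 1 * (h 0 0 - h' 0 0) = h 1 0 * (h 0 1 - h' 0 1) := by linarith
  have hcop : IsCoprime (h 1 1) (h 1 0) := ⟨h 0 0, -h 0 1, by linarith⟩
  have h4 : h 1 1 ∣ h 0 1 - h' 0 1 := hcop.dvd_of_dvd_mul_left ⟨_, h3.symm⟩
  have h5 : h 0 1 = h' 0 1 := by
    have a1 := Int.emod_add_mul_ediv (h 0 1) (h 1 1)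
    have a2 := Int.emod_add_mul_ediv (h' 0 1) (h 1 1)
    have a3 : h 0 1 % h 1 1 = h' 0 1 % h 1 1 :=
      Int.emod_eq_emod_iff_emod_sub_eq_zero.2 (Int.emod_eq_zero_of_dvd h4)
    rw [← a1, ← a2, ht, a3]
  have h6 : h 0 0 = h' 0 0 := by
    rw [h5, sub_self, mul_zero] at h3
    rcases mul_eq_zero.1 h3 with h7 | h7
    · omega
    · omega
  ext i j
  fin_cases i <;> fin_cases j
  · exact h6
  · exact h5
  · exact hc
  · exact hd

private theorem Nk_bound (Rg : Finset M2) : ∃ R : ℕ, 1 ≤ R ∧ ∀ r ∈ Rg, ∀ i j, |r i j| ≤ (R : ℤ) := by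
  classical
  refine ⟨1 + ∑ r ∈ Rg, ∑ i, ∑ j, (r i j).natAbs, by omega, fun r hr i j => ?_⟩
  have h1 : (r i j).natAbs ≤ ∑ j, (r i j).natAbs :=
    Finset.single_le_sum (f := fun j => (r i j).natAbs) (fun _ _ => Nat.zero_le _) (Finset.mem_univ j)
  have h2 : ∑ j, (r i j).natAbs ≤ ∑ i, ∑ j, (r i j).natAbs :=
    Finset.single_le_sum (f := fun i => ∑ j, (r i j).natAbs) (fun _ _ => Nat.zero_le _)
      (Finset.mem_univ i)
  have h3 : ∑ i, ∑ j, (r i j).natAbs ≤ ∑ r ∈ Rg, ∑ i, ∑ j, (r i j).natAbs :=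
    Finset.single_le_sum (f := fun r : M2 => ∑ i, ∑ j, (r i j).natAbs)
      (fun _ _ => Nat.zero_le _) hr
  have h4 : |r i j| = ((r i j).natAbs : ℤ) := Int.abs_eq_natAbs _
  rw [h4]
  exact_mod_cast (h1.trans (h2.trans h3)).trans (Nat.le_add_left _ _)

/-- heights -/
private theorem Nk_ht {R : ℕ} {h g : M2} (hc : 0 < h 1 0) (hd : 0 < h 1 1) (hg : D1 g)
    (hR : ∀ i j, |g i j| ≤ (R : ℤ)) :
    (ht ((h * g) 1) : ℤ) ≤ R * (h 1 0 + h 1 1) ∧ h 1 0 + h 1 1 ≤ 4 * R * (ht ((h * g) 1) : ℤ) := by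
  have e : ∀ j, (h * g) 1 j = h 1 0 * g 0 j + h 1 1 * g 1 j := fun j => by
    rw [Matrix.mul_apply, Fin.sum_univ_two]
  have hz : ∀ j, |(h * g) 1 j| ≤ (ht ((h * g) 1) : ℤ) := by
    intro j
    unfold ht
    rw [Int.abs_eq_natAbs]
    fin_cases j
    · exact_mod_cast le_max_left _ _
    · exact_mod_cast le_max_right _ _
  have hR0 : (0 : ℤ) ≤ R := Int.natCast_nonneg R
  constructor
  · have h1 : ∀ j, |(h * g) 1 j| ≤ R * (h 1 0 + h 1 1) := by
      intro j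
      rw [e j]
      calc |h 1 0 * g 0 j + h 1 1 * g 1 j| ≤ |h 1 0 * g 0 j| + |h 1 1 * g 1 j| := abs_add_le _ _
        _ = h 1 0 * |g 0 j| + h 1 1 * |g 1 j| := by
            rw [abs_mul, abs_mul, abs_of_pos hc, abs_of_pos hd]
        _ ≤ h 1 0 * R + h 1 1 * R := by
            have a1 := mul_le_mul_of_nonneg_left (hR 0 j) hc.le
            have a2 := mul_le_mul_of_nonneg_left (hR 1 j) hd.le
            linarith
        _ = R * (h 1 0 + h 1 1) := by ring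
    have h0 := h1 0
    have h2 := h1 1
    rw [Int.abs_eq_natAbs] at h0 h2
    unfold ht
    rw [Nat.cast_max]
    exact max_le h0 h2
  · have hg' : g 0 0 * g 1 1 - g 0 1 * g 1 0 = 1 := hg
    have ec : h 1 0 = (h * g) 1 0 * g 1 1 - (h * g) 1 1 * g 1 0 := by
      rw [e 0, e 1]
      linear_combination (-(h 1 0)) * hg'
    have ed : h 1 1 = (h * g) 1 1 * g 0 0 - (h * g) 1 0 * g 0 1 := by
      rw [e 0, e 1]
      linear_combination (-(h 1 1)) * hg'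
    have key : ∀ x y u w : ℤ, |x| ≤ (ht ((h * g) 1) : ℤ) → |y| ≤ (ht ((h * g) 1) : ℤ) →
        |u| ≤ (R : ℤ) → |w| ≤ (R : ℤ) → x * u - y * w ≤ 2 * R * (ht ((h * g) 1) : ℤ) := by
      intro x y u w hx hy hu hw
      have a1 : x * u ≤ (ht ((h * g) 1) : ℤ) * R := by
        calc x * u ≤ |x * u| := le_abs_self _
          _ = |x| * |u| := abs_mul _ _
          _ ≤ _ := mul_le_mul hx hu (abs_nonneg _) (Int.natCast_nonneg _)
      have a2 : -(y * w) ≤ (ht ((h * g) 1) : ℤ) * R := by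
        calc -(y * w) ≤ |y * w| := neg_le_abs _
          _ = |y| * |w| := abs_mul _ _
          _ ≤ _ := mul_le_mul hy hw (abs_nonneg _) (Int.natCast_nonneg _)
      linarith
    have b1 := key _ _ _ _ (hz 0) (hz 1) (hR 1 1) (hR 1 0)
    have b2 := key _ _ _ _ (hz 1) (hz 0) (hR 0 0) (hR 0 1)
    rw [← ec] at b1
    rw [← ed] at b2
    linarith

/-- the vector is in the class -/
private theorem Nk_cls {L K0 : ℕ} {rr : M2 → M2} {Rg : Finset M2} (hr : IsSec K0 rr Rg)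
    (hLK : L ∣ K0) {h : M2} (hh : D1 h) : (h * rr h.adjugate) 1 ∈ Cls L := by
  have h1 := d1_adj hh
  have c3 := hr.cg _ h1.1
  have c2 : Cg K0 h h := fun i j => by simp
  have c4 := cg_mul c2 c3
  rw [h1.2.1] at c4
  have h5 := c4 1 0
  rw [Matrix.one_apply_ne (by decide), sub_zero] at h5
  exact (Int.natCast_dvd_natCast.2 hLK).trans h5

theorem chg_leL (L : ℕ) (D : ℤ) (hD : ¬ IsSquare D) (K0 K : ℕ) (hK0 : 1 ≤ K0) (hLK : L ∣ K0)
    (hK : 1 ≤ K) (rr : M2 → M2) (Rg : Finset M2) (hr : IsSec K0 rr Rg) :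
    ∃ (Gam : Finset M2) (A : ℝ), 1 ≤ A ∧ (∀ γ ∈ Gam, D1 γ ∧ Cg K0 γ 1) ∧
      ∀ (N1 N2 : ℕ) (T : Finset M2), 1 ≤ N1 → N1 ≤ N2 →
        (∀ h ∈ T, h ∈ ndw K N1 N2 ∧ Chg (Phi D rr) h ∧ (N1 : ℤ) < h 1 0 + h 1 1 ∧
          h 1 0 + h 1 1 ≤ (N2 : ℤ)) →
        ∑ h ∈ T, 1 / ((h 1 0 : ℝ) + h 1 1) ^ 2 ≤
          A * ∑ γ ∈ Gam, ms (Dst D γ 1 ∩ Cls L) ((N1 : ℝ) / A) (A * N2) := by
  classical
  obtain ⟨R, hR1, hR⟩ := Nk_bound Rg
  have hLm : D1 Lm := by simp [D1, Lm]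
  have hUm : D1 Um := by simp [D1, Um]
  have hR1' : (1 : ℝ) ≤ R := by exact_mod_cast hR1
  have hK' : (1 : ℝ) ≤ K := by exact_mod_cast hK
  set C : ℝ := (R : ℝ) ^ 2 * ((Rg.card : ℝ) * K) with hC
  have hC0 : 0 ≤ C := by positivity
  set A : ℝ := 4 * R + C with hA
  have hA4 : 4 * (R : ℝ) ≤ A := by linarith
  have hAC : C ≤ A := by linarith
  have hA1 : 1 ≤ A := by linarith
  have hA0 : 0 < A := by linarith
  refine ⟨((Rg ×ˢ Rg).image (fun p => p.1.adjugate * Lm * p.2) ∪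
    (Rg ×ˢ Rg).image (fun p => p.1.adjugate * Um * p.2)).filter (fun γ => D1 γ ∧ Cg K0 γ 1),
    A, hA1, fun γ hγ => (Finset.mem_filter.1 hγ).2, ?_⟩
  intro N1 N2 T hN1 hN12 hT
  set Gam := ((Rg ×ˢ Rg).image (fun p => p.1.adjugate * Lm * p.2) ∪
    (Rg ×ˢ Rg).image (fun p => p.1.adjugate * Um * p.2)).filter (fun γ => D1 γ ∧ Cg K0 γ 1)
    with hGam
  -- every element of `T` is captured
  have hcap : ∀ h ∈ T, ∃ γ ∈ Gam, (h * rr h.adjugate) 1 ∈ Dst D γ 1 ∩ Cls L := by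
    intro h hh
    obtain ⟨hn, hch, -, -⟩ := hT h hh
    have hnd := (mem_ndw hK).1 hn
    have hd1 : D1 h := hnd.1.det
    have hcl : (h * rr h.adjugate) 1 ∈ Cls L := Nk_cls hr hLK hd1
    have hgen : ∀ X : M2, D1 X → Phi D rr (h * X) ≠ Phi D rr h →
        (h * rr h.adjugate) 1 ∈ Dst D ((rr h.adjugate).adjugate * X * rr (h * X).adjugate) 1 ∩
          Cls L := by
      intro X hX hne
      refine ⟨?_, hcl⟩
      show F D ((h * rr h.adjugate) 1 ᵥ* _) ≠ 1 * F D ((h * rr h.adjugate) 1)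
      intro heq
      apply hne
      unfold Phi
      rw [(Nk_split hr hd1 hX).2.2, heq, one_mul]
    rcases hch with hch | hch
    · refine ⟨_, Finset.mem_filter.2 ⟨Finset.mem_union_left _ (Finset.mem_image.2
        ⟨(rr h.adjugate, rr (h * Lm).adjugate), Finset.mem_product.2 ⟨hr.mem _, hr.mem _⟩, rfl⟩),
        ?_⟩, hgen Lm hLm hch⟩
      exact ⟨(Nk_split hr hd1 hLm).1, (Nk_split hr hd1 hLm).2.1⟩
    · refine ⟨_, Finset.mem_filter.2 ⟨Finset.mem_union_right _ (Finset.mem_image.2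
        ⟨(rr h.adjugate, rr (h * Um).adjugate), Finset.mem_product.2 ⟨hr.mem _, hr.mem _⟩, rfl⟩),
        ?_⟩, hgen Um hUm hch⟩
      exact ⟨(Nk_split hr hd1 hUm).1, (Nk_split hr hd1 hUm).2.1⟩
  -- sum over `γ`
  have hsum1 : ∑ h ∈ T, 1 / ((h 1 0 : ℝ) + h 1 1) ^ 2 ≤
      ∑ γ ∈ Gam, ∑ h ∈ T.filter (fun h => (h * rr h.adjugate) 1 ∈ Dst D γ 1 ∩ Cls L),
        1 / ((h 1 0 : ℝ) + h 1 1) ^ 2 := by
    simp only [Finset.sum_filter]
    rw [Finset.sum_comm]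
    refine Finset.sum_le_sum fun h hh => ?_
    obtain ⟨γ, hγ, hz⟩ := hcap h hh
    have h0 : ∀ γ ∈ Gam, (0 : ℝ) ≤ if (h * rr h.adjugate) 1 ∈ Dst D γ 1 ∩ Cls L then
        1 / ((h 1 0 : ℝ) + h 1 1) ^ 2 else 0 := by
      intro γ _
      split_ifs
      · positivity
      · exact le_rfl
    have h1 := Finset.single_le_sum h0 hγ
    rw [if_pos hz] at h1
    exact h1
  refine hsum1.trans ?_
  rw [Finset.mul_sum]
  refine Finset.sum_le_sum fun γ hγ => ?_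
  -- a fixed `γ`
  set P := (pv ((N1 : ℝ) / A) (A * N2)).filter (fun v => v ∈ Dst D γ 1 ∩ Cls L) with hP
  set Q := Rg ×ˢ Finset.Ico (0 : ℤ) K with hQ
  set f : M2 → (Fin 2 → ℤ) × (M2 × ℤ) := fun h => ((h * rr h.adjugate) 1,
    (rr h.adjugate, h 0 1 / h 1 1)) with hf
  set S := T.filter (fun h => (h * rr h.adjugate) 1 ∈ Dst D γ 1 ∩ Cls L) with hS
  have hfacts : ∀ h ∈ S, IsNd h ∧ h 0 0 ≤ K * h 1 0 ∧ (h * rr h.adjugate) 1 ∈ Dst D γ 1 ∩ Cls L ∧
      (N1 : ℤ) < h 1 0 + h 1 1 ∧ h 1 0 + h 1 1 ≤ (N2 : ℤ) ∧ D1 (rr h.adjugate) := by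
    intro h hh
    obtain ⟨hhT, hz⟩ := Finset.mem_filter.1 hh
    obtain ⟨hn, -, h1, h2⟩ := hT h hhT
    have hnd := (mem_ndw hK).1 hn
    exact ⟨hnd.1, hnd.2.2, hz, h1, h2, hr.d1 _ (d1_adj hnd.1.det).1⟩
  have hinj : Set.InjOn f S := by
    intro h hh h' hh' he
    obtain ⟨hn, -, -, -, -, hg⟩ := hfacts h hh
    obtain ⟨hn', -, -, -, -, hg'⟩ := hfacts h' hh'
    simp only [hf, Prod.mk.injEq] at he
    obtain ⟨e1, e2, e3⟩ := he
    have e4 : h 1 = h' 1 := by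
      have a1 : h = (h * rr h.adjugate) * (rr h.adjugate).adjugate := by
        rw [Matrix.mul_assoc, (d1_adj hg).2.1, Matrix.mul_one]
      have a2 : h' = (h' * rr h'.adjugate) * (rr h'.adjugate).adjugate := by
        rw [Matrix.mul_assoc, (d1_adj hg').2.1, Matrix.mul_one]
      have q1 : h 1 = (h * rr h.adjugate) 1 ᵥ* (rr h.adjugate).adjugate :=
        (congrFun a1 1).trans (Matrix.mul_apply_eq_vecMul _ _ 1)
      have q2 : h' 1 = (h' * rr h'.adjugate) 1 ᵥ* (rr h'.adjugate).adjugate :=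
        (congrFun a2 1).trans (Matrix.mul_apply_eq_vecMul _ _ 1)
      rw [q1, q2, e1, e2]
    exact Nk_inj hn hn' (congrFun e4 0) (congrFun e4 1) e3
  have hmaps : ∀ h ∈ S, f h ∈ P ×ˢ Q := by
    intro h hh
    obtain ⟨hn, hK2, hz, h1, h2, hg⟩ := hfacts h hh
    obtain ⟨b1, b2⟩ := Nk_ht hn.c0 hn.d0 hg (fun i j => hR _ (hr.mem _) i j)
    have c1 : ((ht ((h * rr h.adjugate) 1) : ℕ) : ℝ) ≤ R * ((h 1 0 : ℝ) + h 1 1) := by
      exact_mod_cast b1
    have c2 : ((h 1 0 : ℝ) + h 1 1) ≤ 4 * R * (ht ((h * rr h.adjugate) 1) : ℝ) := by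
      exact_mod_cast b2
    have c3 : ((h 1 0 : ℝ) + h 1 1) ≤ N2 := by exact_mod_cast h2
    have c4 : (N1 : ℝ) < ((h 1 0 : ℝ) + h 1 1) := by exact_mod_cast h1
    rw [Finset.mem_product]
    refine ⟨Finset.mem_filter.2 ⟨?_, hz⟩, Finset.mem_product.2 ⟨hr.mem _, ?_⟩⟩
    · have u1 : ((ht ((h * rr h.adjugate) 1) : ℕ) : ℝ) ≤ A * N2 := by
        calc ((ht ((h * rr h.adjugate) 1) : ℕ) : ℝ) ≤ R * ((h 1 0 : ℝ) + h 1 1) := c1
          _ ≤ A * N2 := by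
              apply mul_le_mul (by linarith) c3 _ (by linarith)
              have := hn.c0
              have := hn.d0
              positivity
      have u2 : (N1 : ℝ) / A ≤ (ht ((h * rr h.adjugate) 1) : ℕ) := by
        rw [div_le_iff₀ hA0]
        calc (N1 : ℝ) ≤ 4 * R * (ht ((h * rr h.adjugate) 1) : ℝ) := by linarith
          _ ≤ A * (ht ((h * rr h.adjugate) 1) : ℝ) :=
              mul_le_mul_of_nonneg_right hA4 (Nat.cast_nonneg _)
          _ = _ := mul_comm _ _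
      unfold pv
      rw [Finset.mem_filter]
      refine ⟨?_, row_prm (d1_mul hn.det hg) 1, u2, u1⟩
      rw [Fintype.mem_piFinset]
      intro j
      rw [Finset.mem_Icc]
      have v1 : ht ((h * rr h.adjugate) 1) ≤ ⌊A * (N2 : ℝ)⌋₊ := Nat.le_floor u1
      have v2 : ((h * rr h.adjugate) 1 j).natAbs ≤ ht ((h * rr h.adjugate) 1) := by
        unfold ht
        fin_cases j
        · exact le_max_left _ _
        · exact le_max_right _ _
      have v3 : ((h * rr h.adjugate) 1 j).natAbs ≤ ⌊A * (N2 : ℝ)⌋₊ := v2.trans v1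
      show -(⌊A * (N2 : ℝ)⌋₊ : ℤ) ≤ (h * rr h.adjugate) 1 j ∧
        (h * rr h.adjugate) 1 j ≤ (⌊A * (N2 : ℝ)⌋₊ : ℤ)
      omega
    · rw [Finset.mem_Ico]
      refine ⟨Int.ediv_nonneg hn.b0 hn.d0.le, ?_⟩
      rw [Int.ediv_lt_iff_lt_mul hn.d0]
      have e1 := hn.det
      have hc := hn.c0
      have hd := hn.d0
      have e2 : h 0 1 * h 1 0 < (K * h 1 1) * h 1 0 := by
        have : h 0 0 * h 1 1 ≤ K * h 1 0 * h 1 1 := mul_le_mul_of_nonneg_right hK2 hd.le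
        nlinarith
      exact lt_of_mul_lt_mul_right e2 hc.le
  have hterm : ∀ h ∈ S, 1 / ((h 1 0 : ℝ) + h 1 1) ^ 2 ≤
      (R : ℝ) ^ 2 * (1 / ((ht (f h).1 : ℕ) : ℝ) ^ 2) := by
    intro h hh
    obtain ⟨hn, -, -, -, -, hg⟩ := hfacts h hh
    obtain ⟨b1, b2⟩ := Nk_ht hn.c0 hn.d0 hg (fun i j => hR _ (hr.mem _) i j)
    have c1 : ((ht ((h * rr h.adjugate) 1) : ℕ) : ℝ) ≤ R * ((h 1 0 : ℝ) + h 1 1) := by
      exact_mod_cast b1
    have c2 : ((h 1 0 : ℝ) + h 1 1) ≤ 4 * R * (ht ((h * rr h.adjugate) 1) : ℝ) := by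
      exact_mod_cast b2
    have p1 : (0 : ℝ) < h 1 0 := by exact_mod_cast hn.c0
    have p2 : (0 : ℝ) < h 1 1 := by exact_mod_cast hn.d0
    have p3 : (0 : ℝ) < (ht ((h * rr h.adjugate) 1) : ℝ) := by
      by_contra hcon
      have : (ht ((h * rr h.adjugate) 1) : ℝ) = 0 :=
        le_antisymm (not_lt.1 hcon) (Nat.cast_nonneg _)
      rw [this, mul_zero] at c2
      linarith
    show 1 / ((h 1 0 : ℝ) + h 1 1) ^ 2 ≤
      (R : ℝ) ^ 2 * (1 / (ht ((h * rr h.adjugate) 1) : ℝ) ^ 2)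
    rw [mul_one_div, div_le_div_iff₀ (by positivity) (by positivity), one_mul, ← mul_pow]
    exact pow_le_pow_left₀ p3.le c1 2
  calc ∑ h ∈ S, 1 / ((h 1 0 : ℝ) + h 1 1) ^ 2
      ≤ ∑ h ∈ S, (R : ℝ) ^ 2 * (1 / ((ht (f h).1 : ℕ) : ℝ) ^ 2) := Finset.sum_le_sum hterm
    _ = (R : ℝ) ^ 2 * ∑ p ∈ S.image f, 1 / ((ht p.1 : ℕ) : ℝ) ^ 2 := by
        rw [Finset.sum_image hinj, Finset.mul_sum]
    _ ≤ (R : ℝ) ^ 2 * ∑ p ∈ P ×ˢ Q, 1 / ((ht p.1 : ℕ) : ℝ) ^ 2 := by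
        refine mul_le_mul_of_nonneg_left ?_ (by positivity)
        refine Finset.sum_le_sum_of_subset_of_nonneg ?_ (fun _ _ _ => by positivity)
        intro p hp
        obtain ⟨h, hh, rfl⟩ := Finset.mem_image.1 hp
        exact hmaps h hh
    _ = C * ms (Dst D γ 1 ∩ Cls L) ((N1 : ℝ) / A) (A * N2) := by
        rw [Finset.sum_product]
        simp only [Finset.sum_const, nsmul_eq_mul]
        rw [← Finset.mul_sum, hC]
        have hcard : ((Q.card : ℕ) : ℝ) = (Rg.card : ℝ) * K := by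
          rw [hQ, Finset.card_product]
          simp
        rw [hcard]
        have hms : ms (Dst D γ 1 ∩ Cls L) ((N1 : ℝ) / A) (A * N2) =
            ∑ v ∈ P, 1 / ((ht v : ℕ) : ℝ) ^ 2 := by
          unfold ms
          exact Finset.sum_congr (by ext v; simp only [hP, Finset.mem_filter]) (fun _ _ => rfl)
        rw [hms]
        ring
    _ ≤ A * ms (Dst D γ 1 ∩ Cls L) ((N1 : ℝ) / A) (A * N2) :=
        mul_le_mul_of_nonneg_right hAC (ms_nonneg _ _ _)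

end Pool.Agent.CQG
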