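import Pool.Agent.CQG.Cdf

set_option autoImplicit false

/-!
# Module Lft (size 4): from primitive vectors to all vectors

Compare `trf` in `Pool/Agent/CQF/Trf.lean`. Choose for every primitive `w ∈ X0` a number `m = m(w) ∈ [1, M]` and one of the two branches;
`v = m w` or `v = (m w) S`. With `B ≥ 1` a bound for the entries of `S`: `ht v ≤ 2 B M ht w`, and `ht w ≤ 2 B ht v` (for the second branch
`det S • (m w) = v adj S`, `|det S| ≥ 1`). For given `v`, `m` and branch, `w` is determined; so the map has fibres of at most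
`2 M` elements, and `ms X0 N1 N2 ≤ 2 M (2 B M)² msA E (N1/(2 B M)) (2 B M N2)`. (It is convenient to write `ms X0 ≤ ∑_{m ≤ M} (∑ over w
with m w ∈ E) + ∑_{m ≤ M} (∑ over w with (m w) S ∈ E)` and to use injectivity in each sum.)
-/

open Matrix Pool.Agent.CQF

namespace Pool.Agent.CQG

private theorem Lft_ht_vecMul (g : M2) (v : Fin 2 → ℤ) :
    ht (v ᵥ* g) ≤ (1 + (g 0 0).natAbs + (g 0 1).natAbs + (g 1 0).natAbs + (g 1 1).natAbs) * ht v := by
  have h2 : (v 0).natAbs ≤ ht v := le_max_left _ _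
  have h3 : (v 1).natAbs ≤ ht v := le_max_right _ _
  have key : ∀ j, ((v ᵥ* g) j).natAbs ≤ ((g 0 j).natAbs + (g 1 j).natAbs) * ht v := by
    intro j
    have e : (v ᵥ* g) j = v 0 * g 0 j + v 1 * g 1 j := by
      simp [Matrix.vecMul, dotProduct, Fin.sum_univ_two]
    rw [e]
    refine (Int.natAbs_add_le _ _).trans ?_
    rw [Int.natAbs_mul, Int.natAbs_mul, add_mul, mul_comm (g 0 j).natAbs, mul_comm (g 1 j).natAbs]
    exact add_le_add (Nat.mul_le_mul_right _ h2) (Nat.mul_le_mul_right _ h3)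
  have k0 := key 0
  have k1 := key 1
  have hh : ht (v ᵥ* g) = max ((v ᵥ* g) 0).natAbs ((v ᵥ* g) 1).natAbs := rfl
  rw [hh]
  refine max_le (k0.trans ?_) (k1.trans ?_)
  · exact Nat.mul_le_mul_right _ (by omega)
  · exact Nat.mul_le_mul_right _ (by omega)

private theorem Lft_ht_smul (c : ℤ) (v : Fin 2 → ℤ) : ht (c • v) = c.natAbs * ht v := by
  unfold ht
  simp only [Pi.smul_apply, smul_eq_mul, Int.natAbs_mul]
  exact (Nat.mul_max_mul_left _ _ _)

private theorem Lft_ht_pos {v : Fin 2 → ℤ} (hv : v ≠ 0) : 0 < ht v := by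
  by_contra h
  have h0 : ht v = 0 := by omega
  have h2 : (v 0).natAbs ≤ ht v := le_max_left _ _
  have h3 : (v 1).natAbs ≤ ht v := le_max_right _ _
  apply hv
  funext i
  fin_cases i
  · simp only [Fin.zero_eta, Fin.isValue, Pi.zero_apply]
    omega
  · simp only [Fin.mk_one, Fin.isValue, Pi.zero_apply]
    omega

private theorem Lft_mem_pv {N1 N2 : ℝ} {v : Fin 2 → ℤ} (h : v ∈ pv N1 N2) :
    Prm v ∧ N1 ≤ (ht v : ℝ) ∧ (ht v : ℝ) ≤ N2 := by
  classical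
  unfold pv at h
  rw [Finset.mem_filter] at h
  exact h.2

private theorem Lft_box {N2 : ℝ} {v : Fin 2 → ℤ} (h : (ht v : ℝ) ≤ N2) :
    v ∈ (Fintype.piFinset fun _ : Fin 2 => Finset.Icc (-(⌊N2⌋₊ : ℤ)) (⌊N2⌋₊ : ℤ)) := by
  rw [Fintype.mem_piFinset]
  have h1 : ht v ≤ ⌊N2⌋₊ := Nat.le_floor h
  have h2 : (v 0).natAbs ≤ ht v := le_max_left _ _
  have h3 : (v 1).natAbs ≤ ht v := le_max_right _ _
  intro i
  rw [Finset.mem_Icc]
  fin_cases i
  · simp only [Fin.zero_eta, Fin.isValue]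
    omega
  · simp only [Fin.mk_one, Fin.isValue]
    omega

theorem ms_le_msA (M : ℕ) (hM : 1 ≤ M) (S : M2) (hS : S.det ≠ 0) :
    ∃ A : ℝ, 1 ≤ A ∧ ∀ X0 E : Set (Fin 2 → ℤ),
      (∀ w : Fin 2 → ℤ, Prm w → w ∈ X0 → ∃ m : ℕ, 1 ≤ m ∧ m ≤ M ∧
        ((m : ℤ) • w ∈ E ∨ ((m : ℤ) • w) ᵥ* S ∈ E)) →
      ∀ N1 N2 : ℝ, 1 ≤ N1 → N1 ≤ N2 → ms X0 N1 N2 ≤ A * msA E (N1 / A) (A * N2) := by
  classical
  obtain ⟨B, hB⟩ : ∃ B : ℕ, B = 1 + (S 0 0).natAbs + (S 0 1).natAbs + (S 1 0).natAbs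
    + (S 1 1).natAbs := ⟨_, rfl⟩
  have hB1 : 1 ≤ B := by omega
  have hle : ∀ v, ht (v ᵥ* S) ≤ B * ht v := by
    intro v
    rw [hB]
    exact Lft_ht_vecMul S v
  have hge : ∀ v, ht v ≤ B * ht (v ᵥ* S) := by
    intro v
    have e1 : S.det • v = (v ᵥ* S) ᵥ* S.adjugate := by
      rw [Matrix.vecMul_vecMul, Matrix.mul_adjugate, Matrix.vecMul_smul, Matrix.vecMul_one]
    have e2 := congrArg ht e1
    rw [Lft_ht_smul] at e2
    have e3 := Lft_ht_vecMul S.adjugate (v ᵥ* S)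
    have e4 : 1 + (S.adjugate 0 0).natAbs + (S.adjugate 0 1).natAbs + (S.adjugate 1 0).natAbs
        + (S.adjugate 1 1).natAbs = B := by
      rw [Matrix.adjugate_fin_two, hB]
      simp
      omega
    rw [e4, ← e2] at e3
    have hd : 1 ≤ S.det.natAbs := by omega
    calc ht v = 1 * ht v := (one_mul _).symm
      _ ≤ S.det.natAbs * ht v := Nat.mul_le_mul_right _ hd
      _ ≤ _ := e3
  have hinjS : ∀ v v' : Fin 2 → ℤ, v ᵥ* S = v' ᵥ* S → v = v' := by
    intro v v' h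
    by_contra hne
    apply vecMul_ne hS (sub_ne_zero.2 hne)
    rw [Matrix.sub_vecMul, h, sub_self]
  have hB1' : (1 : ℝ) ≤ B := by exact_mod_cast hB1
  have hM' : (1 : ℝ) ≤ M := by exact_mod_cast hM
  have hBM : (1 : ℝ) ≤ (B : ℝ) * M := by nlinarith
  set A : ℝ := 2 * M * ((B : ℝ) * M) ^ 2 with hA
  have hBM2 : (B : ℝ) * M ≤ ((B : ℝ) * M) ^ 2 := by nlinarith
  have hA2 : ((B : ℝ) * M) ^ 2 ≤ A := by
    rw [hA]
    nlinarith [sq_nonneg ((B : ℝ) * M)]
  have hBMA : (B : ℝ) * M ≤ A := hBM2.trans hA2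
  have hBA : (B : ℝ) ≤ A := by
    refine le_trans ?_ hBMA
    nlinarith
  have hA1 : 1 ≤ A := hBM.trans hBMA
  have hA0 : 0 < A := by linarith
  refine ⟨A, hA1, ?_⟩
  intro X0 E hXE N1 N2 hN1 hN12
  have hex : ∀ w : Fin 2 → ℤ, ∃ (m : ℕ) (b : Bool) (v : Fin 2 → ℤ), Prm w → w ∈ X0 →
      1 ≤ m ∧ m ≤ M ∧ v ∈ E ∧ v = (if b then ((m : ℤ) • w) ᵥ* S else (m : ℤ) • w) := by
    intro w
    by_cases hw : Prm w ∧ w ∈ X0
    · obtain ⟨m, h1, h2, h3⟩ := hXE w hw.1 hw.2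
      rcases h3 with h3 | h3
      · exact ⟨m, false, _, fun _ _ => ⟨h1, h2, h3, by simp⟩⟩
      · exact ⟨m, true, _, fun _ _ => ⟨h1, h2, h3, by simp⟩⟩
    · exact ⟨0, false, 0, fun h1 h2 => absurd ⟨h1, h2⟩ hw⟩
  choose μ β ν hν using hex
  -- heights
  have hne : ∀ w, Prm w → w ∈ X0 → ν w ≠ 0 := by
    intro w hw hx h0
    obtain ⟨h1, h2, h3, h4⟩ := hν w hw hx
    have hm : ((μ w : ℤ)) ≠ 0 := by omega
    have hmw : (μ w : ℤ) • w ≠ 0 := smul_ne_zero hm (prm_ne hw)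
    rw [h0] at h4
    split_ifs at h4
    · exact vecMul_ne hS hmw h4.symm
    · exact hmw h4.symm
  have hup : ∀ w, Prm w → w ∈ X0 → ht (ν w) ≤ B * M * ht w := by
    intro w hw hx
    obtain ⟨h1, h2, h3, h4⟩ := hν w hw hx
    have h5 : ht ((μ w : ℤ) • w) ≤ M * ht w := by
      rw [Lft_ht_smul, Int.natAbs_natCast]
      exact Nat.mul_le_mul_right _ h2
    rw [h4]
    split_ifs
    · calc _ ≤ B * ht ((μ w : ℤ) • w) := hle _
        _ ≤ B * (M * ht w) := Nat.mul_le_mul_left _ h5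
        _ = B * M * ht w := by ring
    · calc _ ≤ M * ht w := h5
        _ = 1 * (M * ht w) := (one_mul _).symm
        _ ≤ B * (M * ht w) := Nat.mul_le_mul_right _ hB1
        _ = B * M * ht w := by ring
  have hlo : ∀ w, Prm w → w ∈ X0 → ht w ≤ B * ht (ν w) := by
    intro w hw hx
    obtain ⟨h1, h2, h3, h4⟩ := hν w hw hx
    have h5 : ht w ≤ ht ((μ w : ℤ) • w) := by
      rw [Lft_ht_smul, Int.natAbs_natCast]
      exact Nat.le_mul_of_pos_left _ h1
    rw [h4]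
    split_ifs
    · exact h5.trans (hge _)
    · exact h5.trans (Nat.le_mul_of_pos_left _ hB1)
  set W := (pv N1 N2).filter (fun w => w ∈ X0) with hW
  set V := (Fintype.piFinset fun _ : Fin 2 => Finset.Icc (-(⌊A * N2⌋₊ : ℤ))
    (⌊A * N2⌋₊ : ℤ)).filter (fun v => v ∈ E ∧ v ≠ 0 ∧ N1 / A ≤ (ht v : ℝ) ∧
      (ht v : ℝ) ≤ A * N2) with hV
  have hWm : ∀ w ∈ W, Prm w ∧ w ∈ X0 ∧ N1 ≤ (ht w : ℝ) ∧ (ht w : ℝ) ≤ N2 := by
    intro w hw
    rw [hW, Finset.mem_filter] at hw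
    obtain ⟨h1, h2, h3⟩ := Lft_mem_pv hw.1
    exact ⟨h1, hw.2, h2, h3⟩
  have hVm : ∀ w ∈ W, ν w ∈ V := by
    intro w hw
    obtain ⟨hp, hx, ha, hb⟩ := hWm w hw
    have q1 : (ht (ν w) : ℝ) ≤ B * M * ht w := by exact_mod_cast hup w hp hx
    have q2 : (ht w : ℝ) ≤ B * ht (ν w) := by exact_mod_cast hlo w hp hx
    have q3 : (0 : ℝ) ≤ ht (ν w) := by positivity
    have q4 : (0 : ℝ) ≤ ht w := by positivity
    have hup' : (ht (ν w) : ℝ) ≤ A * N2 := by
      calc (ht (ν w) : ℝ) ≤ B * M * ht w := q1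
        _ ≤ A * ht w := mul_le_mul_of_nonneg_right hBMA q4
        _ ≤ A * N2 := mul_le_mul_of_nonneg_left hb hA0.le
    rw [hV, Finset.mem_filter]
    refine ⟨Lft_box hup', (hν w hp hx).2.2.1, hne w hp hx, ?_, hup'⟩
    rw [div_le_iff₀ hA0]
    calc N1 ≤ ht w := ha
      _ ≤ B * ht (ν w) := q2
      _ ≤ A * ht (ν w) := mul_le_mul_of_nonneg_right hBA q3
      _ = ht (ν w) * A := mul_comm _ _
  set g : (Fin 2 → ℤ) → ℝ := fun v => 1 / (ht v : ℝ) ^ 2 with hg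
  have hinj : ∀ w ∈ W, ∀ w' ∈ W, ((μ w, β w), ν w) = ((μ w', β w'), ν w') → w = w' := by
    intro w hw w' hw' e
    obtain ⟨hp, hx, _, _⟩ := hWm w hw
    obtain ⟨hp', hx', _, _⟩ := hWm w' hw'
    obtain ⟨a1, a2, a3, a4⟩ := hν w hp hx
    obtain ⟨b1, b2, b3, b4⟩ := hν w' hp' hx'
    simp only [Prod.mk.injEq] at e
    obtain ⟨⟨e1, e2⟩, e3⟩ := e
    rw [e3, e1, e2] at a4
    have hm : ((μ w' : ℤ)) ≠ 0 := by omega
    have key : (μ w' : ℤ) • w = (μ w' : ℤ) • w' := by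
      rw [b4] at a4
      split_ifs at a4
      · exact (hinjS _ _ a4).symm
      · exact a4.symm
    exact smul_right_injective _ hm key
  calc ms X0 N1 N2 = ∑ w ∈ W, g w := by
        unfold ms
        rfl
    _ ≤ ∑ w ∈ W, ((B : ℝ) * M) ^ 2 * g (ν w) := by
        refine Finset.sum_le_sum fun w hw => ?_
        obtain ⟨hp, hx, ha, hb⟩ := hWm w hw
        have q1 : (ht (ν w) : ℝ) ≤ B * M * ht w := by exact_mod_cast hup w hp hx
        have p1 : (0 : ℝ) < ht w := by exact_mod_cast Lft_ht_pos (prm_ne hp)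
        have p2 : (0 : ℝ) < ht (ν w) := by exact_mod_cast Lft_ht_pos (hne w hp hx)
        rw [hg]
        simp only
        rw [mul_one_div, div_le_div_iff₀ (by positivity) (by positivity), one_mul, ← mul_pow]
        exact pow_le_pow_left₀ p2.le q1 2
    _ = ((B : ℝ) * M) ^ 2 * ∑ t ∈ W.image (fun w => ((μ w, β w), ν w)), g t.2 := by
        rw [← Finset.mul_sum, Finset.sum_image]
        intro w hw w' hw' e
        exact hinj w hw w' hw' e
    _ ≤ ((B : ℝ) * M) ^ 2 * ∑ t ∈ (Finset.Icc 1 M ×ˢ (Finset.univ : Finset Bool)) ×ˢ V, g t.2 := by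
        refine mul_le_mul_of_nonneg_left ?_ (by positivity)
        refine Finset.sum_le_sum_of_subset_of_nonneg ?_ (fun t _ _ => by
          rw [hg]
          positivity)
        intro t ht'
        rw [Finset.mem_image] at ht'
        obtain ⟨w, hw, rfl⟩ := ht'
        obtain ⟨hp, hx, _, _⟩ := hWm w hw
        obtain ⟨a1, a2, _, _⟩ := hν w hp hx
        simp only [Finset.mem_product, Finset.mem_Icc, Finset.mem_univ, and_true]
        exact ⟨⟨a1, a2⟩, hVm w hw⟩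
    _ = A * ∑ v ∈ V, g v := by
        rw [Finset.sum_product]
        simp only [Finset.sum_const, Finset.card_product, Nat.card_Icc, Finset.card_univ,
          Fintype.card_bool, nsmul_eq_mul]
        rw [hA, Nat.add_sub_cancel]
        push_cast
        ring
    _ = A * msA E (N1 / A) (A * N2) := by
        unfold msA
        rfl

end Pool.Agent.CQG
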