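import Pool.Agent.CQG.Cdf

set_option autoImplicit false

/-!
# Module Lif (size 3): classes modulo `N`

* `gen_class`: `d = gcd(r, s, N)`, `N = N' d`, `r = d r0`, `s = d s0`, `gcd(r0, s0, N') = 1`. There are coprime `r' ≡ r0`, `s' ≡ s0` mod `N'`
  (if `s0 = 0` replace it by `N'`; then `s' = s0 ≠ 0` and `r' = r0 + N' t` with `t` the product of the primes dividing `s'` but not `r0`;
  a prime dividing `s'` and `r0` does not divide `N'`).
* `exists_mult`: `w ≡ u (r', s')` mod `N'`, `u` coprime to `N'`: choose `m' ∈ [1, N']` with `m' u ≡ 1` mod `N'`; `m = d m'`: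
  `m w ≡ d (r', s') ≡ (r, s)` mod `N`.
-/

open Matrix Pool.Agent.CQF

namespace Pool.Agent.CQG

private theorem Lif_lift (r0 s' N' : ℤ) (hs : s' ≠ 0)
    (h : IsCoprime ((Int.gcd N' s' : ℕ) : ℤ) r0) : ∃ t : ℤ, IsCoprime (r0 + N' * t) s' := by
  have hM : s'.natAbs ≠ 0 := Int.natAbs_ne_zero.mpr hs
  have : NeZero s'.natAbs := ⟨hM⟩
  have hg : Int.gcd N' s' ∣ s'.natAbs := Nat.gcd_dvd_right _ _
  have hu : IsUnit ((r0 : ℤ) : ZMod (Int.gcd N' s')) :=
    (ZMod.coe_int_isUnit_iff_isCoprime r0 _).mpr h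
  obtain ⟨v, hv⟩ := ZMod.unitsMap_surjective hg hu.unit
  obtain ⟨r1, hr1⟩ := ZMod.intCast_surjective (v : ZMod s'.natAbs)
  have h1 : IsCoprime (s'.natAbs : ℤ) r1 := by
    rw [← ZMod.coe_int_isUnit_iff_isCoprime, hr1]
    exact v.isUnit
  have h2 : ((Int.gcd N' s' : ℕ) : ℤ) ∣ r1 - r0 := by
    rw [← ZMod.intCast_eq_intCast_iff_dvd_sub]
    have h3 := congrArg (fun x : (ZMod (Int.gcd N' s'))ˣ => (x : ZMod (Int.gcd N' s'))) hv
    simp only [ZMod.unitsMap_val, IsUnit.unit_spec] at h3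
    rw [← h3, ← hr1, ZMod.cast_intCast hg]
  obtain ⟨k, hk⟩ := h2
  have hb := Int.gcd_eq_gcd_ab N' s'
  refine ⟨Int.gcdA N' s' * k, ?_⟩
  have h4 : r0 + N' * (Int.gcdA N' s' * k) = r1 + s' * (-(Int.gcdB N' s' * k)) := by
    have : r1 = r0 + (N' * Int.gcdA N' s' + s' * Int.gcdB N' s') * k := by
      rw [← hb]
      linarith
    rw [this]
    ring
  rw [h4]
  have h5 : IsCoprime r1 s' := by
    have := Int.isCoprime_iff_gcd_eq_one.mp h1
    rw [Int.isCoprime_iff_gcd_eq_one, Int.gcd_comm]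
    simpa [Int.gcd, Int.natAbs_abs] using this
  exact IsCoprime.add_mul_left_left h5 _

theorem gen_class (N : ℕ) (hN : 1 ≤ N) (r s : ℤ) : ∃ (N' d : ℕ) (r' s' : ℤ), 1 ≤ N' ∧ 1 ≤ d ∧
    N = N' * d ∧ IsCoprime r' s' ∧ (N : ℤ) ∣ d * r' - r ∧ (N : ℤ) ∣ d * s' - s := by
  set d : ℕ := Nat.gcd (Int.gcd r s) N with hd
  have hdpos : 0 < d := Nat.gcd_pos_of_pos_right _ (by omega)
  obtain ⟨N', hN'⟩ : d ∣ N := Nat.gcd_dvd_right _ _
  have hdrs : d ∣ Int.gcd r s := Nat.gcd_dvd_left _ _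
  have hdr : (d : ℤ) ∣ r := (Int.natCast_dvd_natCast.mpr hdrs).trans (Int.gcd_dvd_left _ _)
  have hds : (d : ℤ) ∣ s := (Int.natCast_dvd_natCast.mpr hdrs).trans (Int.gcd_dvd_right _ _)
  obtain ⟨r0, hr0⟩ := hdr
  obtain ⟨s0, hs0⟩ := hds
  have hN'pos : 1 ≤ N' := by
    rcases Nat.eq_zero_or_pos N' with h | h
    · subst h; omega
    · exact h
  -- the three numbers have no common factor
  have hcop : Nat.gcd (Int.gcd r0 s0) N' = 1 := by
    have h1 : Int.gcd r s = d * Int.gcd r0 s0 := by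
      rw [hr0, hs0, Int.gcd_mul_left, Int.natAbs_natCast]
    have h2 : d = d * Nat.gcd (Int.gcd r0 s0) N' := by
      conv_lhs => rw [hd, h1, hN', Nat.gcd_mul_left]
    exact Nat.eq_of_mul_eq_mul_left hdpos (by rw [mul_one]; exact h2.symm)
  set s' : ℤ := if s0 = 0 then (N' : ℤ) else s0 with hs'
  have hs'0 : s' ≠ 0 := by
    rw [hs']
    split_ifs with h
    · exact_mod_cast (by omega : N' ≠ 0)
    · exact h
  have hs'1 : (N' : ℤ) ∣ s' - s0 := by
    rw [hs']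
    split_ifs with h
    · rw [h]; simp
    · simp
  have hc2 : IsCoprime ((Int.gcd (N' : ℤ) s' : ℕ) : ℤ) r0 := by
    rw [Int.isCoprime_iff_gcd_eq_one]
    change Nat.gcd (Int.natAbs ((Int.gcd (N' : ℤ) s' : ℕ) : ℤ)) r0.natAbs = 1
    rw [Int.natAbs_natCast, ← Nat.dvd_one, ← hcop]
    set e := Nat.gcd (Int.gcd (N' : ℤ) s') r0.natAbs with he
    have e1 : e ∣ Int.gcd (N' : ℤ) s' := Nat.gcd_dvd_left _ _
    have e2 : e ∣ r0.natAbs := Nat.gcd_dvd_right _ _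
    have e3 : (e : ℤ) ∣ (N' : ℤ) := (Int.natCast_dvd_natCast.mpr e1).trans (Int.gcd_dvd_left _ _)
    have e4 : (e : ℤ) ∣ s' := (Int.natCast_dvd_natCast.mpr e1).trans (Int.gcd_dvd_right _ _)
    have e5 : (e : ℤ) ∣ s0 := by
      have := dvd_sub e4 (e3.trans hs'1)
      simpa using this
    exact Nat.dvd_gcd (Int.dvd_gcd (Int.natCast_dvd.mpr e2) e5) (by exact_mod_cast e3)
  obtain ⟨t, ht⟩ := Lif_lift r0 s' N' hs'0 hc2
  refine ⟨N', d, r0 + N' * t, s', hN'pos, hdpos, by rw [hN', mul_comm], ht, ?_, ?_⟩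
  · refine ⟨t, ?_⟩
    rw [hr0]
    conv_rhs => rw [hN']
    push_cast
    ring
  · obtain ⟨k, hk⟩ := hs'1
    refine ⟨k, ?_⟩
    conv_rhs => rw [hN']
    rw [hs0]
    push_cast
    have : s' = s0 + N' * k := by linarith
    rw [this]
    ring

theorem exists_mult {N N' d : ℕ} {r s r' s' : ℤ} (hN' : 1 ≤ N') (hd : 1 ≤ d) (hN : N = N' * d)
    (hr : (N : ℤ) ∣ d * r' - r) (hs : (N : ℤ) ∣ d * s' - s) {w : Fin 2 → ℤ} {u : ℤ}
    (hu : IsCoprime u (N' : ℤ)) (h0 : (N' : ℤ) ∣ w 0 - u * r') (h1 : (N' : ℤ) ∣ w 1 - u * s') :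
    ∃ m : ℕ, 1 ≤ m ∧ m ≤ N ∧ (N : ℤ) ∣ m * w 0 - r ∧ (N : ℤ) ∣ m * w 1 - s := by
  obtain ⟨a, b, hab⟩ := hu
  have hNpos : (0 : ℤ) < (N' : ℤ) := by exact_mod_cast (by omega : 0 < N')
  set k : ℤ := (a - 1) % (N' : ℤ) with hk
  have hk0 : 0 ≤ k := Int.emod_nonneg _ hNpos.ne'
  have hk1 : k < N' := Int.emod_lt_of_pos _ hNpos
  obtain ⟨m', hm'⟩ := Int.eq_ofNat_of_zero_le hk0
  have hm1 : (N' : ℤ) ∣ ((m' + 1 : ℕ) : ℤ) - a := by
    refine ⟨-((a - 1) / (N' : ℤ)), ?_⟩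
    have h1 := Int.emod_add_mul_ediv (a - 1) (N' : ℤ)
    push_cast
    rw [← hk] at h1
    have h2 : (m' : ℤ) = k := hm'.symm
    rw [h2]
    linarith
  have hm2 : m' + 1 ≤ N' := by
    have : (m' : ℤ) < N' := by
      have h2 : (m' : ℤ) = k := hm'.symm
      rw [h2]; exact hk1
    have : m' < N' := by exact_mod_cast this
    omega
  have key : ∀ (x y z : ℤ), (N : ℤ) ∣ d * y - z → (N' : ℤ) ∣ x - u * y →
      (N : ℤ) ∣ ((d * (m' + 1) : ℕ) : ℤ) * x - z := by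
    intro x y z hz hx
    obtain ⟨p, hp⟩ := hx
    obtain ⟨q, hq⟩ := hm1
    have h1 : ((d * (m' + 1) : ℕ) : ℤ) * x - z =
        d * (((m' + 1 : ℕ) : ℤ) * x - y) + (d * y - z) := by
      push_cast
      ring
    rw [h1]
    refine dvd_add ?_ hz
    have h2 : ((m' + 1 : ℕ) : ℤ) = a + N' * q := by linarith
    have h3 : x = u * y + N' * p := by linarith
    refine ⟨a * p + q * x - b * y, ?_⟩
    rw [hN]
    push_cast at h2 ⊢
    rw [h2]
    have h4 : (a + N' * q) * x - y = N' * (a * p + q * x - b * y) := by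
      have h5 : a * u * y + b * N' * y = y := by
        have := congrArg (fun v => v * y) hab
        simp only [one_mul] at this
        linarith
      calc (a + N' * q) * x - y = a * x + N' * q * x - y := by ring
        _ = a * (u * y + N' * p) + N' * q * x - (a * u * y + b * N' * y) := by
            rw [← h3, h5]
        _ = N' * (a * p + q * x - b * y) := by ring
    rw [h4]
    ring
  refine ⟨d * (m' + 1), ?_, ?_, key _ _ _ hr h0, key _ _ _ hs h1⟩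
  · exact Nat.mul_pos hd (Nat.succ_pos _)
  · rw [hN, mul_comm]
    exact Nat.mul_le_mul_right _ hm2

end Pool.Agent.CQG
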