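import Pool.Agent.CQG.Cdf

set_option autoImplicit false

/-!
# Module Zro (size 3): the zeros of a polynomial have small logarithmic mass

Number of zeros of `P` in the box `[-n, n]²`: at most `deg P * (2 n + 1)` (`MvPolynomial.schwartz_zippel_totalDegree`; see
`Pool/Agent/BQF/Zer.lean` on main, which gives exactly this). Dyadic decomposition: the vectors with
`2^j N1 ≤ ht v < 2^(j+1) N1` contribute at most `3 deg P 2^(j+1) N1/(2^j N1)² = 6 deg P/(2^j N1)`. Sum over `j`: `≤ 12 deg P/N1`.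
(Or Abel summation.)
-/

open Matrix Pool.Agent.CQF

namespace Pool.Agent.CQG

private theorem Zro_cnt (P : MvPolynomial (Fin 2) ℤ) (hP : P ≠ 0) (X : ℕ) (hX : 1 ≤ X) :
    ((Fintype.piFinset fun _ : Fin 2 => Finset.Icc (-(X : ℤ)) X).filter
      (fun f => MvPolynomial.eval f P = 0)).card ≤ 3 * P.totalDegree * X := by
  obtain ⟨S, hS⟩ : ∃ S : Finset ℤ, S = Finset.Icc (-(X : ℤ)) X := ⟨_, rfl⟩
  have hSc : S.card = 2 * X + 1 := by
    rw [hS, Int.card_Icc]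
    omega
  rw [← hS]
  have h1 := MvPolynomial.schwartz_zippel_totalDegree hP S
  have hS0 : (0 : ℚ≥0) < (S.card : ℚ≥0) := by
    rw [hSc]; positivity
  have h2 : ((((Fintype.piFinset fun _ : Fin 2 => S).filter
      (fun f => MvPolynomial.eval f P = 0)).card : ℕ) : ℚ≥0) ≤ P.totalDegree * S.card := by
    rw [div_le_div_iff₀ (by positivity) hS0] at h1
    have h3 : ((((Fintype.piFinset fun _ : Fin 2 => S).filter
      (fun f => MvPolynomial.eval f P = 0)).card : ℕ) : ℚ≥0) * S.card ≤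
      (P.totalDegree * S.card) * S.card := by
      refine h1.trans (le_of_eq ?_)
      ring
    exact le_of_mul_le_mul_right h3 hS0
  have h3 : ((Fintype.piFinset fun _ : Fin 2 => S).filter
      (fun f => MvPolynomial.eval f P = 0)).card ≤ P.totalDegree * S.card := by
    exact_mod_cast h2
  refine h3.trans ?_
  rw [hSc]
  calc P.totalDegree * (2 * X + 1) ≤ P.totalDegree * (3 * X) :=
        Nat.mul_le_mul_left _ (by omega)
    _ = 3 * P.totalDegree * X := by ring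

private theorem Zro_key (P : MvPolynomial (Fin 2) ℤ) (hP : P ≠ 0) (N1 N2 : ℝ) (hN1 : 1 ≤ N1)
    (S : Finset (Fin 2 → ℤ))
    (hmem : ∀ v ∈ S, MvPolynomial.eval v P = 0 ∧ N1 ≤ (ht v : ℝ) ∧ (ht v : ℝ) ≤ N2) :
    ∑ v ∈ S, 1 / (ht v : ℝ) ^ 2 ≤ 24 * (P.totalDegree : ℝ) / N1 := by
  have hpos : ∀ v ∈ S, ht v ≠ 0 := by
    intro v hv h0
    have h1 := (hmem v hv).2.1
    rw [h0, Nat.cast_zero] at h1
    linarith
  have hfl1 : ⌊N1⌋₊ ≠ 0 := by
    have : 1 ≤ ⌊N1⌋₊ := Nat.le_floor (by exact_mod_cast hN1)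
    omega
  have hmaps : ∀ v ∈ S, Nat.log 2 (ht v) ∈
      Finset.Ico (Nat.log 2 ⌊N1⌋₊) (Nat.log 2 ⌊N2⌋₊ + 1) := by
    intro v hv
    obtain ⟨-, h1, h2⟩ := hmem v hv
    rw [Finset.mem_Ico]
    refine ⟨Nat.log_mono_right ?_, Nat.lt_succ_of_le (Nat.log_mono_right ?_)⟩
    · have h3 : ((⌊N1⌋₊ : ℕ) : ℝ) ≤ (ht v : ℝ) := (Nat.floor_le (by linarith)).trans h1
      exact_mod_cast h3
    · exact Nat.le_floor h2
  rw [← Finset.sum_fiberwise_of_maps_to hmaps]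
  have hfib : ∀ j ∈ Finset.Ico (Nat.log 2 ⌊N1⌋₊) (Nat.log 2 ⌊N2⌋₊ + 1),
      ∑ v ∈ S.filter (fun v => Nat.log 2 (ht v) = j), 1 / (ht v : ℝ) ^ 2 ≤
        6 * P.totalDegree * (1 / 2 : ℝ) ^ j := by
    intro j _
    have h1 : ∀ v ∈ S.filter (fun v => Nat.log 2 (ht v) = j),
        1 / (ht v : ℝ) ^ 2 ≤ 1 / ((2 : ℝ) ^ j) ^ 2 := by
      intro v hv
      rw [Finset.mem_filter] at hv
      have h2 : 2 ^ j ≤ ht v := by
        rw [← hv.2]
        exact Nat.pow_log_le_self 2 (hpos v hv.1)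
      have h3 : (2 : ℝ) ^ j ≤ (ht v : ℝ) := by exact_mod_cast h2
      have h4 : (0 : ℝ) < 2 ^ j := by positivity
      exact one_div_le_one_div_of_le (by positivity) (by gcongr)
    have hcard : (S.filter (fun v => Nat.log 2 (ht v) = j)).card ≤
        3 * P.totalDegree * 2 ^ (j + 1) := by
      refine (Finset.card_le_card ?_).trans (Zro_cnt P hP (2 ^ (j + 1)) Nat.one_le_two_pow)
      intro v hv
      rw [Finset.mem_filter] at hv
      have h2 : ht v < 2 ^ (j + 1) := by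
        rw [← hv.2]
        exact Nat.lt_pow_succ_log_self (by norm_num) _
      rw [Finset.mem_filter, Fintype.mem_piFinset]
      refine ⟨fun i => ?_, (hmem v hv.1).1⟩
      rw [Finset.mem_Icc]
      have h3 : (v i).natAbs ≤ ht v := by
        unfold ht
        fin_cases i
        · exact le_max_left _ _
        · exact le_max_right _ _
      have h4 : (v i).natAbs ≤ 2 ^ (j + 1) := by omega
      constructor <;> omega
    have hcard' : (((S.filter (fun v => Nat.log 2 (ht v) = j)).card : ℕ) : ℝ) ≤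
        3 * P.totalDegree * 2 ^ (j + 1) := by exact_mod_cast hcard
    have h4 : (0 : ℝ) < 2 ^ j := by positivity
    calc ∑ v ∈ S.filter (fun v => Nat.log 2 (ht v) = j), 1 / (ht v : ℝ) ^ 2
        ≤ ∑ _v ∈ S.filter (fun v => Nat.log 2 (ht v) = j), 1 / ((2 : ℝ) ^ j) ^ 2 :=
          Finset.sum_le_sum h1
      _ = ((S.filter (fun v => Nat.log 2 (ht v) = j)).card : ℝ) * (1 / ((2 : ℝ) ^ j) ^ 2) := by
          rw [Finset.sum_const, nsmul_eq_mul]
      _ ≤ (3 * P.totalDegree * 2 ^ (j + 1)) * (1 / ((2 : ℝ) ^ j) ^ 2) :=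
          mul_le_mul_of_nonneg_right hcard' (by positivity)
      _ = 6 * P.totalDegree * (1 / 2 : ℝ) ^ j := by
          rw [_root_.one_div_pow, pow_succ]
          field_simp
          ring
  refine (Finset.sum_le_sum hfib).trans ?_
  rw [← Finset.mul_sum]
  have hg := geom_sum_Ico_le_of_lt_one (x := (1 / 2 : ℝ)) (m := Nat.log 2 ⌊N1⌋₊)
    (n := Nat.log 2 ⌊N2⌋₊ + 1) (by norm_num) (by norm_num)
  have hlow : (1 / 2 : ℝ) ^ (Nat.log 2 ⌊N1⌋₊) ≤ 2 / N1 := by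
    have h2 : ⌊N1⌋₊ < 2 ^ (Nat.log 2 ⌊N1⌋₊ + 1) := Nat.lt_pow_succ_log_self (by norm_num) _
    have h3 : N1 < (2 : ℝ) ^ (Nat.log 2 ⌊N1⌋₊ + 1) := by
      have h4 := (Nat.floor_lt (by linarith)).1 h2
      exact_mod_cast h4
    rw [_root_.one_div_pow, div_le_div_iff₀ (by positivity) (by linarith), one_mul]
    rw [pow_succ] at h3
    linarith
  calc 6 * (P.totalDegree : ℝ) * ∑ i ∈ Finset.Ico (Nat.log 2 ⌊N1⌋₊) (Nat.log 2 ⌊N2⌋₊ + 1),
        (1 / 2 : ℝ) ^ i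
      ≤ 6 * (P.totalDegree : ℝ) * (2 * (2 / N1)) := by
        refine mul_le_mul_of_nonneg_left (hg.trans ?_) (by positivity)
        rw [div_le_iff₀ (by norm_num)]
        linarith
    _ = 24 * (P.totalDegree : ℝ) / N1 := by ring

open Classical in
private theorem Zro_msA (E : Set (Fin 2 → ℤ)) (N1 N2 B : ℝ)
    (h : ∀ S : Finset (Fin 2 → ℤ), (∀ v ∈ S, v ∈ E ∧ N1 ≤ (ht v : ℝ) ∧ (ht v : ℝ) ≤ N2) →
      ∑ v ∈ S, 1 / (ht v : ℝ) ^ 2 ≤ B) : msA E N1 N2 ≤ B := by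
  unfold msA
  refine h _ ?_
  intro v hv
  rw [Finset.mem_filter] at hv
  exact ⟨hv.2.1, hv.2.2.2.1, hv.2.2.2.2⟩

theorem zer_mass (P : MvPolynomial (Fin 2) ℤ) (hP : P ≠ 0) : ∃ C : ℝ, 0 ≤ C ∧
    ∀ N1 N2 : ℝ, 1 ≤ N1 → msA {v | MvPolynomial.eval v P = 0} N1 N2 ≤ C / N1 := by
  refine ⟨24 * P.totalDegree, by positivity, fun N1 N2 hN1 => ?_⟩
  exact Zro_msA _ _ _ _ (fun S hS => Zro_key P hP N1 N2 hN1 S hS)

end Pool.Agent.CQG
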