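import Pool.Agent.CQG.Wn
import Pool.Agent.CQG.Lft
import Pool.Agent.CQG.Zro
import Pool.Agent.CQG.Lif

set_option autoImplicit false

/-!
# Module Fina (size 5): windows for `Q P` in a residue class

`G v = lam (Q v * P v)`. Let `e` be a sign; put `ε = -e` (so we count the failures of the value `ε`), `E = {v | v ≡ (r, s) mod N, G v ≠ ε}`.
`gen_class` gives `N', d, r', s'`.
* `P = Q2` quadratic (first case of `Cof`): `X0 = X0c a b c a2 b2 c2 ε r' s' N'`. For primitive `w ∈ X0`, `exists_mult` gives `m ≤ N` with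
  `m w ≡ (r, s)` mod `N`, and `G (m w) = lam (m⁴ Q(w) Q2(w)) = lam (Q(w) Q2(w)) ≠ ε`. `ms_le_msA` with `S = 1`.
* second case: `Q(v S) = qf a2 b2 c2 v` with `a2 = Q(S 0)`, `c2 = Q(S 1)` (rows of `S`), `b2 = 2 a S00 S10 + b (S00 S11 + S01 S10) + 2 c S01 S11`,
  discriminant `(det S)² (b² - 4ac)`, not a square; not proportional to `Q` (`a ≠ 0`; if `(a2, b2, c2)` is proportional to `(a, b, c)` then
  `Q(v S) = (a2/a) Q(v)`). `X0 = X0c a b c a2 b2 c2 (lam κ) r' s' N'`. For primitive `w ∈ X0` take `m` from `exists_mult`, `v = m w`; `v ≡ (r, s)` and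
  `v S ≡ (r, s) S ≡ (r, s)` mod `N`. If `v, v S ∉ E` then `lam (Q v P v) = ε = lam (Q(vS) P(vS)) = lam (Q(vS)) lam κ lam (P v)`, all factors are
  `±1` (`ε ≠ 0` so `P v ≠ 0`), so `lam (Q v * Q(vS)) = lam κ`, and `Q v Q(vS) = m⁴ Q(w) qf a2 b2 c2 w`: contradiction. So `v ∈ E` or `v S ∈ E`: `ms_le_msA`.
* `windowL` then gives, with constants, `c/loglog n ≤ A' msA E (n/A') (A' n (log n)^C)` for all large integers `n`.
* `E ⊆ Es a b c P N r s e ∪ {P = 0}` (`G v ≠ -e` and `P v ≠ 0`, `v ≠ 0` give `G v = e`), and `zer_mass` bounds the mass of the zeros by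
  `C' A'/n = o(1/loglog n)`. (`P ≠ 0` is a hypothesis.) So `c''/loglog n ≤ msA (Es ...) (n/A') (A' n (log n)^C)`.
* For real `X` large take `n = ⌈A' X⌉₊`: `n/A' ≥ X`, `A' n (log n)^C ≤ X (log X)^(C+1)`, `loglog n ≤ 2 loglog X`, and `msA` is monotone in the window.
-/

open Matrix Pool.Agent.CQF

namespace Pool.Agent.CQG

theorem Fina_mem {E : Set (Fin 2 → ℤ)} {N1 N2 : ℝ} {v : Fin 2 → ℤ}
    [DecidablePred fun v : Fin 2 → ℤ => v ∈ E ∧ v ≠ 0 ∧ N1 ≤ (ht v : ℝ) ∧ (ht v : ℝ) ≤ N2] :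
    v ∈ (Fintype.piFinset fun _ : Fin 2 => Finset.Icc (-(⌊N2⌋₊ : ℤ)) (⌊N2⌋₊ : ℤ)).filter
      (fun v => v ∈ E ∧ v ≠ 0 ∧ N1 ≤ (ht v : ℝ) ∧ (ht v : ℝ) ≤ N2) ↔
      v ∈ E ∧ v ≠ 0 ∧ N1 ≤ (ht v : ℝ) ∧ (ht v : ℝ) ≤ N2 := by
  rw [Finset.mem_filter]
  constructor
  · exact fun h => h.2
  · intro h
    refine ⟨?_, h⟩
    rw [Fintype.mem_piFinset]
    have h1 : ht v ≤ ⌊N2⌋₊ := Nat.le_floor h.2.2.2
    have h2 : (v 0).natAbs ≤ ht v := le_max_left _ _
    have h3 : (v 1).natAbs ≤ ht v := le_max_right _ _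
    intro i
    rw [Finset.mem_Icc]
    fin_cases i
    · simp only [Fin.zero_eta, Fin.isValue]
      omega
    · simp only [Fin.mk_one, Fin.isValue]
      omega

theorem msA_mono {E E' : Set (Fin 2 → ℤ)} (h : ∀ v, v ∈ E → v ∈ E') {N1 N2 M1 M2' : ℝ} (h1 : M1 ≤ N1)
    (h2 : N2 ≤ M2') : msA E N1 N2 ≤ msA E' M1 M2' := by
  classical
  unfold msA
  refine Finset.sum_le_sum_of_subset_of_nonneg ?_ (fun v _ _ => by positivity)
  intro v hv
  rw [Fina_mem] at hv ⊢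
  exact ⟨h v hv.1, hv.2.1, h1.trans hv.2.2.1, hv.2.2.2.trans h2⟩

theorem Fina_nonneg (E : Set (Fin 2 → ℤ)) (N1 N2 : ℝ) : 0 ≤ msA E N1 N2 := by
  unfold msA
  exact Finset.sum_nonneg fun v _ => by positivity

theorem Fina_union {X Y Z : Set (Fin 2 → ℤ)} (h : ∀ v, v ≠ 0 → v ∈ X → v ∈ Y ∨ v ∈ Z)
    (N1 N2 : ℝ) : msA X N1 N2 ≤ msA Y N1 N2 + msA Z N1 N2 := by
  classical
  unfold msA
  rw [← Finset.sum_union_inter]
  refine le_trans ?_ (le_add_of_nonneg_right (Finset.sum_nonneg fun v _ => by positivity))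
  refine Finset.sum_le_sum_of_subset_of_nonneg ?_ (fun v _ _ => by positivity)
  intro v hv
  rw [Fina_mem] at hv
  rw [Finset.mem_union, Fina_mem, Fina_mem]
  rcases h v hv.2.1 hv.1 with h' | h'
  · exact Or.inl ⟨h', hv.2⟩
  · exact Or.inr ⟨h', hv.2⟩

theorem Fina_smul (a b c m : ℤ) (w : Fin 2 → ℤ) : qf a b c (m • w) = m ^ 2 * qf a b c w := by
  simp only [qf, Pi.smul_apply, smul_eq_mul]
  ring

theorem Fina_aniso {a b c : ℤ} (hD : ¬ IsSquare (b ^ 2 - 4 * a * c)) {v : Fin 2 → ℤ} (hv : v ≠ 0) :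
    qf a b c v ≠ 0 := by
  intro h
  have ha : a ≠ 0 := by
    rintro rfl
    exact hD ⟨b, by ring⟩
  have h1 : (b ^ 2 - 4 * a * c) * v 1 ^ 2 = (2 * a * v 0 + b * v 1) ^ 2 := by
    unfold qf at h
    linear_combination (-4 * a) * h
  by_cases hv1 : v 1 = 0
  · rw [hv1] at h1
    have h2 : 2 * a * v 0 = 0 := by
      have : (2 * a * v 0) ^ 2 = 0 := by linear_combination -h1
      exact pow_eq_zero_iff (two_ne_zero) |>.1 this
    have h3 : v 0 = 0 := by
      rcases mul_eq_zero.1 h2 with h3 | h3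
      · exfalso
        omega
      · exact h3
    apply hv
    funext i
    fin_cases i
    · exact h3
    · exact hv1
  · have h2 : v 1 ^ 2 ∣ (2 * a * v 0 + b * v 1) ^ 2 := ⟨b ^ 2 - 4 * a * c, by rw [← h1]; ring⟩
    have h3 : v 1 ∣ 2 * a * v 0 + b * v 1 := (Int.pow_dvd_pow_iff two_ne_zero).1 h2
    obtain ⟨k, hk⟩ := h3
    rw [hk] at h1
    apply hD
    refine ⟨k, ?_⟩
    have h4 : v 1 ^ 2 * (b ^ 2 - 4 * a * c) = v 1 ^ 2 * (k * k) := by linear_combination h1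
    exact mul_left_cancel₀ (pow_ne_zero 2 hv1) h4

theorem Fina_nsq {D k : ℤ} (hk : k ≠ 0) (hD : ¬ IsSquare D) : ¬ IsSquare (k ^ 2 * D) := by
  rintro ⟨t, ht⟩
  have h2 : k ^ 2 ∣ t ^ 2 := ⟨D, by rw [ht]; ring⟩
  obtain ⟨j, hj⟩ := (Int.pow_dvd_pow_iff two_ne_zero).1 h2
  apply hD
  refine ⟨j, ?_⟩
  rw [hj] at ht
  have h4 : k ^ 2 * D = k ^ 2 * (j * j) := by rw [ht]; ring
  exact mul_left_cancel₀ (pow_ne_zero 2 hk) h4

/-- the failures of the value `ε` in the class -/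
def Fina_E (a b c : ℤ) (P : MvPolynomial (Fin 2) ℤ) (N : ℕ) (r s ε : ℤ) : Set (Fin 2 → ℤ) :=
  {v | (N : ℤ) ∣ v 0 - r ∧ (N : ℤ) ∣ v 1 - s ∧ lam (qf a b c v * MvPolynomial.eval v P) ≠ ε}

theorem Fina_stage {a b c : ℤ} (hD : ¬ IsSquare (b ^ 2 - 4 * a * c))
    (P : MvPolynomial (Fin 2) ℤ) (N : ℕ) (r s : ℤ) (hc : Cof a b c P N r s) (ε : ℤ)
    (hε : ε = 1 ∨ ε = -1) {N' d : ℕ} {r' s' : ℤ} (hN' : 1 ≤ N') (hd : 1 ≤ d) (hNd : N = N' * d)
    (hr : (N : ℤ) ∣ d * r' - r) (hs : (N : ℤ) ∣ d * s' - s) :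
    ∃ (a2 b2 c2 ε' : ℤ) (S : M2), ¬ IsSquare (b2 ^ 2 - 4 * a2 * c2) ∧
      ¬ (a * b2 = a2 * b ∧ a * c2 = a2 * c ∧ b * c2 = b2 * c) ∧ (ε' = 1 ∨ ε' = -1) ∧ S.det ≠ 0 ∧
      ∀ w : Fin 2 → ℤ, Prm w → w ∈ X0c a b c a2 b2 c2 ε' r' s' N' → ∃ m : ℕ, 1 ≤ m ∧ m ≤ N ∧
        ((m : ℤ) • w ∈ Fina_E a b c P N r s ε ∨ ((m : ℤ) • w) ᵥ* S ∈ Fina_E a b c P N r s ε) := by
  have hquad : ∀ (x y : ℤ) (m : ℕ), 1 ≤ m →
      lam (((m : ℤ) ^ 2 * x) * ((m : ℤ) ^ 2 * y)) = lam (x * y) := by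
    intro x y m hm
    have hm0 : ((m : ℤ) ^ 2) ≠ 0 := by positivity
    have e1 : ((m : ℤ) ^ 2 * x) * ((m : ℤ) ^ 2 * y) = ((m : ℤ) ^ 2) ^ 2 * (x * y) := by ring
    rw [e1, lam_mul, lam_sq hm0, one_mul]
  rcases hc with ⟨a2, b2, c2, h1, h2, h3⟩ | ⟨S, κ, hS, hκ, h1, h2, h3, h4⟩
  · refine ⟨a2, b2, c2, ε, 1, h1, h2, hε, by simp, ?_⟩
    rintro w _ ⟨⟨u, hu, hu0, hu1⟩, hw⟩
    obtain ⟨m, hm1, hm2, hm3, hm4⟩ := exists_mult hN' hd hNd hr hs hu hu0 hu1
    refine ⟨m, hm1, hm2, Or.inl ⟨?_, ?_, ?_⟩⟩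
    · simpa using hm3
    · simpa using hm4
    · rw [h3, Fina_smul, Fina_smul, hquad _ _ _ hm1]
      exact hw
  · have ha : a ≠ 0 := by
      rintro rfl
      exact hD ⟨b, by ring⟩
    have hdet : S 0 0 * S 1 1 - S 0 1 * S 1 0 ≠ 0 := by
      rw [Matrix.det_fin_two] at hS
      exact hS
    set a2 : ℤ := a * S 0 0 ^ 2 + b * S 0 0 * S 0 1 + c * S 0 1 ^ 2 with ha2
    set b2 : ℤ := 2 * a * S 0 0 * S 1 0 + b * (S 0 0 * S 1 1 + S 0 1 * S 1 0)
      + 2 * c * S 0 1 * S 1 1 with hb2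
    set c2 : ℤ := a * S 1 0 ^ 2 + b * S 1 0 * S 1 1 + c * S 1 1 ^ 2 with hc2
    have hvm0 : ∀ v : Fin 2 → ℤ, (v ᵥ* S) 0 = v 0 * S 0 0 + v 1 * S 1 0 := by
      intro v
      simp [Matrix.vecMul, dotProduct, Fin.sum_univ_two]
    have hvm1 : ∀ v : Fin 2 → ℤ, (v ᵥ* S) 1 = v 0 * S 0 1 + v 1 * S 1 1 := by
      intro v
      simp [Matrix.vecMul, dotProduct, Fin.sum_univ_two]
    have hqS : ∀ v : Fin 2 → ℤ, qf a b c (v ᵥ* S) = qf a2 b2 c2 v := by
      intro v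
      unfold qf
      rw [hvm0, hvm1, ha2, hb2, hc2]
      ring
    have hD2 : ¬ IsSquare (b2 ^ 2 - 4 * a2 * c2) := by
      have e1 : b2 ^ 2 - 4 * a2 * c2 =
          (S 0 0 * S 1 1 - S 0 1 * S 1 0) ^ 2 * (b ^ 2 - 4 * a * c) := by
        rw [ha2, hb2, hc2]
        ring
      rw [e1]
      exact Fina_nsq hdet hD
    have hnp : ¬ (a * b2 = a2 * b ∧ a * c2 = a2 * c ∧ b * c2 = b2 * c) := by
      rintro ⟨e1, e2, _⟩
      apply h2
      refine ⟨(a2 : ℚ) / a, fun v => ?_⟩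
      rw [hqS]
      have ha' : (a : ℚ) ≠ 0 := by exact_mod_cast ha
      have e1' : (a : ℚ) * b2 = a2 * b := by exact_mod_cast e1
      have e2' : (a : ℚ) * c2 = a2 * c := by exact_mod_cast e2
      unfold qf
      push_cast
      rw [div_mul_eq_mul_div, eq_div_iff ha']
      linear_combination (v 0 : ℚ) * v 1 * e1' + (v 1 : ℚ) ^ 2 * e2'
    refine ⟨a2, b2, c2, lam κ, S, hD2, hnp, lam_pm hκ, hS, ?_⟩
    rintro w _ ⟨⟨u, hu, hu0, hu1⟩, hw⟩
    obtain ⟨m, hm1, hm2, hm3, hm4⟩ := exists_mult hN' hd hNd hr hs hu hu0 hu1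
    refine ⟨m, hm1, hm2, ?_⟩
    set v : Fin 2 → ℤ := (m : ℤ) • w with hv
    have hv0 : (N : ℤ) ∣ v 0 - r := by
      rw [hv]
      simpa using hm3
    have hv1 : (N : ℤ) ∣ v 1 - s := by
      rw [hv]
      simpa using hm4
    by_contra hcon
    rw [not_or] at hcon
    have g1 : lam (qf a b c v * MvPolynomial.eval v P) = ε := by
      by_contra hne
      exact hcon.1 ⟨hv0, hv1, hne⟩
    have g2 : lam (qf a b c (v ᵥ* S) * MvPolynomial.eval (v ᵥ* S) P) = ε := by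
      by_contra hne
      refine hcon.2 ⟨?_, ?_, hne⟩
      · rw [hvm0]
        have e1 : v 0 * S 0 0 + v 1 * S 1 0 - r = (v 0 - r) * S 0 0 + (v 1 - s) * S 1 0
            + ((r * S 0 0 + s * S 1 0) - r) := by ring
        rw [e1]
        exact dvd_add (dvd_add (Dvd.dvd.mul_right hv0 _) (Dvd.dvd.mul_right hv1 _)) h3
      · rw [hvm1]
        have e1 : v 0 * S 0 1 + v 1 * S 1 1 - s = (v 0 - r) * S 0 1 + (v 1 - s) * S 1 1
            + ((r * S 0 1 + s * S 1 1) - s) := by ring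
        rw [e1]
        exact dvd_add (dvd_add (Dvd.dvd.mul_right hv0 _) (Dvd.dvd.mul_right hv1 _)) h4
    rw [h1, hqS, lam_mul, lam_mul] at g2
    rw [lam_mul] at g1
    apply hw
    have hkey : lam (qf a b c v) * lam (qf a2 b2 c2 v) = lam κ := by
      have hε0 : ε ≠ 0 := by rcases hε with h | h <;> rw [h] <;> norm_num
      have hP0 : lam (MvPolynomial.eval v P) ≠ 0 := by
        intro h
        rw [h, mul_zero] at g1
        exact hε0 g1.symm
      have hq0 : lam (qf a2 b2 c2 v) ≠ 0 := by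
        intro h
        rw [h, zero_mul] at g2
        exact hε0 g2.symm
      have hq1 : qf a2 b2 c2 v ≠ 0 := by
        intro h
        apply hq0
        rw [h]
        simp [lam]
      have e1 : lam (qf a b c v) = lam (qf a2 b2 c2 v) * lam κ := by
        refine mul_right_cancel₀ hP0 ?_
        rw [g1, ← g2]
        ring
      have e2 : lam (qf a2 b2 c2 v) * lam (qf a2 b2 c2 v) = 1 := by
        rcases lam_pm hq1 with h | h <;> rw [h] <;> norm_num
      rw [e1]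
      linear_combination (lam κ) * e2
    rw [← lam_mul, hv, Fina_smul, Fina_smul, hquad _ _ _ hm1] at hkey
    exact hkey

theorem win_E (hQ : AllQ) (hM : MertAP) {a b c : ℤ} (hD : ¬ IsSquare (b ^ 2 - 4 * a * c))
    (P : MvPolynomial (Fin 2) ℤ) (hP : P ≠ 0) (N : ℕ) (hN : 1 ≤ N) (r s : ℤ)
    (hc : Cof a b c P N r s) (e : ℤ) (he : e = 1 ∨ e = -1) :
    ∃ c0 : ℝ, 0 < c0 ∧ ∃ (C : ℕ) (X0 : ℝ), ∀ X : ℝ, X0 ≤ X →
      c0 / Real.log (Real.log X) ≤ msA (Es a b c P N r s e) X (X * (Real.log X) ^ C) := by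
  have hε : -e = 1 ∨ -e = -1 := by
    rcases he with h | h <;> rw [h] <;> norm_num
  obtain ⟨N', d, r', s', hN', hd, hNd, hrs, hr, hs⟩ := gen_class N hN r s
  obtain ⟨a2, b2, c2, ε', S, hD2, hnp, hε', hS, hst⟩ :=
    Fina_stage hD P N r s hc (-e) hε hN' hd hNd hr hs
  obtain ⟨cc, A, C, N0, hc0, hA1, hwin⟩ := windowL hQ hM hN' hrs hD hD2 hnp hε'
  obtain ⟨A1, hA11, hlift⟩ := ms_le_msA N hN S hS
  obtain ⟨C', hC', hzer⟩ := zer_mass P hP
  have hE := hlift _ _ hst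
  set A' : ℝ := A1 * A with hA'
  have hA'1 : 1 ≤ A' := by nlinarith
  have hA'0 : 0 < A' := by linarith
  have hA10 : 0 < A1 := by linarith
  have hA0 : 0 < A := by linarith
  set κ : ℝ := cc / (2 * A1 * (C' * A' + 1)) with hκ
  have hκ0 : 0 < κ := by positivity
  obtain ⟨Y0, hY0⟩ : ∃ Y0 : ℝ, ∀ y : ℝ, Y0 ≤ y → Real.log y ≤ κ * y := by
    have h1 := Real.isLittleO_log_id_atTop.bound hκ0
    obtain ⟨Y, hY⟩ := Filter.eventually_atTop.1 (h1.and (Filter.eventually_ge_atTop (0 : ℝ)))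
    refine ⟨Y, fun y hy => ?_⟩
    obtain ⟨h2, h3⟩ := hY y hy
    simp only [id, Real.norm_eq_abs] at h2
    rw [abs_of_nonneg h3] at h2
    exact (le_abs_self _).trans h2
  set Z : ℝ := 2 ^ (C + 1) * A' ^ 2 + 3 with hZ
  refine ⟨cc / (4 * A1), by positivity, C + 1, Real.exp Z + 2 * A' + N0 + |Y0|, ?_⟩
  intro X hX
  have hN00 : (0 : ℝ) ≤ N0 := Nat.cast_nonneg N0
  have hYa : 0 ≤ |Y0| := abs_nonneg _
  have hYb : Y0 ≤ |Y0| := le_abs_self _
  have hexp : 0 < Real.exp Z := Real.exp_pos Z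
  have hX1 : Real.exp Z ≤ X := by linarith
  have hX2 : 2 * A' ≤ X := by linarith
  have hX3 : (N0 : ℝ) ≤ X := by linarith
  have hX4 : Y0 ≤ X := by linarith
  have hX0 : 0 < X := by linarith
  have hlX : Z ≤ Real.log X := by
    rw [← Real.log_exp Z]
    exact Real.log_le_log hexp hX1
  have hZ3 : 3 ≤ Z := by
    have : (0 : ℝ) ≤ 2 ^ (C + 1) * A' ^ 2 := by positivity
    linarith
  have hlX3 : 3 ≤ Real.log X := hZ3.trans hlX
  set n : ℕ := ⌈A' * X⌉₊ with hn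
  have hn1 : A' * X ≤ n := Nat.le_ceil _
  have hn2 : (n : ℝ) < A' * X + 1 := Nat.ceil_lt_add_one (by positivity)
  have hXA : X ≤ A' * X := le_mul_of_one_le_left hX0.le hA'1
  have hXn : X ≤ n := hXA.trans hn1
  have hn0 : (0 : ℝ) < n := by linarith
  have hX1' : 1 ≤ X := by linarith
  have hn3 : (n : ℝ) ≤ 2 * A' * X := by
    have : 1 ≤ A' * X := hX1'.trans hXA
    linarith
  have hn4 : (n : ℝ) ≤ X ^ 2 := by
    have : 2 * A' * X ≤ X * X := mul_le_mul_of_nonneg_right hX2 hX0.le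
    nlinarith
  have hln : Real.log n ≤ 2 * Real.log X := by
    have h1 := Real.log_le_log hn0 hn4
    rw [Real.log_pow] at h1
    exact_mod_cast h1
  have hln3 : 3 ≤ Real.log n := hlX3.trans (Real.log_le_log hX0 hXn)
  have hlog2 : Real.log 2 ≤ 1 := by
    have := Real.log_two_lt_d9
    linarith
  have hll1 : 1 ≤ Real.log (Real.log X) := by
    rw [Real.le_log_iff_exp_le (by linarith)]
    have := Real.exp_one_lt_d9
    linarith
  have hlln1 : 1 ≤ Real.log (Real.log n) := by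
    rw [Real.le_log_iff_exp_le (by linarith)]
    have := Real.exp_one_lt_d9
    linarith
  have hlln : Real.log (Real.log n) ≤ 2 * Real.log (Real.log X) := by
    have h1 := Real.log_le_log (by linarith) hln
    rw [Real.log_mul (by norm_num) (by linarith)] at h1
    linarith
  -- the window for `n`
  have hN0n : N0 ≤ n := by
    have : (N0 : ℝ) ≤ n := hX3.trans hXn
    exact_mod_cast this
  have hw := hwin n hN0n
  have hAA' : A ≤ A' := by
    rw [hA']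
    exact le_mul_of_one_le_left hA0.le hA11
  have hnA : 1 ≤ (n : ℝ) / A := by
    rw [le_div_iff₀ hA0, one_mul]
    linarith
  have hpw : (1 : ℝ) ≤ Real.log n ^ C := one_le_pow₀ (by linarith)
  have hnA2 : (n : ℝ) / A ≤ A * ((n : ℝ) * Real.log n ^ C) := by
    have h1 : (n : ℝ) / A ≤ n := div_le_self hn0.le hA1
    have h2 : (n : ℝ) ≤ n * Real.log n ^ C := le_mul_of_one_le_right hn0.le hpw
    have h3 : (n : ℝ) * Real.log n ^ C ≤ A * ((n : ℝ) * Real.log n ^ C) :=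
      le_mul_of_one_le_left (by positivity) hA1
    linarith
  have h5 := hw.trans (hE _ _ hnA hnA2)
  have hlow : (n : ℝ) / A / A1 = n / A' := by
    rw [hA', div_div, mul_comm A]
  have hlowX : X ≤ n / A' := by
    rw [le_div_iff₀ hA'0, mul_comm]
    exact hn1
  have hhigh : A1 * (A * ((n : ℝ) * Real.log n ^ C)) ≤ X * Real.log X ^ (C + 1) := by
    have h6 : (n : ℝ) * Real.log n ^ C ≤ (2 * A' * X) * (2 * Real.log X) ^ C := by
      gcongr
    have h7 : A1 * (A * ((n : ℝ) * Real.log n ^ C)) ≤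
        A' * ((2 * A' * X) * (2 * Real.log X) ^ C) := by
      rw [hA', ← mul_assoc]
      exact mul_le_mul_of_nonneg_left (by rw [hA'] at h6; exact h6) (by positivity)
    have h8 : A' * ((2 * A' * X) * (2 * Real.log X) ^ C) =
        (X * Real.log X ^ C) * (2 ^ (C + 1) * A' ^ 2) := by
      rw [mul_pow, pow_succ]
      ring
    have h9 : (X * Real.log X ^ C) * (2 ^ (C + 1) * A' ^ 2) ≤
        (X * Real.log X ^ C) * Real.log X := by
      refine mul_le_mul_of_nonneg_left ?_ (by positivity)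
      linarith
    rw [h8] at h7
    refine h7.trans (h9.trans (le_of_eq ?_))
    rw [pow_succ]
    ring
  have hsplit := Fina_union (X := Fina_E a b c P N r s (-e)) (Y := Es a b c P N r s e)
    (Z := {v | MvPolynomial.eval v P = 0}) (by
      rintro v hv0 ⟨hv1, hv2, hv3⟩
      by_cases hPv : MvPolynomial.eval v P = 0
      · exact Or.inr hPv
      · left
        refine ⟨hv1, hv2, ?_⟩
        have h6 : qf a b c v * MvPolynomial.eval v P ≠ 0 :=
          mul_ne_zero (Fina_aniso hD hv0) hPv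
        rcases lam_pm h6 with h7 | h7 <;> rcases he with h8 | h8
        · rw [h7, h8]
        · exfalso
          apply hv3
          rw [h7, h8]
          norm_num
        · exfalso
          apply hv3
          rw [h7, h8]
        · rw [h7, h8]) ((n : ℝ) / A') (A1 * (A * ((n : ℝ) * Real.log n ^ C)))
  rw [hlow] at h5
  have hz := hzer ((n : ℝ) / A') (A1 * (A * ((n : ℝ) * Real.log n ^ C))) (hX1'.trans hlowX)
  have hmono := msA_mono (E := Es a b c P N r s e) (E' := Es a b c P N r s e)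
    (fun v hv => hv) hlowX hhigh
  -- the zeros are negligible
  have hzn : C' / ((n : ℝ) / A') ≤ cc / (2 * A1) / Real.log (Real.log n) := by
    have h6 : Real.log (Real.log n) ≤ Real.log n := by
      have := Real.log_le_sub_one_of_pos (show (0 : ℝ) < Real.log n by linarith)
      linarith
    have h7 : Real.log (Real.log n) ≤ κ * n := h6.trans (hY0 n (hX4.trans hXn))
    rw [div_div_eq_mul_div, div_le_div_iff₀ hn0 (by linarith)]
    have h8 : C' * A' * Real.log (Real.log n) ≤ (C' * A' + 1) * (κ * n) := by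
      have h9 : 0 ≤ C' * A' := by positivity
      have h10 : 0 ≤ κ * n := by positivity
      nlinarith
    refine h8.trans (le_of_eq ?_)
    rw [hκ]
    field_simp
  have hfin : cc / Real.log (Real.log n) ≤ A1 * (msA (Es a b c P N r s e) X (X * Real.log X ^ (C + 1))
      + cc / (2 * A1) / Real.log (Real.log n)) := by
    refine h5.trans ?_
    refine mul_le_mul_of_nonneg_left ?_ hA10.le
    linarith
  have h11 : cc / (2 * A1) / Real.log (Real.log n) ≤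
      msA (Es a b c P N r s e) X (X * Real.log X ^ (C + 1)) := by
    have h12 : cc / Real.log (Real.log n) = A1 * (2 * (cc / (2 * A1) / Real.log (Real.log n))) := by
      field_simp
    rw [h12] at hfin
    have h13 := le_of_mul_le_mul_left hfin hA10
    linarith
  refine le_trans ?_ h11
  rw [div_div, div_div]
  refine div_le_div_of_nonneg_left hc0.le (by positivity) ?_
  nlinarith

end Pool.Agent.CQG
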