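import Pool.Agent.CQG.Fina

set_option autoImplicit false

/-!
# Module Finb (size 4): the theorem as a bound for a logarithmic sum over windows

`win` is the set of `(u, v) ≡ (r, s)` mod `N` with `X ≤ max(|u|,|v|) ≤ Y`. Take `win_E` for `e = 1` and `e = -1`, `C` the larger of the two exponents (the
windows grow, `msA_mono`), `c0` the smaller constant. For large `X`, `Y = X (log X)^C`: with `M± = msA (Es .. ±1) X Y` (sums over `win`
restricted to the value `±1`, through the bijection `(u, v) ↔ ![u, v]`; points with value `0` contribute `0` on the left and `≥ 0` on the right):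
`|∑ λ/|w|²| = |M+ - M-| = (M+ + M-) - 2 min(M+, M-) ≤ T - 2 c0/loglog X`, where `T = ∑_{win} 1/|w|²`.
`T ≤ ∑_{X ≤ n ≤ Y} 8 n/n² ≤ 8 (1 + log (Y/X)) ≤ 8 (1 + C loglog X) ≤ C1 loglog X` (there are `8n` integer points of norm `n ≥ 1`), so
`2 c0/loglog X ≥ (2 c0/C1)/(loglog X)² · T`.
-/

open Matrix Pool.Agent.CQF

namespace Pool.Agent.CQG

open Classical in
/-- integer points of a residue class in a square annulus -/
noncomputable def win (N : ℕ) (r s : ℤ) (X Y : ℝ) : Finset (ℤ × ℤ) :=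
  ((Finset.Icc (-(⌊Y⌋₊ : ℤ)) (⌊Y⌋₊ : ℤ)) ×ˢ (Finset.Icc (-(⌊Y⌋₊ : ℤ)) (⌊Y⌋₊ : ℤ))).filter
    (fun w => (N : ℤ) ∣ w.1 - r ∧ (N : ℤ) ∣ w.2 - s ∧ X ≤ ((max |w.1| |w.2| : ℤ) : ℝ))

private theorem Finb_ht (v : Fin 2 → ℤ) : ((ht v : ℕ) : ℝ) = ((max |v 0| |v 1| : ℤ) : ℝ) := by
  unfold ht
  rw [Nat.cast_max, Int.cast_max, Nat.cast_natAbs, Nat.cast_natAbs]

private theorem Finb_inj : Function.Injective (fun v : Fin 2 → ℤ => (v 0, v 1)) := by
  intro v w h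
  rw [Prod.mk.injEq] at h
  funext i
  fin_cases i
  · exact h.1
  · exact h.2

/-- the sign at a point -/
private noncomputable def Finb_L (a b c : ℤ) (P : MvPolynomial (Fin 2) ℤ) (w : ℤ × ℤ) : ℤ :=
  ArithmeticFunction.liouville ((a * w.1 ^ 2 + b * w.1 * w.2 + c * w.2 ^ 2) *
            MvPolynomial.eval ![w.1, w.2] P).natAbs

private theorem Finb_L_val (a b c : ℤ) (P : MvPolynomial (Fin 2) ℤ) (w : ℤ × ℤ) :
    Finb_L a b c P w = 1 ∨ Finb_L a b c P w = -1 ∨ Finb_L a b c P w = 0 := by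
  by_cases h : ((a * w.1 ^ 2 + b * w.1 * w.2 + c * w.2 ^ 2) *
            MvPolynomial.eval ![w.1, w.2] P) = 0
  · right; right
    unfold Finb_L
    rw [h, Int.natAbs_zero, ArithmeticFunction.map_zero]
  · rcases lam_pm h with h1 | h1
    · left; exact h1
    · right; left; exact h1

private theorem Finb_mem {N : ℕ} {r s : ℤ} {X Y : ℝ} {w : ℤ × ℤ} : w ∈ win N r s X Y ↔
    (w.1.natAbs ≤ ⌊Y⌋₊ ∧ w.2.natAbs ≤ ⌊Y⌋₊) ∧ (N : ℤ) ∣ w.1 - r ∧ (N : ℤ) ∣ w.2 - s ∧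
      X ≤ ((max |w.1| |w.2| : ℤ) : ℝ) := by
  unfold win
  rw [Finset.mem_filter, Finset.mem_product, Finset.mem_Icc, Finset.mem_Icc]
  constructor
  · rintro ⟨⟨⟨h1, h2⟩, h3, h4⟩, h5⟩
    exact ⟨⟨by omega, by omega⟩, h5⟩
  · rintro ⟨⟨h1, h2⟩, h5⟩
    exact ⟨⟨⟨by omega, by omega⟩, by omega, by omega⟩, h5⟩

open Classical in
private theorem Finb_msE (a b c : ℤ) (P : MvPolynomial (Fin 2) ℤ) (N : ℕ) (r s e : ℤ) (X Y : ℝ)
    (E : Set (Fin 2 → ℤ)) (hE : E = Es a b c P N r s e) :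
    msA E X Y ≤ ∑ w ∈ (win N r s X Y).filter (fun w => Finb_L a b c P w = e),
        1 / ((max |w.1| |w.2| : ℤ) : ℝ) ^ 2 := by
  unfold msA
  obtain ⟨S, hS⟩ : ∃ S, S = (Fintype.piFinset fun _ : Fin 2 =>
      Finset.Icc (-(⌊Y⌋₊ : ℤ)) (⌊Y⌋₊ : ℤ)).filter
    (fun v => v ∈ E ∧ v ≠ 0 ∧ X ≤ (ht v : ℝ) ∧ (ht v : ℝ) ≤ Y) := ⟨_, rfl⟩
  rw [← hS]
  have h3 : ∑ v ∈ S, 1 / (ht v : ℝ) ^ 2 =
      ∑ w ∈ S.image (fun v : Fin 2 → ℤ => (v 0, v 1)),
        1 / ((max |w.1| |w.2| : ℤ) : ℝ) ^ 2 := by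
    rw [Finset.sum_image (fun x _ y _ hxy => Finb_inj hxy)]
    refine Finset.sum_congr rfl fun v _ => ?_
    rw [Finb_ht]
  rw [h3]
  refine Finset.sum_le_sum_of_subset_of_nonneg ?_ (fun _ _ _ => by positivity)
  intro w hw
  rw [Finset.mem_image] at hw
  obtain ⟨v, hv, rfl⟩ := hw
  rw [hS, Finset.mem_filter, Fintype.mem_piFinset, hE] at hv
  obtain ⟨h4, ⟨h5, h6, h7⟩, -, h8, h9⟩ := hv
  rw [Finset.mem_filter, Finb_mem]
  have h10 := h4 0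
  have h11 := h4 1
  rw [Finset.mem_Icc] at h10 h11
  refine ⟨⟨⟨?_, ?_⟩, h5, h6, ?_⟩, ?_⟩
  · show (v 0).natAbs ≤ ⌊Y⌋₊
    omega
  · show (v 1).natAbs ≤ ⌊Y⌋₊
    omega
  · rw [← Finb_ht]
    exact h8
  · have h12 : (![v 0, v 1] : Fin 2 → ℤ) = v := by
      funext i
      fin_cases i <;> rfl
    have h13 : Finb_L a b c P (v 0, v 1) = lam (qf a b c v * MvPolynomial.eval v P) := by
      unfold Finb_L lam qf
      show _ = _
      simp only [h12]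
    rw [h13]
    exact h7

private theorem Finb_harm (X Y : ℝ) (hX : 1 ≤ X) (hXY : X ≤ Y) :
    ∑ n ∈ Finset.Icc ⌈X⌉₊ ⌊Y⌋₊, 1 / (n : ℝ) ≤ 1 + Real.log Y - Real.log X := by
  have hY : 1 ≤ Y := hX.trans hXY
  have hc1 : 1 ≤ ⌈X⌉₊ := Nat.one_le_ceil_iff.2 (by linarith)
  have h6 := harmonic_floor_le_one_add_log Y hY
  have h7 := log_add_one_le_harmonic (⌈X⌉₊ - 1)
  rw [Nat.cast_add_one] at h7
  have h8 : Real.log X ≤ Real.log (((⌈X⌉₊ - 1 : ℕ) : ℝ) + 1) := by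
    apply Real.log_le_log (by linarith)
    have h9 : (((⌈X⌉₊ - 1 : ℕ) : ℝ) + 1) = ((⌈X⌉₊ : ℕ) : ℝ) := by
      rw [Nat.cast_sub hc1]
      simp
    rw [h9]
    exact Nat.le_ceil X
  have hH : ∀ n : ℕ, ∑ k ∈ Finset.Icc 1 n, 1 / (k : ℝ) = ((harmonic n : ℚ) : ℝ) := by
    intro n
    rw [harmonic_eq_sum_Icc]
    push_cast
    refine Finset.sum_congr rfl fun k _ => by rw [one_div]
  rw [← hH] at h6 h7
  have hdisj : Disjoint (Finset.Icc 1 (⌈X⌉₊ - 1)) (Finset.Icc ⌈X⌉₊ ⌊Y⌋₊) := by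
    rw [Finset.disjoint_left]
    intro n h1 h2
    rw [Finset.mem_Icc] at h1 h2
    omega
  have hcf : ⌈X⌉₊ ≤ ⌊Y⌋₊ + 1 := by
    refine Nat.ceil_le.2 ?_
    push_cast
    exact (hXY.trans (Nat.lt_floor_add_one Y).le)
  have hsub : Finset.Icc 1 (⌈X⌉₊ - 1) ∪ Finset.Icc ⌈X⌉₊ ⌊Y⌋₊ ⊆ Finset.Icc 1 ⌊Y⌋₊ := by
    intro n hn
    rw [Finset.mem_union, Finset.mem_Icc, Finset.mem_Icc] at hn
    rw [Finset.mem_Icc]
    omega
  have h10 : ∑ k ∈ Finset.Icc 1 (⌈X⌉₊ - 1), 1 / (k : ℝ) +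
      ∑ n ∈ Finset.Icc ⌈X⌉₊ ⌊Y⌋₊, 1 / (n : ℝ) ≤ ∑ k ∈ Finset.Icc 1 ⌊Y⌋₊, 1 / (k : ℝ) := by
    rw [← Finset.sum_union hdisj]
    exact Finset.sum_le_sum_of_subset_of_nonneg hsub (fun _ _ _ => by positivity)
  linarith

private theorem Finb_tot (N : ℕ) (r s : ℤ) (X Y : ℝ) (hX : 1 ≤ X) (hXY : X ≤ Y) :
    ∑ w ∈ win N r s X Y, 1 / ((max |w.1| |w.2| : ℤ) : ℝ) ^ 2 ≤
      12 * (1 + Real.log Y - Real.log X) := by
  classical
  have hcast : ∀ w : ℤ × ℤ,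
      ((max w.1.natAbs w.2.natAbs : ℕ) : ℝ) = ((max |w.1| |w.2| : ℤ) : ℝ) := by
    intro w
    rw [Nat.cast_max, Int.cast_max, Nat.cast_natAbs, Nat.cast_natAbs]
  have hmaps : ∀ w ∈ win N r s X Y, max w.1.natAbs w.2.natAbs ∈ Finset.Icc ⌈X⌉₊ ⌊Y⌋₊ := by
    intro w hw
    rw [Finb_mem] at hw
    rw [Finset.mem_Icc]
    refine ⟨Nat.ceil_le.2 ?_, max_le hw.1.1 hw.1.2⟩
    rw [hcast]
    exact hw.2.2.2
  rw [← Finset.sum_fiberwise_of_maps_to hmaps]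
  have hfib : ∀ n ∈ Finset.Icc ⌈X⌉₊ ⌊Y⌋₊,
      ∑ w ∈ (win N r s X Y).filter (fun w => max w.1.natAbs w.2.natAbs = n),
        1 / ((max |w.1| |w.2| : ℤ) : ℝ) ^ 2 ≤ 12 * (1 / (n : ℝ)) := by
    intro n hn
    rw [Finset.mem_Icc] at hn
    have hc1 : 1 ≤ ⌈X⌉₊ := Nat.one_le_ceil_iff.2 (by linarith)
    have hn1 : 1 ≤ n := hc1.trans hn.1
    have hn0 : (0 : ℝ) < n := by exact_mod_cast hn1
    have h1 : ∀ w ∈ (win N r s X Y).filter (fun w => max w.1.natAbs w.2.natAbs = n),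
        1 / ((max |w.1| |w.2| : ℤ) : ℝ) ^ 2 = 1 / (n : ℝ) ^ 2 := by
      intro w hw
      rw [Finset.mem_filter] at hw
      rw [← hcast, hw.2]
    rw [Finset.sum_congr rfl h1, Finset.sum_const, nsmul_eq_mul]
    have hsub : (win N r s X Y).filter (fun w => max w.1.natAbs w.2.natAbs = n) ⊆
        (({(n : ℤ), -(n : ℤ)} : Finset ℤ) ×ˢ Finset.Icc (-(n : ℤ)) n) ∪
          (Finset.Icc (-(n : ℤ)) n ×ˢ ({(n : ℤ), -(n : ℤ)} : Finset ℤ)) := by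
      intro w hw
      rw [Finset.mem_filter] at hw
      have h2 := hw.2
      have h3 := le_max_left w.1.natAbs w.2.natAbs
      have h4 := le_max_right w.1.natAbs w.2.natAbs
      rw [Finset.mem_union, Finset.mem_product, Finset.mem_product, Finset.mem_Icc,
        Finset.mem_Icc, Finset.mem_insert, Finset.mem_insert, Finset.mem_singleton,
        Finset.mem_singleton]
      rcases max_choice w.1.natAbs w.2.natAbs with h5 | h5
      · left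
        constructor
        · omega
        · constructor <;> omega
      · right
        constructor
        · constructor <;> omega
        · omega
    have hcard : ((win N r s X Y).filter
        (fun w => max w.1.natAbs w.2.natAbs = n)).card ≤ 12 * n := by
      refine (Finset.card_le_card hsub).trans ((Finset.card_union_le _ _).trans ?_)
      rw [Finset.card_product, Finset.card_product, Int.card_Icc]
      have h2 : ({(n : ℤ), -(n : ℤ)} : Finset ℤ).card ≤ 2 := Finset.card_le_two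
      have h3 : ((n : ℤ) + 1 - -(n : ℤ)).toNat = 2 * n + 1 := by omega
      rw [h3]
      nlinarith
    have hcard' : ((((win N r s X Y).filter
        (fun w => max w.1.natAbs w.2.natAbs = n)).card : ℕ) : ℝ) ≤
        12 * n := by exact_mod_cast hcard
    calc _ ≤ 12 * (n : ℝ) * (1 / (n : ℝ) ^ 2) := by gcongr
      _ = 12 * (1 / (n : ℝ)) := by field_simp
  refine (Finset.sum_le_sum hfib).trans ?_
  rw [← Finset.mul_sum]
  exact mul_le_mul_of_nonneg_left (Finb_harm X Y hX hXY) (by norm_num)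

theorem final_sum (hQ : AllQ) (hM : MertAP) {a b c : ℤ} (hD : ¬ IsSquare (b ^ 2 - 4 * a * c))
    (P : MvPolynomial (Fin 2) ℤ) (hP : P ≠ 0) (N : ℕ) (hN : 1 ≤ N) (r s : ℤ)
    (hc : Cof a b c P N r s) :
    ∃ c0 : ℝ, 0 < c0 ∧ ∃ (C : ℕ) (X0 : ℝ), ∀ X : ℝ, X0 ≤ X →
      |∑ w ∈ win N r s X (X * (Real.log X) ^ C),
          (ArithmeticFunction.liouville ((a * w.1 ^ 2 + b * w.1 * w.2 + c * w.2 ^ 2) *
            MvPolynomial.eval ![w.1, w.2] P).natAbs : ℝ) / ((max |w.1| |w.2| : ℤ) : ℝ) ^ 2| ≤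
        (1 - c0 / (Real.log (Real.log X)) ^ 2) *
          ∑ w ∈ win N r s X (X * (Real.log X) ^ C), 1 / ((max |w.1| |w.2| : ℤ) : ℝ) ^ 2 := by
  classical
  obtain ⟨c1, hc1, C1, X1, h1⟩ := win_E hQ hM hD P hP N hN r s hc 1 (Or.inl rfl)
  obtain ⟨c2, hc2, C2, X2, h2⟩ := win_E hQ hM hD P hP N hN r s hc (-1) (Or.inr rfl)
  obtain ⟨C, hC⟩ : ∃ C : ℕ, C = max C1 C2 := ⟨_, rfl⟩
  obtain ⟨μ, hμ⟩ : ∃ μ : ℝ, μ = min c1 c2 := ⟨_, rfl⟩
  have hμ0 : 0 < μ := by rw [hμ]; exact lt_min hc1 hc2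
  have ev1 : ∀ᶠ x : ℝ in Filter.atTop, 1 ≤ Real.log x :=
    Real.tendsto_log_atTop.eventually_ge_atTop 1
  have ev2 : ∀ᶠ x : ℝ in Filter.atTop, 1 ≤ Real.log (Real.log x) :=
    (Real.tendsto_log_atTop.comp Real.tendsto_log_atTop).eventually_ge_atTop 1
  obtain ⟨x1, hx1⟩ := Filter.eventually_atTop.1 (ev1.and ev2)
  refine ⟨μ / (6 * (1 + C)), by positivity, C, max (max X1 X2) (max x1 1), fun X hX => ?_⟩
  have hXa : X1 ≤ X := ((le_max_left _ _).trans (le_max_left _ _)).trans hX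
  have hXb : X2 ≤ X := ((le_max_right _ _).trans (le_max_left _ _)).trans hX
  have hXc : x1 ≤ X := ((le_max_left _ _).trans (le_max_right _ _)).trans hX
  have hXd : 1 ≤ X := ((le_max_right _ _).trans (le_max_right _ _)).trans hX
  obtain ⟨hl1, hl2⟩ := hx1 X hXc
  have hX0 : 0 < X := by linarith
  have hl0 : 0 < Real.log X := by linarith
  obtain ⟨Y, hY⟩ : ∃ Y : ℝ, Y = X * (Real.log X) ^ C := ⟨_, rfl⟩
  have hYi : ∀ Ci : ℕ, Ci ≤ C → X * (Real.log X) ^ Ci ≤ Y := by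
    intro Ci hCi
    rw [hY]
    exact mul_le_mul_of_nonneg_left (pow_le_pow_right₀ hl1 hCi) hX0.le
  have hXY : X ≤ Y := by
    have := hYi 0 (Nat.zero_le _)
    simpa using this
  have hlogY : Real.log Y - Real.log X = C * Real.log (Real.log X) := by
    rw [hY, Real.log_mul hX0.ne' (pow_pos hl0 C).ne', Real.log_pow]
    ring
  rw [← hY]
  obtain ⟨ℓ, hℓ⟩ : ∃ ℓ : ℝ, ℓ = Real.log (Real.log X) := ⟨_, rfl⟩
  rw [← hℓ] at hl2 hlogY ⊢
  have hℓ0 : 0 < ℓ := by linarith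
  obtain ⟨f, hf⟩ : ∃ f : ℤ × ℤ → ℝ, f = fun w => 1 / ((max |w.1| |w.2| : ℤ) : ℝ) ^ 2 := ⟨_, rfl⟩
  have hf0 : ∀ w, 0 ≤ f w := by
    intro w
    rw [hf]
    positivity
  obtain ⟨Lf, hLf⟩ : ∃ Lf : ℤ × ℤ → ℤ, Lf = Finb_L a b c P := ⟨_, rfl⟩
  obtain ⟨W, hW⟩ : ∃ W, W = win N r s X Y := ⟨_, rfl⟩
  obtain ⟨Sp, hSp⟩ : ∃ S : ℝ, S = ∑ w ∈ W.filter (fun w => Lf w = 1), f w := ⟨_, rfl⟩
  obtain ⟨Sm, hSm⟩ : ∃ S : ℝ, S = ∑ w ∈ W.filter (fun w => Lf w = -1), f w := ⟨_, rfl⟩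
  obtain ⟨T, hT⟩ : ∃ T : ℝ, T = ∑ w ∈ W, f w := ⟨_, rfl⟩
  have hval : ∀ w, Lf w = 1 ∨ Lf w = -1 ∨ Lf w = 0 := by
    intro w
    rw [hLf]
    exact Finb_L_val a b c P w
  have hsum : ∑ w ∈ W, (Lf w : ℝ) * f w = Sp - Sm := by
    rw [hSp, hSm, Finset.sum_filter, Finset.sum_filter, ← Finset.sum_sub_distrib]
    refine Finset.sum_congr rfl fun w _ => ?_
    rcases hval w with h | h | h
    · rw [h]; norm_num
    · rw [h]; norm_num
    · rw [h]; norm_num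
  have hle : Sp + Sm ≤ T := by
    rw [hSp, hSm, hT, Finset.sum_filter, Finset.sum_filter, ← Finset.sum_add_distrib]
    refine Finset.sum_le_sum fun w _ => ?_
    have := hf0 w
    rcases hval w with h | h | h
    · rw [h]; norm_num
    · rw [h]; norm_num
    · rw [h]; norm_num; exact this
  have hgoal1 : ∑ w ∈ win N r s X Y,
      (ArithmeticFunction.liouville ((a * w.1 ^ 2 + b * w.1 * w.2 + c * w.2 ^ 2) *
            MvPolynomial.eval ![w.1, w.2] P).natAbs : ℝ) / ((max |w.1| |w.2| : ℤ) : ℝ) ^ 2 =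
      Sp - Sm := by
    rw [← hsum, ← hW]
    refine Finset.sum_congr rfl fun w _ => ?_
    rw [hLf, hf]
    simp only [Finb_L]
    ring
  have hgoal2 : ∑ w ∈ win N r s X Y, 1 / ((max |w.1| |w.2| : ℤ) : ℝ) ^ 2 = T := by
    rw [hT, hW, hf]
  rw [hgoal1, hgoal2]
  have hp1 : μ / ℓ ≤ Sp := by
    have e1 := h1 X hXa
    rw [← hℓ] at e1
    have e2 := msA_mono (E := Es a b c P N r s 1) (E' := Es a b c P N r s 1) (fun v hv => hv)
      (le_refl X) (hYi C1 (by rw [hC]; exact le_max_left _ _))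
    have e3 := Finb_msE a b c P N r s 1 X Y _ rfl
    rw [hSp, hLf, hf, hW]
    refine le_trans ?_ (e1.trans (e2.trans e3))
    have : μ ≤ c1 := by rw [hμ]; exact min_le_left _ _
    gcongr
  have hm1 : μ / ℓ ≤ Sm := by
    have e1 := h2 X hXb
    rw [← hℓ] at e1
    have e2 := msA_mono (E := Es a b c P N r s (-1)) (E' := Es a b c P N r s (-1))
      (fun v hv => hv) (le_refl X) (hYi C2 (by rw [hC]; exact le_max_right _ _))
    have e3 := Finb_msE a b c P N r s (-1) X Y _ rfl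
    rw [hSm, hLf, hf, hW]
    refine le_trans ?_ (e1.trans (e2.trans e3))
    have : μ ≤ c2 := by rw [hμ]; exact min_le_right _ _
    gcongr
  have htot : T ≤ 12 * (1 + C) * ℓ := by
    have e1 := Finb_tot N r s X Y hXd hXY
    rw [hgoal2] at e1
    have e2 : 12 * (1 + Real.log Y - Real.log X) = 12 + 12 * (C * ℓ) := by
      rw [← hlogY]; ring
    rw [e2] at e1
    have e3 : (0 : ℝ) ≤ C := Nat.cast_nonneg C
    nlinarith
  have hδ : μ / (6 * (1 + C)) / ℓ ^ 2 * T ≤ 2 * (μ / ℓ) := by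
    have e1 : 0 ≤ μ / (6 * (1 + C)) / ℓ ^ 2 := by positivity
    calc μ / (6 * (1 + C)) / ℓ ^ 2 * T ≤ μ / (6 * (1 + C)) / ℓ ^ 2 * (12 * (1 + C) * ℓ) :=
          mul_le_mul_of_nonneg_left htot e1
      _ = 2 * (μ / ℓ) := by
          field_simp
          ring
  rw [abs_le]
  constructor <;> linarith

end Pool.Agent.CQG
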