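import Pool.Agent.CQG.Iva

set_option autoImplicit false

/-!
# Module Ga (size 4): unipotents in the invariance group of a class

Copy of `Pool/Agent/CQF/Gga.lean` with `InvL`.
* `lqL_int`: as `lq_int` (`(Tk k)^n = LQ (k n) 1`, `adj`).
* `lqL_div`: `x` coprime to `L`, `k L ∣ Y`: write `Y = L Y'`, `k ∣ Y'` (`L ≥ 1`), `k' = -Y' (x² - D L²)`, `z = (-x, L)`,
  `z' = z ᵥ* Tk k' = (-x + k' L, L)`, `A = (1 + x Y)² - D L² Y²`; `nf D z' = nf D z * A` (checked),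
  `W = km D z * Tk k' * adj (km D z')`, `W * LQ a b * adj W = (nf D z)² • LQ a (A b)` (checked).
  `km D z`, `km D z'` are in the group by `invl_km` (`-x` and `-x + k' L` are coprime to `L`), `Tk k' = LQ k' 1` by `lqL_int`;
  the sign of `W` occurs twice; `nf D z = x² - D L²` is coprime to `L` (`invl_smul`).
* `uz`: `κ = km D (1, L)`, `N = 1 - D L² = nf D (1, L)`, coprime to `L`, nonzero. `adj κ * LQ (-N a) b * κ = N • UT L a b`
  (checked), `LQ (-N a) b = adj (LQ (N a) b)`.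
-/

open Matrix Pool.Agent.CQF

namespace Pool.Agent.CQG

private theorem lq_pow (k : ℤ) (n : ℕ) : (Tk k) ^ n = LQ (k * n) 1 := by
  induction n with
  | zero =>
    ext i j
    fin_cases i <;> fin_cases j <;> simp [LQ]
  | succ n ih =>
    rw [pow_succ, ih]
    ext i j
    fin_cases i <;> fin_cases j <;> simp [LQ, Tk, Matrix.mul_apply, Fin.sum_univ_two]
    ring

private theorem adj_lq (a b : ℤ) : (LQ a b).adjugate = LQ (-a) b := by
  simp [LQ, Matrix.adjugate_fin_two]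

private theorem F_mul_self {D : ℤ} (hD : ¬ IsSquare D) {z : Fin 2 → ℤ} (hz : z ≠ 0) :
    F D z * F D z = 1 := by
  rcases F_pm hD hz with h | h <;> simp [h]

theorem lqL_int {X0 : Set (Fin 2 → ℤ)} {L : ℕ} {D : ℤ} (hD : ¬ IsSquare D) {k : ℕ}
    (hk : InvL X0 L D (Tk k) 1) (n : ℤ) : InvL X0 L D (LQ (k * n) 1) 1 := by
  obtain ⟨m, rfl | rfl⟩ := n.eq_nat_or_neg
  · have := invl_pow hD hk m
    rwa [lq_pow] at this
  · have := invl_adj hD (invl_pow hD hk m)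
    rw [lq_pow, adj_lq] at this
    rwa [mul_neg]

theorem lqL_div {X0 : Set (Fin 2 → ℤ)} {L : ℕ} (hL : 1 ≤ L) {D : ℤ} (hD : ¬ IsSquare D) {k : ℕ}
    (hk : InvL X0 L D (Tk k) 1) {x Y : ℤ} (hY : ((k : ℤ) * L) ∣ Y) (hx : IsCoprime x (L : ℤ))
    {a b : ℤ} (hb : b ≠ 0) (h : InvL X0 L D (LQ a b) 1) :
    InvL X0 L D (LQ a (((1 + x * Y) ^ 2 - (D * (L : ℤ) ^ 2) * Y ^ 2) * b)) 1 := by
  obtain ⟨m, rfl⟩ := hY
  have h1 := lqL_int hD hk (-(m * (x ^ 2 - D * (L : ℤ) ^ 2)))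
  obtain ⟨k', hk'⟩ : ∃ k' : ℤ, k' = (k : ℤ) * (-(m * (x ^ 2 - D * (L : ℤ) ^ 2))) := ⟨_, rfl⟩
  rw [← hk'] at h1
  have hL0 : (L : ℤ) ≠ 0 := by
    have : L ≠ 0 := by omega
    exact_mod_cast this
  have hz : (![-x, (L : ℤ)] : Fin 2 → ℤ) ≠ 0 := by
    intro h0
    have := congrFun h0 1
    simp at this
    omega
  have hz' : (![-x + k' * L, (L : ℤ)] : Fin 2 → ℤ) ≠ 0 := by
    intro h0
    have := congrFun h0 1
    simp at this
    omega
  have hN : x ^ 2 - D * (L : ℤ) ^ 2 ≠ 0 := by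
    have := nf_ne hD hz
    simpa [nf] using this
  have hc1 : IsCoprime (-x) (L : ℤ) := hx.neg_left
  have hc2 : IsCoprime (-x + k' * L) (L : ℤ) := hc1.add_mul_right_left k'
  have hNL : IsCoprime (x ^ 2 - D * (L : ℤ) ^ 2) (L : ℤ) := by
    have h2 : IsCoprime (x ^ 2) (L : ℤ) := hx.pow_left
    have h3 : IsCoprime (x ^ 2 + (-(D * L)) * (L : ℤ)) (L : ℤ) := h2.add_mul_right_left _
    have e : x ^ 2 + (-(D * L)) * (L : ℤ) = x ^ 2 - D * (L : ℤ) ^ 2 := by ring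
    rwa [e] at h3
  have hk1 : InvL X0 L D (km D ![-x, (L : ℤ)]) (F D ![-x, (L : ℤ)]) :=
    invl_km hD hz (by simpa using hc1) (by simp)
  have hk2 : InvL X0 L D (km D ![-x + k' * L, (L : ℤ)]) (F D ![-x + k' * L, (L : ℤ)]) :=
    invl_km hD hz' (by simpa using hc2) (by simp)
  have hW := invl_mul hD (invl_mul hD hk1 h1) (invl_adj hD hk2)
  have hWW := invl_mul hD (invl_mul hD hW h) (invl_adj hD hW)
  have hs : F D ![-x, (L : ℤ)] * 1 * F D ![-x + k' * L, (L : ℤ)] * 1 *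
      (F D ![-x, (L : ℤ)] * 1 * F D ![-x + k' * L, (L : ℤ)]) = 1 := by
    have e1 := F_mul_self hD hz
    have e2 := F_mul_self hD hz'
    calc _ = (F D ![-x, (L : ℤ)] * F D ![-x, (L : ℤ)]) *
        (F D ![-x + k' * L, (L : ℤ)] * F D ![-x + k' * L, (L : ℤ)]) := by ring
      _ = 1 := by rw [e1, e2]; norm_num
  rw [hs] at hWW
  have hW0 : km D ![-x, (L : ℤ)] * LQ k' 1 * (km D ![-x + k' * L, (L : ℤ)]).adjugate =
      !![(-x + k' * L) ^ 2 - D * (L : ℤ) ^ 2, 0;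
        (D * L - x * k') * (-x + k' * L) + x * D * L, x ^ 2 - D * (L : ℤ) ^ 2] := by
    ext i j
    fin_cases i <;> fin_cases j <;>
      simp [LQ, km, Matrix.adjugate_fin_two, Matrix.mul_apply, Fin.sum_univ_two, -mul_eq_mul_left_iff,
        -mul_eq_mul_right_iff, -add_left_inj, -add_right_inj] <;> ring
  rw [hW0] at hWW
  have hfin : !![(-x + k' * L) ^ 2 - D * (L : ℤ) ^ 2, 0;
        (D * L - x * k') * (-x + k' * L) + x * D * L, x ^ 2 - D * (L : ℤ) ^ 2] * LQ a b *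
      (!![(-x + k' * L) ^ 2 - D * (L : ℤ) ^ 2, 0;
        (D * L - x * k') * (-x + k' * L) + x * D * L, x ^ 2 - D * (L : ℤ) ^ 2] : M2).adjugate =
      ((x ^ 2 - D * (L : ℤ) ^ 2) ^ 2) • LQ a (((1 + x * (k * L * m)) ^ 2 -
        (D * (L : ℤ) ^ 2) * (k * L * m) ^ 2) * b) := by
    have hk3 : (-x + k' * L) ^ 2 - D * (L : ℤ) ^ 2 = (x ^ 2 - D * (L : ℤ) ^ 2) *
        ((1 + x * (k * L * m)) ^ 2 - (D * (L : ℤ) ^ 2) * (k * L * m) ^ 2) := by
      rw [hk']; ring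
    rw [hk3]
    ext i j
    fin_cases i <;> fin_cases j <;>
      simp [LQ, Matrix.adjugate_fin_two, Matrix.mul_apply, Fin.sum_univ_two, -mul_eq_mul_left_iff,
        -mul_eq_mul_right_iff, -add_left_inj, -add_right_inj] <;> ring
  rw [hfin] at hWW
  exact (invl_smul (pow_ne_zero 2 hN) hNL.pow_left).1 hWW

theorem uz {X0 : Set (Fin 2 → ℤ)} {L : ℕ} (hL : 1 ≤ L) {D : ℤ} (hD : ¬ IsSquare D) {a b : ℤ}
    (hb : b ≠ 0) (h : InvL X0 L D (LQ ((1 - D * (L : ℤ) ^ 2) * a) b) 1) :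
    InvL X0 L D (UT L a b) 1 := by
  have hz : (![1, (L : ℤ)] : Fin 2 → ℤ) ≠ 0 := by
    intro h0
    have := congrFun h0 0
    simp at this
  have hN : 1 - D * (L : ℤ) ^ 2 ≠ 0 := by
    have := nf_ne hD hz
    simpa [nf] using this
  have hNL : IsCoprime (1 - D * (L : ℤ) ^ 2) (L : ℤ) := ⟨1, D * L, by ring⟩
  have hk1 : InvL X0 L D (km D ![1, (L : ℤ)]) (F D ![1, (L : ℤ)]) :=
    invl_km hD hz (by simpa using isCoprime_one_left) (by simp)
  have h1 := invl_mul hD (invl_mul hD (invl_adj hD hk1) (invl_adj hD h)) hk1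
  have hs : F D ![1, (L : ℤ)] * 1 * F D ![1, (L : ℤ)] = 1 := by
    rw [mul_one, F_mul_self hD hz]
  rw [hs] at h1
  have e : (km D ![1, (L : ℤ)]).adjugate * (LQ ((1 - D * (L : ℤ) ^ 2) * a) b).adjugate *
      km D ![1, (L : ℤ)] = (1 - D * (L : ℤ) ^ 2) • UT L a b := by
    rw [adj_lq]
    ext i j
    fin_cases i <;> fin_cases j <;>
      simp [LQ, UT, km, Matrix.adjugate_fin_two, Matrix.mul_apply, Fin.sum_univ_two, -mul_eq_mul_left_iff,
        -mul_eq_mul_right_iff, -add_left_inj, -add_right_inj] <;> ring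
  rw [e] at h1
  exact (invl_smul hN hNL).1 h1

end Pool.Agent.CQG
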