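import Pool.Agent.CQG.Ga
import Pool.Agent.CQG.Hb

set_option autoImplicit false

/-!
# Module Gb (size 4): a congruence subgroup is contained in the invariance group of the class

Compare `Pool/Agent/CQF/Ggb.lean`. Put `k' = k L²`, `D' = D L²`, `K0 = 24 k'² |D'| L²`. `γ = (a b; c d)`, `det = 1`, `γ ≡ 1`
mod `K0`. If `b = 0`: `γ = LQ c 1`, `k ∣ c`. If `b ≠ 0` put (conjugate by `(1 0; 1/L 1)`)
`a' = a - b/L`, `c' = c + (a - d)/L - b/L²`, `d' = d + b/L` (exact divisions), `a' d' - b c' = 1`. `a' ≡ 1`, `b ≡ 0` mod `24 k'² |D'|`,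
`a'` coprime to `b`; `loc_solve2 D' k' a' b` gives `x, Y` with `k' ∣ Y`, `x` coprime to `D'` (so to `L`),
`A := (1 + xY)² - D' Y² = a' + k' b n`; `A ≠ 0` (`nf_ne` for `D'`, which is not a square, or directly). `A ≡ 1` mod `k'²`: `A = 1 + k'² z`.
With `c2 = c' + d' k' n` (`k' ∣ c'`):
`UT L k 1 * LQ (k' z) 1 * UT L (-k) A * LQ (k' (-(z A))) 1 * LQ (c2 A) 1 * UT L (b/L²) A * LQ (k' (-n)) 1 = A² • γ`
(checked numerically; the product of the first four factors is `!![A², 0; -((A² - 1)/L), 1]`, where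
`A² - 1 = L * (k² L³ z (A + 1))`).
All factors are in the group: `LQ (k' m) 1` by `lqL_int` (`k ∣ k'`); `UT L k 1` by `uz` from `LQ ((1 - D L²) k) 1`;
`UT L (k e) A` by `uz` from `LQ ((1 - D L²) k e) A`, which is `lqL_div` (with `b = 1`; `k L ∣ k' ∣ Y`) applied to
`LQ (k ((1 - D L²) e)) 1`; `b/L² ∈ k ℤ`. Finally `invl_smul` with `A²`, coprime to `L` as `A ≡ 1` mod `L`.
-/

open Matrix Pool.Agent.CQF

namespace Pool.Agent.CQG

private theorem Gb_mul {X0 : Set (Fin 2 → ℤ)} {L : ℕ} {D : ℤ} (hD : ¬ IsSquare D) {h h' : M2}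
    (h1 : InvL X0 L D h 1) (h2 : InvL X0 L D h' 1) : InvL X0 L D (h * h') 1 := by
  have := invl_mul hD h1 h2
  rwa [one_mul] at this

private theorem Gb_diag (L : ℕ) (k z A : ℤ) (hA : A = 1 + (k * (L : ℤ) ^ 2) ^ 2 * z) :
    UT L k 1 * LQ (k * (L : ℤ) ^ 2 * z) 1 * UT L (-k) A * LQ (k * (L : ℤ) ^ 2 * (-(z * A))) 1 =
      !![A ^ 2, 0; -(k ^ 2 * (L : ℤ) ^ 3 * z * (A + 1)), 1] := by
  subst hA
  ext i j
  fin_cases i <;> fin_cases j <;> simp [LQ, UT, Matrix.mul_apply, Fin.sum_univ_two] <;> ring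

private theorem Gb_prod (L : ℕ) (hL : (L : ℤ) ≠ 0) (a' c' d' b0 n A k g m : ℤ)
    (h1 : A = a' + k * ((L : ℤ) ^ 2 * b0) * n) (h2 : a' * d' - (L : ℤ) ^ 2 * b0 * c' = 1)
    (h3 : (L : ℤ) ^ 2 * g = a' - d' + 2 * L * b0) (hm : m * L = A ^ 2 - 1) :
    (!![A ^ 2, 0; -m, 1] : M2) * LQ ((c' + d' * (k * n)) * A) 1 * UT L b0 A * LQ (k * (-n)) 1 =
      A ^ 2 • (!![a' + L * b0, (L : ℤ) ^ 2 * b0; c' - L * g + b0, d' - L * b0] : M2) := by
  have h8 : (c' + d' * (k * n)) * ((L : ℤ) ^ 2 * b0) + 1 = A * d' := by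
    rw [h1]; linear_combination -h2
  ext i j
  fin_cases i <;> fin_cases j <;>
    simp only [LQ, UT, Matrix.mul_apply, Fin.sum_univ_two, Matrix.smul_apply, smul_eq_mul,
      Fin.zero_eta, Fin.mk_one, Matrix.of_apply, Matrix.cons_val', Matrix.cons_val_zero,
      Matrix.cons_val_one, Matrix.cons_val_fin_one]
  · linear_combination A ^ 2 * h1
  · ring
  · apply mul_left_cancel₀ hL
    linear_combination (-(A + L * b0) + k * n * (L : ℤ) ^ 2 * b0) * hm + A ^ 2 * h3 +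
      (A - L * k * n * A) * h8 - A ^ 2 * h1
  · linear_combination A * h8 + (-(L : ℤ) * b0) * hm

theorem gammaL_inv {X0 : Set (Fin 2 → ℤ)} {L : ℕ} (hL : 1 ≤ L) {D : ℤ} (hD : ¬ IsSquare D) {k : ℕ}
    (hk1 : 1 ≤ k) (hk : InvL X0 L D (Tk k) 1) {γ : M2}
    (hγ : γ 0 0 * γ 1 1 - γ 0 1 * γ 1 0 = 1)
    (hc : Cg (24 * (k * L ^ 2) ^ 2 * (D.natAbs * L ^ 2) * L ^ 2) γ 1) : InvL X0 L D γ 1 := by
  have hD0 : D ≠ 0 := by
    rintro rfl
    exact hD ⟨0, by ring⟩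
  have hk0 : (1 : ℤ) ≤ k := by exact_mod_cast hk1
  have hL0 : (1 : ℤ) ≤ L := by exact_mod_cast hL
  have hLne : (L : ℤ) ≠ 0 := by omega
  have habs : 1 ≤ |D| := Int.one_le_abs hD0
  have h00 := hc 0 0
  have h01 := hc 0 1
  have h10 := hc 1 0
  have h11 := hc 1 1
  push_cast at h00 h01 h10 h11
  rw [Matrix.one_apply_eq] at h00 h11
  rw [Matrix.one_apply_ne (by decide), sub_zero] at h01 h10
  obtain ⟨a, b, c, d, rfl⟩ : ∃ a b c d, γ = !![a, b; c, d] := ⟨_, _, _, _, Matrix.eta_fin_two γ⟩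
  simp only [Matrix.of_apply, Matrix.cons_val', Matrix.cons_val_zero, Matrix.cons_val_one,
    Matrix.cons_val_fin_one] at hγ h00 h01 h10 h11
  have hI : ∀ n : ℤ, InvL X0 L D (LQ (k * n) 1) 1 := fun n => lqL_int hD hk n
  set K1 : ℤ := 24 * (k * (L : ℤ) ^ 2) ^ 2 * (|D| * (L : ℤ) ^ 2) with hK1
  have hk2 : ((k : ℤ) * (L : ℤ) ^ 2) ^ 2 ∣ K1 := ⟨24 * (|D| * (L : ℤ) ^ 2), by rw [hK1]; ring⟩
  have hkk : ((k : ℤ) * (L : ℤ) ^ 2) ∣ K1 := (dvd_pow_self _ two_ne_zero).trans hk2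
  have hkK : (k : ℤ) ∣ K1 := (Dvd.intro _ rfl).trans hkk
  obtain ⟨e1, he1⟩ := h00
  obtain ⟨e2, he2⟩ := h01
  obtain ⟨e3, he3⟩ := h10
  obtain ⟨e4, he4⟩ := h11
  by_cases hb0 : b = 0
  · subst hb0
    have hu : a * d = 1 := by linear_combination hγ
    have ha : a = 1 ∧ d = 1 := by
      rcases Int.eq_one_or_neg_one_of_mul_eq_one' hu with h | h
      · exact h
      · exfalso
        obtain ⟨rfl, -⟩ := h
        have h5 : (24 : ℤ) ∣ 2 := by
          refine ⟨-((k * (L : ℤ) ^ 2) ^ 2 * (|D| * (L : ℤ) ^ 2) * (L : ℤ) ^ 2 * e1), ?_⟩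
          rw [hK1] at he1
          linear_combination -he1
        omega
    obtain ⟨rfl, rfl⟩ := ha
    obtain ⟨c2, hc2⟩ := hkK
    have := hI (c2 * (L : ℤ) ^ 2 * e3)
    have e : (k : ℤ) * (c2 * (L : ℤ) ^ 2 * e3) = c := by rw [he3, hc2]; ring
    rw [e] at this
    exact this
  · obtain ⟨b0, hb⟩ : ∃ b0, b0 = K1 * e2 := ⟨_, rfl⟩
    obtain ⟨g, hg⟩ : ∃ g, g = K1 * (e1 - e4) := ⟨_, rfl⟩
    have eb : b = (L : ℤ) ^ 2 * b0 := by rw [hb, he2]; ring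
    have eg : (L : ℤ) ^ 2 * g = a - d := by rw [hg]; linear_combination he4 - he1
    obtain ⟨a', ha'⟩ : ∃ a', a' = a - L * b0 := ⟨_, rfl⟩
    obtain ⟨c', hc'⟩ : ∃ c', c' = c + L * g - b0 := ⟨_, rfl⟩
    obtain ⟨d', hd'⟩ : ∃ d', d' = d + L * b0 := ⟨_, rfl⟩
    have hdet : a' * d' - (L : ℤ) ^ 2 * b0 * c' = 1 := by
      rw [ha', hd', hc']
      rw [eb] at hγ
      linear_combination hγ - L * b0 * eg
    have h3 : (L : ℤ) ^ 2 * g = a' - d' + 2 * L * b0 := by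
      rw [eg, ha', hd']; ring
    have hab : IsCoprime a' b := ⟨d', -c', by rw [eb]; linear_combination hdet⟩
    have habs' : |D * (L : ℤ) ^ 2| = |D| * (L : ℤ) ^ 2 := by
      rw [abs_mul, abs_of_nonneg (by positivity : (0 : ℤ) ≤ (L : ℤ) ^ 2)]
    have hDL0 : D * (L : ℤ) ^ 2 ≠ 0 := mul_ne_zero hD0 (pow_ne_zero 2 hLne)
    have hkL1 : 1 ≤ k * L ^ 2 := Nat.succ_le_of_lt (by positivity)
    have hK1' : 24 * ((k * L ^ 2 : ℕ) : ℤ) ^ 2 * |D * (L : ℤ) ^ 2| = K1 := by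
      rw [habs', hK1]; push_cast; ring
    obtain ⟨x, Y, hY, hn, hx⟩ := loc_solve2 (D * (L : ℤ) ^ 2) hDL0 (k * L ^ 2) hkL1 a' b hb0 hab
      (by
        rw [hK1', ha']
        exact ⟨(L : ℤ) ^ 2 * e1 - L * e2, by rw [hb]; linear_combination he1⟩)
      (by
        rw [hK1']
        exact ⟨(L : ℤ) ^ 2 * e2, by rw [he2]; ring⟩)
    push_cast at hY hn
    obtain ⟨n, hn⟩ := hn
    obtain ⟨A, hA⟩ : ∃ A, A = (1 + x * Y) ^ 2 - D * (L : ℤ) ^ 2 * Y ^ 2 := ⟨_, rfl⟩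
    rw [← hA] at hn
    have hA1 : A = a' + (k * (L : ℤ) ^ 2) * ((L : ℤ) ^ 2 * b0) * n := by
      rw [← eb]; linear_combination hn
    have hA0 : A ≠ 0 := by
      have hv : (![1 + x * Y, L * Y] : Fin 2 → ℤ) ≠ 0 := by
        intro h
        have q0 := congrFun h 0
        have q1 := congrFun h 1
        simp only [Matrix.cons_val_zero, Matrix.cons_val_one, Pi.zero_apply,
          Matrix.cons_val_fin_one, mul_eq_zero] at q0 q1
        rcases q1 with q1 | q1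
        · exact hLne q1
        · rw [q1] at q0
          norm_num at q0
      have := nf_ne hD hv
      simp only [nf, Matrix.cons_val_zero, Matrix.cons_val_one, Matrix.cons_val_fin_one] at this
      rw [hA]
      intro h0
      apply this
      rw [← h0]
      ring
    obtain ⟨z, hz⟩ : ((k : ℤ) * (L : ℤ) ^ 2) ^ 2 ∣ A - 1 := by
      have e : A - 1 = K1 * ((L : ℤ) ^ 2 * e1 - L * e2 +
          (k * (L : ℤ) ^ 2) * ((L : ℤ) ^ 2 * e2) * n) := by
        rw [hA1, ha', hb]; linear_combination he1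
      rw [e]
      exact hk2.mul_right _
    have hA2 : A = 1 + ((k : ℤ) * (L : ℤ) ^ 2) ^ 2 * z := by linear_combination hz
    obtain ⟨K2, hK2⟩ := hkK
    obtain ⟨K3, hK3⟩ := hkk
    have hxL : IsCoprime x (L : ℤ) := by
      have q1 : IsCoprime x ((L : ℤ) ^ 2) := hx.of_mul_right_right
      exact (IsCoprime.pow_right_iff (by norm_num)).1 q1
    have hYL : ((k : ℤ) * L) ∣ Y := by
      refine Dvd.dvd.trans ?_ hY
      exact ⟨L, by ring⟩
    have hU1 : InvL X0 L D (UT L k 1) 1 := by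
      apply uz hL hD one_ne_zero
      rw [mul_comm]
      exact hI _
    have hU2 : ∀ e : ℤ, InvL X0 L D (UT L (k * e) A) 1 := by
      intro e
      apply uz hL hD hA0
      have h5 := lqL_div hL hD hk hYL hxL one_ne_zero (hI ((1 - D * (L : ℤ) ^ 2) * e))
      rw [← hA, mul_one] at h5
      have h6 : (1 - D * (L : ℤ) ^ 2) * (k * e) = k * ((1 - D * (L : ℤ) ^ 2) * e) := by ring
      rw [h6]
      exact h5
    have hU2' : InvL X0 L D (UT L (-k) A) 1 := by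
      have := hU2 (-1)
      rwa [mul_neg, mul_one] at this
    have hU3 : InvL X0 L D (UT L b0 A) 1 := by
      have e : b0 = k * (K2 * e2) := by rw [hb, hK2]; ring
      rw [e]
      exact hU2 _
    have hI2 : ∀ n : ℤ, InvL X0 L D (LQ (k * (L : ℤ) ^ 2 * n) 1) 1 := by
      intro n
      have := hI ((L : ℤ) ^ 2 * n)
      rwa [← mul_assoc] at this
    have hd : InvL X0 L D
        (!![A ^ 2, 0; -((k : ℤ) ^ 2 * (L : ℤ) ^ 3 * z * (A + 1)), 1] : M2) 1 := by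
      rw [← Gb_diag L k z A hA2]
      exact Gb_mul hD (Gb_mul hD (Gb_mul hD hU1 (hI2 z)) hU2') (hI2 _)
    have hcc : InvL X0 L D (LQ ((c' + d' * (k * (L : ℤ) ^ 2 * n)) * A) 1) 1 := by
      have : (c' + d' * (k * (L : ℤ) ^ 2 * n)) * A =
          k * (L : ℤ) ^ 2 * ((K3 * ((L : ℤ) ^ 2 * e3 + L * (e1 - e4) - e2) + d' * n) * A) := by
        rw [hc', he3, hg, hb, hK3]; ring
      rw [this]
      exact hI2 _
    have hfin := Gb_mul hD (Gb_mul hD (Gb_mul hD hd hcc) hU3) (hI2 (-n))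
    rw [Gb_prod L hLne a' c' d' b0 n A (k * (L : ℤ) ^ 2) g _ hA1 hdet h3
      (by rw [hA2]; ring)] at hfin
    have hAL : IsCoprime (A ^ 2) (L : ℤ) := by
      apply IsCoprime.pow_left
      exact ⟨1, -((k : ℤ) ^ 2 * (L : ℤ) ^ 3 * z), by rw [hA2]; ring⟩
    rw [invl_smul (pow_ne_zero 2 hA0) hAL] at hfin
    have q : (!![a' + L * b0, (L : ℤ) ^ 2 * b0; c' - L * g + b0, d' - L * b0] : M2) =
        !![a, b; c, d] := by
      rw [← eb]
      have q1 : a' + L * b0 = a := by rw [ha']; ring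
      have q2 : c' - L * g + b0 = c := by rw [hc']; ring
      have q3 : d' - L * b0 = d := by rw [hd']; ring
      rw [q1, q2, q3]
    rw [q] at hfin
    exact hfin

end Pool.Agent.CQG
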