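import Pool.Agent.CQG.Cdf
import Pool.Agent.CQF.Ivc

set_option autoImplicit false

/-!
# Module Iva (size 3): calculus of the approximate invariance group in a class

Copy of `Pool/Agent/CQF/Ivc.lean` with the sets intersected with `Cls L`.
* `scl_mul`, `scl_adj`: multiply / take the adjugate of scalars mod `L`. `det h ≡ u²` mod `L`, so `det h` is coprime to `L`.
* `cls_step`: `v` primitive, `v h = c w`: `c ∣ det h` (`det h • v = (v h) adj h = c (w adj h)`, `v` primitive), so `c` is coprime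
  to `L`; `(v h) 0 = v₀ h00 + v₁ h10 ≡ 0` mod `L`, so `L ∣ c w₀`, `L ∣ w₀`.
* product: for primitive `v ∈ Dst (h h') (η η') ∩ Cls L`: `v ∈ Dst h η` or (`v h = c w`, `w` primitive) `w ∈ Dst h' η'`, and
  `w ∈ Cls L` by `cls_step`. `ms_union`, `trf h` exactly as in `Ivc.lean`.
* `adj h`: `v adj h = c w`, `c (w h) = (det h) v`; `w ∈ Cls L` by `cls_step` for `adj h`.
* `invl_smul`: `F (v (c h)) = F (v h)`; `Scl L (c • h) ↔ Scl L h` for `c` coprime to `L` (for `→`: `h ≡ c⁻¹ u`).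
-/

open Matrix Pool.Agent.CQF

namespace Pool.Agent.CQG

theorem scl_mul {L : ℕ} {h h' : M2} (h1 : Scl L h) (h2 : Scl L h') : Scl L (h * h') := by
  obtain ⟨u, hu, a1, a2, a3, a4⟩ := h1
  obtain ⟨u', hu', b1, b2, b3, b4⟩ := h2
  refine ⟨u * u', IsCoprime.mul_left hu hu', ?_, ?_, ?_, ?_⟩
  · have e : (h * h') 0 0 - u * u' = (h 0 0 - u) * h' 0 0 + u * (h' 0 0 - u') + h 0 1 * h' 1 0 := by
      rw [Matrix.mul_apply, Fin.sum_univ_two]; ring
    rw [e]
    exact dvd_add (dvd_add (Dvd.dvd.mul_right a1 _) (Dvd.dvd.mul_left b1 _))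
      (Dvd.dvd.mul_right a3 _)
  · have e : (h * h') 1 1 - u * u' = (h 1 1 - u) * h' 1 1 + u * (h' 1 1 - u') + h 1 0 * h' 0 1 := by
      rw [Matrix.mul_apply, Fin.sum_univ_two]; ring
    rw [e]
    exact dvd_add (dvd_add (Dvd.dvd.mul_right a2 _) (Dvd.dvd.mul_left b2 _))
      (Dvd.dvd.mul_right a4 _)
  · rw [Matrix.mul_apply, Fin.sum_univ_two]
    exact dvd_add (Dvd.dvd.mul_left b3 _) (Dvd.dvd.mul_right a3 _)
  · rw [Matrix.mul_apply, Fin.sum_univ_two]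
    exact dvd_add (Dvd.dvd.mul_right a4 _) (Dvd.dvd.mul_left b4 _)

theorem scl_adj {L : ℕ} {h : M2} (h1 : Scl L h) : Scl L h.adjugate := by
  obtain ⟨u, hu, a1, a2, a3, a4⟩ := h1
  rw [Matrix.adjugate_fin_two]
  refine ⟨u, hu, ?_, ?_, ?_, ?_⟩
  · simpa using a2
  · simpa using a1
  · simpa using a3
  · simpa using a4

private theorem iva_det {L : ℕ} {h : M2} (h1 : Scl L h) : IsCoprime h.det (L : ℤ) := by
  obtain ⟨u, hu, a1, a2, a3, a4⟩ := h1
  obtain ⟨k1, e1⟩ := a1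
  obtain ⟨k2, e2⟩ := a2
  obtain ⟨k3, e3⟩ := a3
  have e : h.det = u * u + L * (k1 * u + u * k2 + L * k1 * k2 - k3 * h 1 0) := by
    rw [Matrix.det_fin_two, e3, show h 0 0 = L * k1 + u by linarith,
      show h 1 1 = L * k2 + u by linarith]
    ring
  rw [e]
  exact (IsCoprime.add_mul_left_left_iff).2 (IsCoprime.mul_left hu hu)

theorem cls_step {L : ℕ} {h : M2} (h1 : Scl L h) {v w : Fin 2 → ℤ} {c : ℤ} (hv : Prm v)
    (hL : v ∈ Cls L) (hc : v ᵥ* h = c • w) : w ∈ Cls L := by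
  have hd := iva_det h1
  have e1 : c • (w ᵥ* h.adjugate) = h.det • v := by
    rw [← Matrix.smul_vecMul, ← hc, Matrix.vecMul_vecMul, Matrix.mul_adjugate,
      Matrix.vecMul_smul, Matrix.vecMul_one]
  have c0 : c ∣ h.det * v 0 := by
    have := congrFun e1 0
    simp only [Pi.smul_apply, smul_eq_mul] at this
    exact ⟨_, this.symm⟩
  have c1 : c ∣ h.det * v 1 := by
    have := congrFun e1 1
    simp only [Pi.smul_apply, smul_eq_mul] at this
    exact ⟨_, this.symm⟩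
  have hp : IsCoprime (v 0) (v 1) := Int.isCoprime_iff_gcd_eq_one.2 hv
  have cd : c ∣ h.det := by
    obtain ⟨a, b, hab⟩ := hp
    have e : h.det = a * (h.det * v 0) + b * (h.det * v 1) := by
      calc h.det = h.det * (a * v 0 + b * v 1) := by rw [hab, mul_one]
        _ = _ := by ring
    rw [e]
    exact dvd_add (Dvd.dvd.mul_left c0 _) (Dvd.dvd.mul_left c1 _)
  have hcL : IsCoprime c (L : ℤ) := IsCoprime.of_isCoprime_of_dvd_left hd cd
  obtain ⟨u, hu, a1, a2, a3, a4⟩ := h1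
  have e2 : c * w 0 = v 0 * h 0 0 + v 1 * h 1 0 := by
    have := congrFun hc 0
    rw [Matrix.vecMul_eq_sum] at this
    simp only [Fin.sum_univ_two, Pi.add_apply, Pi.smul_apply, smul_eq_mul] at this
    exact this.symm
  have e3 : (L : ℤ) ∣ c * w 0 := by
    rw [e2]
    exact dvd_add (Dvd.dvd.mul_right hL _) (Dvd.dvd.mul_left a4 _)
  exact hcL.symm.dvd_of_dvd_mul_left e3

theorem invl_mul {X0 : Set (Fin 2 → ℤ)} {L : ℕ} {D : ℤ} (hD : ¬ IsSquare D) {h h' : M2} {η η' : ℤ}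
    (h1 : InvL X0 L D h η) (h2 : InvL X0 L D h' η') : InvL X0 L D (h * h') (η * η') := by
  obtain ⟨c1, d1, s1, A1, a1, H1⟩ := h1
  obtain ⟨c2, d2, s2, A2, a2, H2⟩ := h2
  obtain ⟨A3, a3, H3⟩ := trf h d1
  refine ⟨scl_mul c1 c2, by rw [Matrix.det_mul]; exact mul_ne_zero d1 d2, ?_, A1 + A3 * A2,
    by nlinarith, ?_⟩
  · rcases s1 with s1 | s1 <;> rcases s2 with s2 | s2 <;> rw [s1, s2] <;> norm_num
  intro N1 N2 hN1 hN2
  have u1 : ms (Dst D (h * h') (η * η') ∩ Cls L) N1 N2 ≤ ms (Dst D h η ∩ Cls L) N1 N2 +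
      ms ({v | F D (v ᵥ* (h * h')) ≠ η' * F D (v ᵥ* h)} ∩ Cls L) N1 N2 := by
    apply ms_union
    rintro v _ ⟨hv, hvL⟩
    by_contra hc
    rw [not_or] at hc
    obtain ⟨c1, c2⟩ := hc
    simp only [Dst, Set.mem_inter_iff, Set.mem_setOf_eq, hvL, and_true, not_not] at c1 c2 hv
    apply hv
    rw [c2, c1]; ring
  have u2 := H3 ({v | F D (v ᵥ* (h * h')) ≠ η' * F D (v ᵥ* h)} ∩ Cls L) (Dst D h' η' ∩ Cls L) (by
    rintro v w c hv1 _ hc hvw ⟨hv, hvL⟩
    refine ⟨?_, cls_step c1 hv1 hvL hvw⟩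
    simp only [Dst, Set.mem_setOf_eq] at hv ⊢
    rw [← Matrix.vecMul_vecMul, hvw, Matrix.smul_vecMul, F_smul D hc.ne', F_smul D hc.ne'] at hv
    exact hv) N1 N2 hN1 hN2
  have u3 := ivc_aux a2 a3 H2 hN1 hN2
  have u4 := H1 N1 N2 hN1 hN2
  have hpos : 1 ≤ A3 * A2 := by nlinarith
  have u5 := ivc_grow (X0 := X0) a1 (show A1 ≤ A1 + A3 * A2 by linarith) hN1 hN2
  have u6 := ivc_grow (X0 := X0) hpos (show A3 * A2 ≤ A1 + A3 * A2 by linarith) hN1 hN2
  calc ms (Dst D (h * h') (η * η') ∩ Cls L) N1 N2 ≤ A1 * ms X0 (N1 / A1) (A1 * N2) +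
        (A3 * A2) * ms X0 (N1 / (A3 * A2)) ((A3 * A2) * N2) := by linarith
    _ ≤ A1 * ms X0 (N1 / (A1 + A3 * A2)) ((A1 + A3 * A2) * N2) +
        (A3 * A2) * ms X0 (N1 / (A1 + A3 * A2)) ((A1 + A3 * A2) * N2) :=
        add_le_add (mul_le_mul_of_nonneg_left u5 (by linarith))
          (mul_le_mul_of_nonneg_left u6 (by linarith))
    _ = _ := by ring

theorem invl_adj {X0 : Set (Fin 2 → ℤ)} {L : ℕ} {D : ℤ} (hD : ¬ IsSquare D) {h : M2} {η : ℤ}
    (h1 : InvL X0 L D h η) : InvL X0 L D h.adjugate η := by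
  obtain ⟨c1, d1, s1, A1, a1, H1⟩ := h1
  have hdet : h.adjugate.det ≠ 0 := by
    rw [Matrix.det_adjugate]
    simpa using d1
  obtain ⟨A3, a3, H3⟩ := trf h.adjugate hdet
  refine ⟨scl_adj c1, hdet, s1, A3 * A1, by nlinarith, ?_⟩
  intro N1 N2 hN1 hN2
  refine le_trans ?_ (ivc_aux a1 a3 H1 hN1 hN2)
  apply H3 _ _ _ N1 N2 hN1 hN2
  rintro v w c hv1 _ hc hvw ⟨hv, hvL⟩
  refine ⟨?_, cls_step (scl_adj c1) hv1 hvL hvw⟩
  simp only [Dst, Set.mem_setOf_eq] at hv ⊢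
  intro hw
  apply hv
  have e1 : c • (w ᵥ* h) = h.det • v := by
    rw [← Matrix.smul_vecMul, ← hvw, Matrix.vecMul_vecMul, Matrix.adjugate_mul,
      Matrix.vecMul_smul, Matrix.vecMul_one]
  have e2 : F D (w ᵥ* h) = F D v := by
    rw [← F_smul D hc.ne' (w ᵥ* h), e1, F_smul D d1]
  rw [hvw, F_smul D hc.ne', ← e2, hw]
  rcases s1 with s1 | s1 <;> rw [s1] <;> ring

private theorem iva_sc {L : ℕ} {c : ℤ} (hcL : IsCoprime c (L : ℤ)) {h : M2} :
    Scl L (c • h) ↔ Scl L h := by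
  constructor
  · rintro ⟨u, hu, a1, a2, a3, a4⟩
    simp only [Matrix.smul_apply, smul_eq_mul] at a1 a2 a3 a4
    obtain ⟨a, b, hab⟩ := id hcL
    have haL : IsCoprime a (L : ℤ) := ⟨c, b, by rw [mul_comm c a]; exact hab⟩
    refine ⟨a * u, IsCoprime.mul_left haL hu, ?_, ?_, ?_, ?_⟩
    · have e : h 0 0 - a * u = a * (c * h 0 0 - u) + L * (b * h 0 0) := by
        calc h 0 0 - a * u = (a * c + b * L) * h 0 0 - a * u := by rw [hab, one_mul]
          _ = _ := by ring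
      rw [e]
      exact dvd_add (Dvd.dvd.mul_left a1 _) (dvd_mul_right _ _)
    · have e : h 1 1 - a * u = a * (c * h 1 1 - u) + L * (b * h 1 1) := by
        calc h 1 1 - a * u = (a * c + b * L) * h 1 1 - a * u := by rw [hab, one_mul]
          _ = _ := by ring
      rw [e]
      exact dvd_add (Dvd.dvd.mul_left a2 _) (dvd_mul_right _ _)
    · exact hcL.symm.dvd_of_dvd_mul_left a3
    · exact hcL.symm.dvd_of_dvd_mul_left a4
  · rintro ⟨u, hu, a1, a2, a3, a4⟩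
    refine ⟨c * u, IsCoprime.mul_left hcL hu, ?_, ?_, ?_, ?_⟩
    · have e : (c • h) 0 0 - c * u = c * (h 0 0 - u) := by
        simp only [Matrix.smul_apply, smul_eq_mul]; ring
      rw [e]; exact Dvd.dvd.mul_left a1 _
    · have e : (c • h) 1 1 - c * u = c * (h 1 1 - u) := by
        simp only [Matrix.smul_apply, smul_eq_mul]; ring
      rw [e]; exact Dvd.dvd.mul_left a2 _
    · simp only [Matrix.smul_apply, smul_eq_mul]; exact Dvd.dvd.mul_left a3 _
    · simp only [Matrix.smul_apply, smul_eq_mul]; exact Dvd.dvd.mul_left a4 _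

theorem invl_smul {X0 : Set (Fin 2 → ℤ)} {L : ℕ} {D : ℤ} {c : ℤ} (hc : c ≠ 0)
    (hcL : IsCoprime c (L : ℤ)) {h : M2} {η : ℤ} : InvL X0 L D (c • h) η ↔ InvL X0 L D h η := by
  have e1 : Dst D (c • h) η = Dst D h η := by
    ext v
    simp only [Dst, Set.mem_setOf_eq]
    rw [Matrix.vecMul_smul, F_smul D hc]
  have e2 : (c • h).det ≠ 0 ↔ h.det ≠ 0 := by
    rw [Matrix.det_smul]
    constructor
    · intro h1 h2
      exact h1 (by rw [h2, mul_zero])
    · intro h1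
      exact mul_ne_zero (pow_ne_zero _ hc) h1
  unfold InvL
  rw [e1, e2, iva_sc hcL]

theorem invl_km {X0 : Set (Fin 2 → ℤ)} {L : ℕ} {D : ℤ} (hD : ¬ IsSquare D) {x : Fin 2 → ℤ}
    (hx : x ≠ 0) (h0 : IsCoprime (x 0) (L : ℤ)) (h1 : (L : ℤ) ∣ x 1) :
    InvL X0 L D (km D x) (F D x) := by
  refine ⟨⟨x 0, h0, ?_, ?_, ?_, ?_⟩, by rw [det_km]; exact nf_ne hD hx, F_pm hD hx, 1, le_rfl, ?_⟩
  · simp [km]
  · simp [km]
  · simpa [km] using h1
  · simpa [km] using Dvd.dvd.mul_left h1 D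
  intro N1 N2 _ _
  have e1 : Dst D (km D x) (F D x) ∩ Cls L = ∅ := by
    ext v
    simp only [Dst, Set.mem_inter_iff, Set.mem_setOf_eq, Set.mem_empty_iff_false, iff_false,
      not_and]
    intro h
    exact absurd (by rw [F_km, mul_comm]) h
  rw [e1, ivc_empty, one_mul]
  exact ms_nonneg _ _ _

theorem invl_one {X0 : Set (Fin 2 → ℤ)} {L : ℕ} {D : ℤ} : InvL X0 L D 1 1 := by
  refine ⟨⟨1, isCoprime_one_left, by simp, by simp, by simp, by simp⟩,
    by rw [Matrix.det_one]; exact one_ne_zero, Or.inl rfl, 1, le_rfl, ?_⟩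
  intro N1 N2 _ _
  have e1 : Dst D 1 1 ∩ Cls L = ∅ := by
    ext v
    simp only [Dst, Set.mem_inter_iff, Set.mem_setOf_eq, Set.mem_empty_iff_false, iff_false,
      not_and]
    intro h
    exact absurd (by rw [Matrix.vecMul_one, one_mul]) h
  rw [e1, ivc_empty, one_mul]
  exact ms_nonneg _ _ _

theorem invl_pow {X0 : Set (Fin 2 → ℤ)} {L : ℕ} {D : ℤ} (hD : ¬ IsSquare D) {h : M2}
    (h1 : InvL X0 L D h 1) (n : ℕ) : InvL X0 L D (h ^ n) 1 := by
  induction n with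
  | zero => rw [pow_zero]; exact invl_one
  | succ n ih =>
    rw [pow_succ]
    have := invl_mul hD ih h1
    rwa [one_mul] at this

end Pool.Agent.CQG
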