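import Pool.Agent.CQG.Cdf

set_option autoImplicit false

/-!
# Module Na (size 4): base relation in a residue class for two arbitrary irreducible forms

Compare `Pool/Agent/CQF/Gna.lean`. `D = b1² - 4 a1 c1`, `q = (r, s)`, `r, s` coprime, `c' = Q1(q) = a1 r² + b1 r s + c1 s²`; `c' ≠ 0`
(`D` is not a square). `p = (-(b1 r + 2 c1 s), 2 a1 r + b1 s)`, `g0 = !![p0, p1; D r, D s]`, `det g0 = D (p0 s - p1 r) = -2 c' D ≠ 0`.
* `Q1(v g0) = -D c' nf D v` (ring identity).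
* `L = |D| * (2 |c'|) * N`. Let `v` be primitive, `L ∣ v₀`; then `v₁` is coprime to `L`. Write `v₀ = D v₀'`, `2 c' N ∣ v₀'`, and
  `w = v₀' p + v₁ q`, so `v g0 = D • w`. `w` is primitive: let a prime `ℓ` divide `w₀, w₁`; it divides
  `w₀ s - w₁ r = v₀' (p0 s - p1 r) = -2 c' v₀'` and `p0 w₁ - p1 w₀ = v₁ (p0 s - p1 r) = -2 c' v₁` (up to sign). If `ℓ ∤ 2c'` then `ℓ ∣ v₀', v₁`: contradiction.
  If `ℓ ∣ 2 c'` then `ℓ ∣ v₀'`, so `ℓ ∣ v₁ r, v₁ s`, so `ℓ ∣ v₁`, `ℓ ∣ v₀`: contradiction. `w ≡ v₁ (r, s)` mod `N`.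
* So if `v g0 = c • w'` with `w'` primitive, `c > 0`, then `c = |D|`, `w' = ± w`, and `w'` is in the class (`u = ± v₁`).
* `Q(v) = Q2(v g0) = α v₀² + β v₀ v₁ + γ v₁²`: `α = Q2(p)`, `β = D (2 a2 p0 r + b2 (p0 s + p1 r) + 2 c2 p1 s)`, `γ = D² Q2(q)`;
  `β² - 4αγ = (det g0)² (b2² - 4 a2 c2)` is not a square. `η = ε lam (-D c')`. For primitive `v`, `L ∣ v₀`, `lam (Q v) ≠ η F v`,
  `v g0 = c • w'`: `lam (Q v) = lam (Q2 w')`, `lam (-D c') F v = lam (Q1(v g0)) = lam (Q1 w')`, so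
  `lam (Q1 w' * Q2 w') = lam (-D c') F v lam (Q v) ≠ ε`: `w' ∈ X0c`. Use `trf g0`.
* If `β = 0` and `γ = -D α`: `Q2(v g0) = α nf D v`, so `D c' Q2(v g0) = -α Q1(v g0)` for all `v`, and (replace `v` by `w adj g0`)
  `D c' Q2 = -α Q1` (`det g0 ≠ 0`), so `Q2` is proportional to `Q1`: contradiction with `hnp`.
-/

open Matrix Pool.Agent.CQF

namespace Pool.Agent.CQG

private theorem na_mulsq {k d : ℤ} (hk : k ≠ 0) (h : ¬ IsSquare d) : ¬ IsSquare (k ^ 2 * d) := by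
  rintro ⟨r, hr⟩
  have h1 : k ^ 2 ∣ r ^ 2 := ⟨d, by rw [hr]; ring⟩
  have h2 : k ∣ r := (Int.pow_dvd_pow_iff two_ne_zero).1 h1
  obtain ⟨s, rfl⟩ := h2
  apply h
  refine ⟨s, ?_⟩
  have h3 : k ^ 2 * d = k ^ 2 * (s * s) := by rw [hr]; ring
  exact mul_left_cancel₀ (pow_ne_zero 2 hk) h3

private theorem na_coef {a1 b1 c1 a2 b2 c2 r s D c' p0 p1 α : ℤ}
    (hDdef : D = b1 ^ 2 - 4 * a1 * c1) (hcdef : c' = a1 * r ^ 2 + b1 * r * s + c1 * s ^ 2)
    (hp0 : p0 = -(b1 * r + 2 * c1 * s)) (hp1 : p1 = 2 * a1 * r + b1 * s)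
    (hα : α = a2 * p0 ^ 2 + b2 * p0 * p1 + c2 * p1 ^ 2)
    (hc : c' ≠ 0)
    (h1 : 2 * a2 * p0 * r + b2 * (p0 * s + p1 * r) + 2 * c2 * p1 * s = 0)
    (h2 : D * (a2 * r ^ 2 + b2 * r * s + c2 * s ^ 2) + α = 0) :
    D * c' * a2 + α * a1 = 0 ∧ D * c' * b2 + α * b1 = 0 ∧ D * c' * c2 + α * c1 = 0 := by
  have h4 : (4 * c' ^ 2 : ℤ) ≠ 0 := mul_ne_zero four_ne_zero (pow_ne_zero 2 hc)
  refine ⟨?_, ?_, ?_⟩
  · have e : 4 * c' ^ 2 * (D * c' * a2 + α * a1) = 0 := by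
      have e1 : 4 * c' ^ 2 * (D * c' * a2 + α * a1) =
          p1 ^ 2 * c' * (D * (a2 * r ^ 2 + b2 * r * s + c2 * s ^ 2) + α) -
          s * p1 * D * c' * (2 * a2 * p0 * r + b2 * (p0 * s + p1 * r) + 2 * c2 * p1 * s) := by
        rw [hα, hp0, hp1, hcdef, hDdef]
        ring
      rw [e1, h1, h2]
      ring
    rcases mul_eq_zero.1 e with h | h
    · exact absurd h h4
    · exact h
  · have e : 4 * c' ^ 2 * (D * c' * b2 + α * b1) = 0 := by
      have e1 : 4 * c' ^ 2 * (D * c' * b2 + α * b1) =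
          -2 * p1 * p0 * c' * (D * (a2 * r ^ 2 + b2 * r * s + c2 * s ^ 2) + α) +
          (s * p0 + p1 * r) * D * c' *
            (2 * a2 * p0 * r + b2 * (p0 * s + p1 * r) + 2 * c2 * p1 * s) := by
        rw [hα, hp0, hp1, hcdef, hDdef]
        ring
      rw [e1, h1, h2]
      ring
    rcases mul_eq_zero.1 e with h | h
    · exact absurd h h4
    · exact h
  · have e : 4 * c' ^ 2 * (D * c' * c2 + α * c1) = 0 := by
      have e1 : 4 * c' ^ 2 * (D * c' * c2 + α * c1) =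
          p0 ^ 2 * c' * (D * (a2 * r ^ 2 + b2 * r * s + c2 * s ^ 2) + α) -
          r * p0 * D * c' * (2 * a2 * p0 * r + b2 * (p0 * s + p1 * r) + 2 * c2 * p1 * s) := by
        rw [hα, hp0, hp1, hcdef, hDdef]
        ring
      rw [e1, h1, h2]
      ring
    rcases mul_eq_zero.1 e with h | h
    · exact absurd h h4
    · exact h

private theorem na_prm {r s p0 p1 t0 v0 v1 D c' w0 w1 : ℤ} (hrs : IsCoprime r s)
    (hdet : p0 * s - p1 * r = -2 * c') (hv : Int.gcd v0 v1 = 1) (hv0 : v0 = D * t0)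
    (ht : 2 * c' ∣ t0) (hw0 : w0 = t0 * p0 + v1 * r) (hw1 : w1 = t0 * p1 + v1 * s) :
    Int.gcd w0 w1 = 1 := by
  by_contra hne
  obtain ⟨l, hl, hld⟩ := Nat.exists_prime_and_dvd hne
  have hlz : Prime (l : ℤ) := Nat.prime_iff_prime_int.1 hl
  have d0 : (l : ℤ) ∣ w0 := (Int.natCast_dvd_natCast.2 hld).trans (Int.gcd_dvd_left _ _)
  have d1 : (l : ℤ) ∣ w1 := (Int.natCast_dvd_natCast.2 hld).trans (Int.gcd_dvd_right _ _)
  have key : (l : ℤ) ∣ t0 ∧ (l : ℤ) ∣ v1 := by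
    by_cases h : (l : ℤ) ∣ 2 * c'
    · have h1 : (l : ℤ) ∣ t0 := h.trans ht
      refine ⟨h1, ?_⟩
      have h2 : (l : ℤ) ∣ v1 * r := by
        have : v1 * r = w0 - t0 * p0 := by rw [hw0]; ring
        rw [this]
        exact dvd_sub d0 (h1.mul_right _)
      have h3 : (l : ℤ) ∣ v1 * s := by
        have : v1 * s = w1 - t0 * p1 := by rw [hw1]; ring
        rw [this]
        exact dvd_sub d1 (h1.mul_right _)
      obtain ⟨x, y, hxy⟩ := hrs
      have : v1 = x * (v1 * r) + y * (v1 * s) := by linear_combination -v1 * hxy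
      rw [this]
      exact dvd_add (h2.mul_left _) (h3.mul_left _)
    · have h1 : (l : ℤ) ∣ 2 * c' * t0 := by
        have : 2 * c' * t0 = w1 * r - w0 * s := by
          rw [hw0, hw1]
          linear_combination t0 * hdet
        rw [this]
        exact dvd_sub (d1.mul_right _) (d0.mul_right _)
      have h2 : (l : ℤ) ∣ 2 * c' * v1 := by
        have : 2 * c' * v1 = p1 * w0 - p0 * w1 := by
          rw [hw0, hw1]
          linear_combination v1 * hdet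
        rw [this]
        exact dvd_sub (d0.mul_left _) (d1.mul_left _)
      exact ⟨(hlz.dvd_or_dvd h1).resolve_left h, (hlz.dvd_or_dvd h2).resolve_left h⟩
  have h5 : (l : ℤ) ∣ (Int.gcd v0 v1 : ℤ) := by
    apply Int.dvd_coe_gcd
    · rw [hv0]
      exact key.1.mul_left _
    · exact key.2
  rw [hv] at h5
  exact hlz.not_isUnit (isUnit_of_dvd_one (by exact_mod_cast h5))

private theorem na_uniq {c D x0 x1 y0 y1 : ℤ} (hc : 0 < c) (hx : Int.gcd x0 x1 = 1)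
    (hy : Int.gcd y0 y1 = 1) (h0 : D * x0 = c * y0) (h1 : D * x1 = c * y1) :
    (y0 = x0 ∧ y1 = x1) ∨ (y0 = -x0 ∧ y1 = -x1) := by
  have e : D.natAbs = c.natAbs := by
    have e1 : Int.gcd (D * x0) (D * x1) = D.natAbs := by
      rw [Int.gcd_mul_left, hx, mul_one]
    have e2 : Int.gcd (c * y0) (c * y1) = c.natAbs := by
      rw [Int.gcd_mul_left, hy, mul_one]
    rw [← e1, ← e2, h0, h1]
  rcases Int.natAbs_eq_natAbs_iff.1 e with h | h
  · left
    rw [h] at h0 h1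
    exact ⟨(mul_left_cancel₀ hc.ne' h0).symm, (mul_left_cancel₀ hc.ne' h1).symm⟩
  · right
    rw [h] at h0 h1
    constructor
    · apply mul_left_cancel₀ hc.ne'
      linarith
    · apply mul_left_cancel₀ hc.ne'
      linarith

theorem base_nearL {a1 b1 c1 a2 b2 c2 ε r s : ℤ} {N : ℕ} (hN : 1 ≤ N) (hrs : IsCoprime r s)
    (hD : ¬ IsSquare (b1 ^ 2 - 4 * a1 * c1)) (hD2 : ¬ IsSquare (b2 ^ 2 - 4 * a2 * c2))
    (hnp : ¬ (a1 * b2 = a2 * b1 ∧ a1 * c2 = a2 * c1 ∧ b1 * c2 = b2 * c1))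
    (hε : ε = 1 ∨ ε = -1) :
    ∃ (L : ℕ) (α β γ η : ℤ), 1 ≤ L ∧ ¬ IsSquare (β ^ 2 - 4 * α * γ) ∧
      ¬ (β = 0 ∧ γ = -(b1 ^ 2 - 4 * a1 * c1) * α) ∧
      NearL (X0c a1 b1 c1 a2 b2 c2 ε r s N) L (b1 ^ 2 - 4 * a1 * c1) α β γ η := by
  obtain ⟨D, hDdef⟩ : ∃ D : ℤ, D = b1 ^ 2 - 4 * a1 * c1 := ⟨_, rfl⟩
  obtain ⟨c', hcdef⟩ : ∃ c' : ℤ, c' = a1 * r ^ 2 + b1 * r * s + c1 * s ^ 2 := ⟨_, rfl⟩
  obtain ⟨p0, hp0⟩ : ∃ p0 : ℤ, p0 = -(b1 * r + 2 * c1 * s) := ⟨_, rfl⟩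
  obtain ⟨p1, hp1⟩ : ∃ p1 : ℤ, p1 = 2 * a1 * r + b1 * s := ⟨_, rfl⟩
  obtain ⟨α, hα⟩ : ∃ α : ℤ, α = a2 * p0 ^ 2 + b2 * p0 * p1 + c2 * p1 ^ 2 := ⟨_, rfl⟩
  rw [← hDdef] at hD ⊢
  have ha1 : a1 ≠ 0 := by
    intro h0
    apply hD
    exact ⟨b1, by rw [hDdef, h0]; ring⟩
  have hD0 : D ≠ 0 := by
    intro h0
    exact hD ⟨0, by rw [h0]; ring⟩
  have hc : c' ≠ 0 := by
    intro h0
    have h1 : nf D ![2 * a1 * r + b1 * s, s] = 0 := by
      unfold nf
      simp only [Matrix.cons_val_zero, Matrix.cons_val_one]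
      rw [hDdef]
      linear_combination (-4 * a1) * hcdef + 4 * a1 * h0
    refine nf_ne hD ?_ h1
    intro h2
    have h3 : s = 0 := by
      have := congrFun h2 1
      simpa using this
    have h4 : 2 * a1 * r + b1 * s = 0 := by
      have := congrFun h2 0
      simpa using this
    rw [h3, mul_zero, add_zero] at h4
    have h5 : r = 0 := by
      rcases mul_eq_zero.1 h4 with h | h
      · exact absurd h (mul_ne_zero two_ne_zero ha1)
      · exact h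
    rw [h3, h5] at hrs
    exact not_isCoprime_zero_zero hrs
  have hdet2 : p0 * s - p1 * r = -2 * c' := by
    rw [hp0, hp1, hcdef]
    ring
  have hDc : -D * c' ≠ 0 := mul_ne_zero (neg_ne_zero.2 hD0) hc
  have hdet : (!![p0, p1; D * r, D * s] : M2).det ≠ 0 := by
    rw [Matrix.det_fin_two_of]
    have : p0 * (D * s) - p1 * (D * r) = 2 * (-D * c') := by
      linear_combination D * hdet2
    rw [this]
    exact mul_ne_zero two_ne_zero hDc
  have hla : lam (-D * c') = 1 ∨ lam (-D * c') = -1 := lam_pm hDc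
  have hQ1 : ∀ v0 v1 : ℤ, a1 * (v0 * p0 + v1 * (D * r)) ^ 2 +
      b1 * (v0 * p0 + v1 * (D * r)) * (v0 * p1 + v1 * (D * s)) +
      c1 * (v0 * p1 + v1 * (D * s)) ^ 2 = -D * c' * (v0 ^ 2 - D * v1 ^ 2) := by
    intro v0 v1
    rw [hp0, hp1, hcdef, hDdef]
    ring
  refine ⟨(2 * c' * D).natAbs * N, α,
    D * (2 * a2 * p0 * r + b2 * (p0 * s + p1 * r) + 2 * c2 * p1 * s),
    D ^ 2 * (a2 * r ^ 2 + b2 * r * s + c2 * s ^ 2), ε * lam (-D * c'), ?_, ?_, ?_, ?_, ?_⟩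
  · have h1 : 1 ≤ (2 * c' * D).natAbs :=
      Nat.one_le_iff_ne_zero.2 (Int.natAbs_ne_zero.2 (mul_ne_zero (mul_ne_zero two_ne_zero hc) hD0))
    exact Nat.mul_pos h1 hN
  · have h1 := na_mulsq (mul_ne_zero (mul_ne_zero two_ne_zero hc) hD0) hD2
    intro h2
    apply h1
    have e : (2 * c' * D) ^ 2 * (b2 ^ 2 - 4 * a2 * c2) =
        (D * (2 * a2 * p0 * r + b2 * (p0 * s + p1 * r) + 2 * c2 * p1 * s)) ^ 2 -
        4 * α * (D ^ 2 * (a2 * r ^ 2 + b2 * r * s + c2 * s ^ 2)) := by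
      have e1 : (2 * c' * D) ^ 2 = D ^ 2 * (p0 * s - p1 * r) ^ 2 := by
        rw [hdet2]; ring
      rw [e1, hα]
      ring
    rw [e]
    exact h2
  · rintro ⟨h1, h2⟩
    apply hnp
    have h1' : 2 * a2 * p0 * r + b2 * (p0 * s + p1 * r) + 2 * c2 * p1 * s = 0 := by
      rcases mul_eq_zero.1 h1 with h | h
      · exact absurd h hD0
      · exact h
    have h2' : D * (a2 * r ^ 2 + b2 * r * s + c2 * s ^ 2) + α = 0 := by
      apply mul_left_cancel₀ hD0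
      linear_combination h2
    obtain ⟨k1, k2, k3⟩ := na_coef hDdef hcdef hp0 hp1 hα hc h1' h2'
    have hDc' : D * c' ≠ 0 := mul_ne_zero hD0 hc
    refine ⟨?_, ?_, ?_⟩
    · apply mul_left_cancel₀ hDc'
      linear_combination a1 * k2 - b1 * k1
    · apply mul_left_cancel₀ hDc'
      linear_combination a1 * k3 - c1 * k1
    · apply mul_left_cancel₀ hDc'
      linear_combination b1 * k3 - c1 * k2
  · rcases hε with h | h <;> rcases hla with h' | h' <;> rw [h, h'] <;> norm_num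
  · obtain ⟨A, hA, H⟩ := trf (!![p0, p1; D * r, D * s] : M2) hdet
    refine ⟨A, hA, fun N1 N2 h1 h2 => H _ _ ?_ N1 N2 h1 h2⟩
    intro v w c hv hw hcp hvw hvX
    have k0 : v 0 * p0 + v 1 * (D * r) = c * w 0 := by
      have := congrFun hvw 0
      simp [Matrix.vecMul, dotProduct, Fin.sum_univ_two] at this
      linarith
    have k1 : v 0 * p1 + v 1 * (D * s) = c * w 1 := by
      have := congrFun hvw 1
      simp [Matrix.vecMul, dotProduct, Fin.sum_univ_two] at this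
      linarith
    have hnf : nf D v ≠ 0 := nf_ne hD (prm_ne hv)
    have q1 : -D * c' * nf D v = c ^ 2 * qf a1 b1 c1 w := by
      have e : c ^ 2 * qf a1 b1 c1 w = a1 * (c * w 0) ^ 2 + b1 * (c * w 0) * (c * w 1) +
        c1 * (c * w 1) ^ 2 := by unfold qf; ring
      rw [e, ← k0, ← k1, hQ1]
      unfold nf
      ring
    have q2 : qf α (D * (2 * a2 * p0 * r + b2 * (p0 * s + p1 * r) + 2 * c2 * p1 * s))
        (D ^ 2 * (a2 * r ^ 2 + b2 * r * s + c2 * s ^ 2)) v = c ^ 2 * qf a2 b2 c2 w := by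
      have e : c ^ 2 * qf a2 b2 c2 w = a2 * (c * w 0) ^ 2 + b2 * (c * w 0) * (c * w 1) +
        c2 * (c * w 1) ^ 2 := by unfold qf; ring
      rw [e, ← k0, ← k1, hα]
      unfold qf
      ring
    have hq1 : qf a1 b1 c1 w ≠ 0 := by
      intro h0
      rw [h0, mul_zero] at q1
      exact mul_ne_zero hDc hnf q1
    have l1 : lam (-D * c') * F D v = lam (qf a1 b1 c1 w) := by
      unfold F
      rw [← lam_mul, q1, lam_mul, lam_sq hcp.ne', one_mul]
    have l2 : lam (qf α (D * (2 * a2 * p0 * r + b2 * (p0 * s + p1 * r) + 2 * c2 * p1 * s))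
        (D ^ 2 * (a2 * r ^ 2 + b2 * r * s + c2 * s ^ 2)) v) = lam (qf a2 b2 c2 w) := by
      rw [q2, lam_mul, lam_sq hcp.ne', one_mul]
    have l3 : lam (qf a1 b1 c1 w) * lam (qf a1 b1 c1 w) = 1 := by
      rcases lam_pm hq1 with h | h <;> rw [h] <;> norm_num
    -- the class
    have hcls : (((2 * c' * D).natAbs * N : ℕ) : ℤ) ∣ v 0 := hvX.2
    have hdv : 2 * c' * D * N ∣ v 0 := by
      have e : ((((2 * c' * D).natAbs * N : ℕ) : ℤ)) = |2 * c' * D| * N := by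
        push_cast
        rfl
      rw [e] at hcls
      rcases abs_choice (2 * c' * D) with h | h
      · rwa [h] at hcls
      · rw [h, neg_mul, neg_dvd] at hcls
        exact hcls
    obtain ⟨k, hk⟩ := hdv
    have hw0 : Int.gcd (2 * c' * N * k * p0 + v 1 * r) (2 * c' * N * k * p1 + v 1 * s) = 1 :=
      na_prm (t0 := 2 * c' * N * k) (D := D) hrs hdet2 hv
        (by rw [hk]; ring) ⟨N * k, by ring⟩ rfl rfl
    have hun := na_uniq hcp hw0 hw (D := D)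
      (by rw [← k0, hk]; ring) (by rw [← k1, hk]; ring)
    have hcop : IsCoprime (v 1) (N : ℤ) := by
      have h5 : IsCoprime (v 0) (v 1) := Int.isCoprime_iff_gcd_eq_one.2 hv
      rw [hk] at h5
      have h6 : IsCoprime (N : ℤ) (v 1) :=
        h5.of_isCoprime_of_dvd_left ⟨2 * c' * D * k, by ring⟩
      exact h6.symm
    refine ⟨?_, ?_⟩
    · rcases hun with ⟨e0, e1⟩ | ⟨e0, e1⟩
      · refine ⟨v 1, hcop, ?_, ?_⟩
        · rw [e0]
          exact ⟨2 * c' * k * p0, by ring⟩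
        · rw [e1]
          exact ⟨2 * c' * k * p1, by ring⟩
      · refine ⟨-v 1, hcop.neg_left, ?_, ?_⟩
        · rw [e0]
          exact ⟨-(2 * c' * k * p0), by ring⟩
        · rw [e1]
          exact ⟨-(2 * c' * k * p1), by ring⟩
    · intro h0
      apply (show lam (qf α (D * (2 * a2 * p0 * r + b2 * (p0 * s + p1 * r) + 2 * c2 * p1 * s))
        (D ^ 2 * (a2 * r ^ 2 + b2 * r * s + c2 * s ^ 2)) v) ≠
          ε * lam (-D * c') * F D v from hvX.1)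
      rw [lam_mul] at h0
      rw [l2, mul_assoc, l1, ← h0]
      linear_combination -(lam (qf a2 b2 c2 w)) * l3

end Pool.Agent.CQG
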