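import Pool.Agent.CQG.Iva

set_option autoImplicit false

/-!
# Module Nbb (size 3): the similitudes of the second form, in the class

Copy of `inv_M2z` in `Pool/Agent/CQF/Gnb.lean`, sets intersected with `Cls L`. `M2z α β γ x y = !![x, yα; -(yγ), x + yβ]` is the scalar
`x` mod `L` (`L ∣ y`, `x` coprime to `L`). If `v ∈ Cls L` is primitive and `v M = c w` with `w` primitive then `w ∈ Cls L` (`cls_step`).
-/

open Matrix Pool.Agent.CQF

namespace Pool.Agent.CQG

private theorem Nbb_ht_one {v : Fin 2 → ℤ} (hv : Prm v) : 1 ≤ ht v := by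
  by_contra h
  have h0 : ht v = 0 := by omega
  unfold ht at h0
  have h1 : (v 0).natAbs = 0 := by omega
  have h2 : (v 1).natAbs = 0 := by omega
  have e0 : v 0 = 0 := Int.natAbs_eq_zero.1 h1
  have e1 : v 1 = 0 := Int.natAbs_eq_zero.1 h2
  unfold Prm at hv
  rw [e0, e1] at hv
  simp at hv

private theorem Nbb_ms_max (X : Set (Fin 2 → ℤ)) (N1 N2 : ℝ) : ms X N1 N2 ≤ ms X (max 1 N1) N2 := by
  classical
  unfold ms
  refine Finset.sum_le_sum_of_subset_of_nonneg ?_ ?_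
  · intro v hv
    rw [Finset.mem_filter] at hv ⊢
    refine ⟨?_, hv.2⟩
    unfold pv at hv ⊢
    rw [Finset.mem_filter] at hv ⊢
    refine ⟨hv.1.1, hv.1.2.1, ?_, hv.1.2.2.2⟩
    refine max_le ?_ hv.1.2.2.1
    exact_mod_cast Nbb_ht_one hv.1.2.1
  · intro v _ _
    positivity

private theorem Nbb_det (α β γ x y : ℤ) : (M2z α β γ x y).det = x ^ 2 + β * x * y + α * γ * y ^ 2 := by
  unfold M2z
  rw [Matrix.det_fin_two_of]
  ring

private theorem Nbb_qf (α β γ x y : ℤ) (v : Fin 2 → ℤ) :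
    qf α β γ (v ᵥ* M2z α β γ x y) = (x ^ 2 + β * x * y + α * γ * y ^ 2) * qf α β γ v := by
  have h0 : (v ᵥ* M2z α β γ x y) 0 = v 0 * x + v 1 * (-(y * γ)) := by
    simp [M2z, Matrix.vecMul, dotProduct, Fin.sum_univ_two]
  have h1 : (v ᵥ* M2z α β γ x y) 1 = v 0 * (y * α) + v 1 * (x + y * β) := by
    simp [M2z, Matrix.vecMul, dotProduct, Fin.sum_univ_two]
  unfold qf
  rw [h0, h1]
  ring

private theorem Nbb_qf_smul (α β γ c : ℤ) (w : Fin 2 → ℤ) : qf α β γ (c • w) = c ^ 2 * qf α β γ w := by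
  unfold qf
  simp only [Pi.smul_apply, smul_eq_mul]
  ring

private theorem Nbb_N2_ne {α β γ : ℤ} (hd : ¬ IsSquare (β ^ 2 - 4 * α * γ)) {x y : ℤ}
    (hxy : ¬ (x = 0 ∧ y = 0)) : x ^ 2 + β * x * y + α * γ * y ^ 2 ≠ 0 := by
  intro h
  have hne : (![2 * x + β * y, y] : Fin 2 → ℤ) ≠ 0 := by
    intro h'
    have e1 : y = 0 := by simpa using congrFun h' 1
    have e0 : 2 * x + β * y = 0 := by simpa using congrFun h' 0
    rw [e1] at e0
    apply hxy
    constructor
    · linarith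
    · exact e1
  apply nf_ne hd hne
  unfold nf
  simp only [Matrix.cons_val_zero, Matrix.cons_val_one]
  linear_combination 4 * h

private theorem Nbb_qf_ne {α β γ : ℤ} (hd : ¬ IsSquare (β ^ 2 - 4 * α * γ)) {v : Fin 2 → ℤ}
    (hv : v ≠ 0) : qf α β γ v ≠ 0 := by
  have hα : α ≠ 0 := by
    intro h
    apply hd
    rw [h]
    exact ⟨β, by ring⟩
  intro h
  have hne : (![2 * α * v 0 + β * v 1, v 1] : Fin 2 → ℤ) ≠ 0 := by
    intro h'
    have e1 : v 1 = 0 := by simpa using congrFun h' 1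
    have e0 : 2 * α * v 0 + β * v 1 = 0 := by simpa using congrFun h' 0
    rw [e1] at e0
    have e0' : v 0 = 0 := by
      have : (2 * α) * v 0 = 0 := by linarith
      rcases mul_eq_zero.1 this with h1 | h1
      · exfalso
        apply hα
        linarith
      · exact h1
    apply hv
    funext i
    fin_cases i
    · exact e0'
    · exact e1
  apply nf_ne hd hne
  unfold nf
  simp only [Matrix.cons_val_zero, Matrix.cons_val_one]
  unfold qf at h
  linear_combination 4 * α * h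

theorem inv_M2zL {X0 : Set (Fin 2 → ℤ)} {L : ℕ} (hL : 1 ≤ L) {D α β γ η : ℤ} (hD : ¬ IsSquare D)
    (hd : ¬ IsSquare (β ^ 2 - 4 * α * γ)) (h : NearL X0 L D α β γ η) {x y : ℤ}
    (hxy : ¬ (x = 0 ∧ y = 0)) (hx : IsCoprime x (L : ℤ)) (hy : (L : ℤ) ∣ y) :
    InvL X0 L D (M2z α β γ x y) (lam (x ^ 2 + β * x * y + α * γ * y ^ 2)) := by

  obtain ⟨hη, A0, hA0, hb0⟩ := h
  have hN := Nbb_N2_ne hd hxy
  have hdet : (M2z α β γ x y).det ≠ 0 := by
    rw [Nbb_det]
    exact hN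
  obtain ⟨A1, hA1, hb1⟩ := trf (M2z α β γ x y) hdet
  set M := M2z α β γ x y with hM
  have hscl : Scl L M := by
    refine ⟨x, hx, ?_, ?_, ?_, ?_⟩
    · rw [hM]
      simp [M2z]
    · rw [hM]
      simp only [M2z, Matrix.of_apply, Matrix.cons_val', Matrix.cons_val_one, Matrix.cons_val_zero,
        Matrix.cons_val_fin_one, add_sub_cancel_left]
      exact Dvd.dvd.mul_right hy _
    · rw [hM]
      simp only [M2z, Matrix.of_apply, Matrix.cons_val', Matrix.cons_val_one, Matrix.cons_val_zero,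
        Matrix.cons_val_fin_one]
      exact Dvd.dvd.mul_right hy _
    · rw [hM]
      simp only [M2z, Matrix.of_apply, Matrix.cons_val', Matrix.cons_val_one, Matrix.cons_val_zero,
        Matrix.cons_val_fin_one]
      exact (Dvd.dvd.mul_right hy _).neg_right
  set Y : Set (Fin 2 → ℤ) := {v | lam (qf α β γ v) ≠ η * F D v} ∩ Cls L with hY
  set Z : Set (Fin 2 → ℤ) := {v | lam (qf α β γ (v ᵥ* M)) ≠ η * F D (v ᵥ* M)} ∩ Cls L with hZ
  have hηη : η * η = 1 := by
    rcases hη with h | h <;> rw [h] <;> norm_num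
  have hunion : ∀ N1 N2 : ℝ, ms (Dst D M (lam (x ^ 2 + β * x * y + α * γ * y ^ 2)) ∩ Cls L) N1 N2 ≤
      ms Y N1 N2 + ms Z N1 N2 := by
    intro N1 N2
    refine ms_union ?_ N1 N2
    rintro v hv ⟨hvD, hvL⟩
    by_contra hcon
    rw [not_or] at hcon
    obtain ⟨h1, h2⟩ := hcon
    simp only [hY, hZ, Set.mem_inter_iff, hvL, and_true, Set.mem_setOf_eq, not_not] at h1 h2
    apply hvD
    rw [hM, Nbb_qf, lam_mul, h1, ← hM] at h2
    have := congrArg (fun t => η * t) h2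
    calc F D (v ᵥ* M) = η * η * F D (v ᵥ* M) := by rw [hηη, one_mul]
      _ = η * (η * F D (v ᵥ* M)) := by ring
      _ = η * (lam (x ^ 2 + β * x * y + α * γ * y ^ 2) * (η * F D v)) := this.symm
      _ = (η * η) * (lam (x ^ 2 + β * x * y + α * γ * y ^ 2) * F D v) := by ring
      _ = lam (x ^ 2 + β * x * y + α * γ * y ^ 2) * F D v := by rw [hηη, one_mul]
  have hZY : ∀ N1 N2 : ℝ, 1 ≤ N1 → N1 ≤ N2 → ms Z N1 N2 ≤ A1 * ms Y (N1 / A1) (A1 * N2) := by
    intro N1 N2 h1 h2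
    refine hb1 Z Y ?_ N1 N2 h1 h2
    rintro v w c hv hw hc hvw ⟨hvZ, hvL⟩
    refine ⟨?_, cls_step hscl hv hvL hvw⟩
    simp only [Set.mem_setOf_eq] at hvZ ⊢
    rw [hvw, Nbb_qf_smul, lam_mul, lam_sq hc.ne', one_mul, F_smul D hc.ne'] at hvZ
    exact hvZ
  refine ⟨hscl, hdet, lam_pm hN, 2 * (A0 * A1), ?_, ?_⟩
  · nlinarith
  intro N1 N2 h1 h2
  have hA0' : (0 : ℝ) < A0 := by linarith
  have hA1' : (0 : ℝ) < A1 := by linarith
  have hAA : 1 ≤ A0 * A1 := by nlinarith
  have hA0A : A0 ≤ A0 * A1 := by nlinarith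
  have hA1A : A1 ≤ A0 * A1 := by nlinarith
  have hN1 : 0 < N1 := by linarith
  have hN2 : 0 < N2 := by linarith
  set S := ms X0 (N1 / (2 * (A0 * A1))) (2 * (A0 * A1) * N2) with hS
  have hS0 : 0 ≤ S := ms_nonneg _ _ _
  have hYb : ms Y N1 N2 ≤ A0 * S := by
    refine (hb0 N1 N2 h1 h2).trans ?_
    refine mul_le_mul_of_nonneg_left ?_ hA0'.le
    refine ms_mono (fun v _ hv => hv) ?_ ?_
    · refine div_le_div_of_nonneg_left hN1.le hA0' ?_
      linarith
    · refine mul_le_mul_of_nonneg_right ?_ hN2.le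
      linarith
  have hYb2 : ms Y (N1 / A1) (A1 * N2) ≤ A0 * S := by
    refine (Nbb_ms_max Y _ _).trans ?_
    have hle : max 1 (N1 / A1) ≤ A1 * N2 := by
      refine max_le ?_ ?_
      · nlinarith
      · rw [div_le_iff₀ hA1']
        have e1 : N2 ≤ A1 * N2 := by nlinarith
        have e2 : A1 * N2 ≤ A1 * N2 * A1 := by nlinarith
        linarith
    refine (hb0 (max 1 (N1 / A1)) (A1 * N2) (le_max_left _ _) hle).trans ?_
    refine mul_le_mul_of_nonneg_left ?_ hA0'.le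
    refine ms_mono (fun v _ hv => hv) ?_ ?_
    · have e1 : N1 / (2 * (A0 * A1)) ≤ N1 / A1 / A0 := by
        rw [div_div]
        refine div_le_div_of_nonneg_left hN1.le (by positivity) ?_
        nlinarith
      refine e1.trans ?_
      exact div_le_div_of_nonneg_right (le_max_right _ _) hA0'.le
    · have : A0 * (A1 * N2) = (A0 * A1) * N2 := by ring
      rw [this]
      refine mul_le_mul_of_nonneg_right ?_ hN2.le
      linarith
  calc ms (Dst D M (lam (x ^ 2 + β * x * y + α * γ * y ^ 2)) ∩ Cls L) N1 N2 ≤ ms Y N1 N2 + ms Z N1 N2 :=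
        hunion N1 N2
    _ ≤ A0 * S + A1 * (A0 * S) := by
        refine add_le_add hYb ((hZY N1 N2 h1 h2).trans ?_)
        exact mul_le_mul_of_nonneg_left hYb2 hA1'.le
    _ ≤ 2 * (A0 * A1) * S := by
        have e1 : A0 * S ≤ (A0 * A1) * S := mul_le_mul_of_nonneg_right hA0A hS0
        have e2 : A1 * (A0 * S) = (A0 * A1) * S := by ring
        linarith

end Pool.Agent.CQG
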