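import Pool.Agent.CQG.Nbb

set_option autoImplicit false

/-!
# Module Ncc (size 4): a unipotent from two tori, in the class

Compare `near_Tk` in `Pool/Agent/CQF/Gnc.lean` (there `y = 1`, `x = 1, 0`). `α ≠ 0`. Let `y = L`, and for `x` coprime to `L` put
`h x = M2z α β γ x y * km D (x, -α y) = !![n1, 0; b, n2]`, `n1 = x² - D α² y²`, `n2 = x² + β x y + α γ y²`,
`b = -y (x (γ + D α) + D α β y)`; `n1, n2` are nonzero and coprime to `L`; `InvL X0 L D (h x) s`, `s = ±1` (`inv_M2zL`, `invl_km`, `invl_mul`).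
With `h = h 1`, `h' = h (1 + L)`: `h * h' * adj h * adj h' = LQ e Δ`, `Δ = n1 n1' n2 n2'` (coprime to `L`),
`e = n2 n2' (b (n1' - n2') - b' (n1 - n2)) = ± n2 n2' α y³ · L · ((γ + D α)² - D β²)` (checked), and its sign is `s² s'² = 1`.
`e ≠ 0`: `(γ + Dα)² = D β²` would give (`D` not a square) `β = 0` and `γ = -D α`.
As in `gnc_pow`, `gnc_Tk`: `Δ • (LQ e Δ)^n = Δ^n • LQ (n e) Δ`; with `n = |Δ|` this gives `InvL X0 L D (Tk (±e)) 1` (`invl_smul`, `Δ` coprime to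
`L`), and `adj (Tk e) = Tk (-e)`. `k = |e|`.
-/

open Matrix Pool.Agent.CQF

namespace Pool.Agent.CQG

private theorem ncc_pow (Δ e : ℤ) (n : ℕ) :
    Δ • (LQ e Δ) ^ n = Δ ^ n • LQ (n * e) Δ := by
  induction n with
  | zero =>
    ext i j
    fin_cases i <;> fin_cases j <;> simp [LQ]
  | succ n ih =>
    rw [pow_succ, ← Matrix.smul_mul, ih]
    ext i j
    fin_cases i <;> fin_cases j <;>
      simp [LQ, Matrix.mul_apply, Fin.sum_univ_two, -mul_eq_mul_left_iff,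
        -mul_eq_mul_right_iff] <;> ring

private theorem ncc_Tk {X0 : Set (Fin 2 → ℤ)} {L : ℕ} {D : ℤ} (hD : ¬ IsSquare D) {e Δ : ℤ}
    (he : e ≠ 0) (hΔ : Δ ≠ 0) (hΔL : IsCoprime Δ (L : ℤ)) (h : InvL X0 L D (LQ e Δ) 1) :
    ∃ k : ℕ, 1 ≤ k ∧ InvL X0 L D (Tk k) 1 := by
  have hpw := (invl_smul hΔ hΔL).2 (invl_pow hD h Δ.natAbs)
  rw [ncc_pow] at hpw
  have h3 := (invl_smul (pow_ne_zero _ hΔ) hΔL.pow_left).1 hpw
  have h4 : InvL X0 L D (Tk e) 1 ∨ InvL X0 L D (Tk (-e)) 1 := by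
    rcases Int.natAbs_eq Δ with h | h
    · left
      have e1 : LQ ((Δ.natAbs : ℤ) * e) Δ = Δ • Tk e := by
        rw [← h]
        ext i j
        fin_cases i <;> fin_cases j <;> simp [Tk, LQ]
      rw [e1] at h3
      exact (invl_smul hΔ hΔL).1 h3
    · right
      have h' : (Δ.natAbs : ℤ) = -Δ := by omega
      have e1 : LQ ((Δ.natAbs : ℤ) * e) Δ = Δ • Tk (-e) := by
        rw [h']
        ext i j
        fin_cases i <;> fin_cases j <;> simp [Tk, LQ]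
      rw [e1] at h3
      exact (invl_smul hΔ hΔL).1 h3
  have hadj : ∀ x : ℤ, (Tk x).adjugate = Tk (-x) := by
    intro x
    simp [Tk, Matrix.adjugate_fin_two]
  have h5 : InvL X0 L D (Tk e) 1 ∧ InvL X0 L D (Tk (-e)) 1 := by
    rcases h4 with h | h
    · refine ⟨h, ?_⟩
      have := invl_adj hD h
      rwa [hadj] at this
    · refine ⟨?_, h⟩
      have := invl_adj hD h
      rwa [hadj, neg_neg] at this
  refine ⟨e.natAbs, Int.natAbs_pos.2 he, ?_⟩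
  rcases Int.natAbs_eq e with h | h
  · rw [← h]
    exact h5.1
  · have h' : (e.natAbs : ℤ) = -e := by omega
    rw [h']
    exact h5.2

theorem near_TkL {X0 : Set (Fin 2 → ℤ)} {L : ℕ} (hL : 1 ≤ L) {D α β γ η : ℤ} (hD : ¬ IsSquare D)
    (hd : ¬ IsSquare (β ^ 2 - 4 * α * γ)) (hnp : ¬ (β = 0 ∧ γ = -D * α))
    (h : NearL X0 L D α β γ η) : ∃ k : ℕ, 1 ≤ k ∧ InvL X0 L D (Tk k) 1 := by
  have hα : α ≠ 0 := by
    rintro rfl
    exact hd ⟨β, by ring⟩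
  have hL0 : (L : ℤ) ≠ 0 := by
    have : (1 : ℤ) ≤ (L : ℤ) := by exact_mod_cast hL
    omega
  obtain ⟨y, hy⟩ : ∃ y : ℤ, y = (L : ℤ) := ⟨_, rfl⟩
  have hy0 : y ≠ 0 := by rw [hy]; exact hL0
  have hz : ∀ x : ℤ, (![x, -(α * y)] : Fin 2 → ℤ) ≠ 0 := by
    intro x h0
    have h1 := congrFun h0 1
    simp at h1
    rcases h1 with h1 | h1
    · exact hα h1
    · exact hy0 h1
  have hh : ∀ x : ℤ, IsCoprime x (L : ℤ) → ∃ s : ℤ, s * s = 1 ∧ InvL X0 L D
      !![x ^ 2 + y * (-(D * α ^ 2 * y)), 0; -(y * (x * (γ + D * α) + D * α * β * y)),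
        x ^ 2 + y * (β * x + α * γ * y)] s := by
    intro x hx
    have h1 := inv_M2zL hL hD hd h (x := x) (y := y) (fun h0 => hy0 h0.2) hx
      (by rw [hy])
    have h2 := invl_mul hD h1 (invl_km (X0 := X0) (L := L) hD (hz x) (by simpa using hx)
      (by rw [hy]; simp))
    have e1 : M2z α β γ x y * km D ![x, -(α * y)] =
        !![x ^ 2 + y * (-(D * α ^ 2 * y)), 0; -(y * (x * (γ + D * α) + D * α * β * y)),
          x ^ 2 + y * (β * x + α * γ * y)] := by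
      ext i j
      fin_cases i <;> fin_cases j <;>
        simp [M2z, km, Matrix.mul_apply, Fin.sum_univ_two, -mul_eq_mul_left_iff,
          -mul_eq_mul_right_iff] <;> ring
    rw [e1] at h2
    refine ⟨_, ?_, h2⟩
    rcases h2.2.2.1 with h3 | h3 <;> rw [h3] <;> norm_num
  have hc1 : IsCoprime (1 : ℤ) (L : ℤ) := isCoprime_one_left
  have hc2 : IsCoprime (1 + y) (L : ℤ) := by
    have := hc1.add_mul_left_left 1
    rw [mul_one] at this
    rwa [hy]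
  have hcop : ∀ x k : ℤ, IsCoprime x (L : ℤ) → IsCoprime (x ^ 2 + y * k) (L : ℤ) := by
    intro x k hx
    have h1 : IsCoprime (x ^ 2) (L : ℤ) := hx.pow_left
    have h2 := h1.add_mul_left_left k
    rwa [← hy] at h2 ⊢
  obtain ⟨s, hs, h1⟩ := hh 1 hc1
  obtain ⟨s', hs', h0⟩ := hh (1 + y) hc2
  have hprod := invl_mul hD (invl_mul hD (invl_mul hD h1 h0) (invl_adj hD h1)) (invl_adj hD h0)
  have hsg : s * s' * s * s' = 1 := by
    calc s * s' * s * s' = (s * s) * (s' * s') := by ring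
      _ = 1 := by rw [hs, hs']; norm_num
  rw [hsg] at hprod
  obtain ⟨n1, hn1⟩ : ∃ n : ℤ, n = 1 ^ 2 + y * (-(D * α ^ 2 * y)) := ⟨_, rfl⟩
  obtain ⟨n2, hn2⟩ : ∃ n : ℤ, n = 1 ^ 2 + y * (β * 1 + α * γ * y) := ⟨_, rfl⟩
  obtain ⟨m1, hm1⟩ : ∃ n : ℤ, n = (1 + y) ^ 2 + y * (-(D * α ^ 2 * y)) := ⟨_, rfl⟩
  obtain ⟨m2, hm2⟩ : ∃ n : ℤ, n = (1 + y) ^ 2 + y * (β * (1 + y) + α * γ * y) := ⟨_, rfl⟩
  have cn1 : IsCoprime n1 (L : ℤ) := by rw [hn1]; exact hcop _ _ hc1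
  have cn2 : IsCoprime n2 (L : ℤ) := by rw [hn2]; exact hcop _ _ hc1
  have cm1 : IsCoprime m1 (L : ℤ) := by rw [hm1]; exact hcop _ _ hc2
  have cm2 : IsCoprime m2 (L : ℤ) := by rw [hm2]; exact hcop _ _ hc2
  have hd1 := h1.2.1
  have hd0 := h0.2.1
  rw [← hn1, ← hn2] at h1 hd1 hprod
  rw [← hm1, ← hm2] at h0 hd0 hprod
  rw [Matrix.det_fin_two_of] at hd1 hd0
  have zn1 : n1 ≠ 0 := by rintro rfl; simp at hd1
  have zn2 : n2 ≠ 0 := by rintro rfl; simp at hd1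
  have zm1 : m1 ≠ 0 := by rintro rfl; simp at hd0
  have zm2 : m2 ≠ 0 := by rintro rfl; simp at hd0
  obtain ⟨e, he⟩ : ∃ e : ℤ, e = n2 * m2 * (-(α * y ^ 4 * ((γ + D * α) ^ 2 - D * β ^ 2))) :=
    ⟨_, rfl⟩
  have hmat : (!![n1, 0; -(y * (1 * (γ + D * α) + D * α * β * y)), n2] *
      !![m1, 0; -(y * ((1 + y) * (γ + D * α) + D * α * β * y)), m2] *
      (!![n1, 0; -(y * (1 * (γ + D * α) + D * α * β * y)), n2] : M2).adjugate *
      (!![m1, 0; -(y * ((1 + y) * (γ + D * α) + D * α * β * y)), m2] : M2).adjugate) =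
      LQ e (n1 * m1 * n2 * m2) := by
    ext i j
    fin_cases i <;> fin_cases j
    · simp [LQ, Matrix.adjugate_fin_two, Matrix.mul_apply, Fin.sum_univ_two,
        -mul_eq_mul_left_iff, -mul_eq_mul_right_iff]
    · simp [LQ, Matrix.adjugate_fin_two, Matrix.mul_apply, Fin.sum_univ_two,
        -mul_eq_mul_left_iff, -mul_eq_mul_right_iff]
    · simp [LQ, Matrix.adjugate_fin_two, Matrix.mul_apply, Fin.sum_univ_two,
        -mul_eq_mul_left_iff, -mul_eq_mul_right_iff]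
      rw [he, hn1, hn2, hm1, hm2]
      ring
    · simp [LQ, Matrix.adjugate_fin_two, Matrix.mul_apply, Fin.sum_univ_two,
        -mul_eq_mul_left_iff, -mul_eq_mul_right_iff]
      ring
  rw [hmat] at hprod
  have hnf : (γ + D * α) ^ 2 - D * β ^ 2 ≠ 0 := by
    have hv : (![γ + D * α, β] : Fin 2 → ℤ) ≠ 0 := by
      intro h0
      have e0 := congrFun h0 0
      have e1 := congrFun h0 1
      simp at e0 e1
      exact hnp ⟨e1, by linarith⟩
    have := nf_ne hD hv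
    simpa [nf] using this
  have hΔ0 : n1 * m1 * n2 * m2 ≠ 0 := mul_ne_zero (mul_ne_zero (mul_ne_zero zn1 zm1) zn2) zm2
  have hΔL : IsCoprime (n1 * m1 * n2 * m2) (L : ℤ) :=
    ((cn1.mul_left cm1).mul_left cn2).mul_left cm2
  have he0 : e ≠ 0 := by
    rw [he]
    exact mul_ne_zero (mul_ne_zero zn2 zm2)
      (neg_ne_zero.2 (mul_ne_zero (mul_ne_zero hα (pow_ne_zero _ hy0)) hnf))
  exact ncc_Tk hD he0 hΔ0 hΔL hprod

end Pool.Agent.CQG
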