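import Pool.Agent.CQG.Ebv
import Pool.Agent.CQG.Na
import Pool.Agent.CQG.Ncc

set_option autoImplicit false

/-!
# Windows for two arbitrary irreducible forms in a residue class
-/

open Matrix Pool.Agent.CQF

namespace Pool.Agent.CQG

theorem windowL (hQ : AllQ) (hM : MertAP) {a1 b1 c1 a2 b2 c2 ε r s : ℤ} {N' : ℕ} (hN : 1 ≤ N')
    (hrs : IsCoprime r s)
    (hD : ¬ IsSquare (b1 ^ 2 - 4 * a1 * c1)) (hD2 : ¬ IsSquare (b2 ^ 2 - 4 * a2 * c2))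
    (hnp : ¬ (a1 * b2 = a2 * b1 ∧ a1 * c2 = a2 * c1 ∧ b1 * c2 = b2 * c1))
    (hε : ε = 1 ∨ ε = -1) :
    ∃ (c A : ℝ) (C N0 : ℕ), 0 < c ∧ 1 ≤ A ∧ ∀ N : ℕ, N0 ≤ N →
      c / Real.log (Real.log N) ≤
        ms (X0c a1 b1 c1 a2 b2 c2 ε r s N') ((N : ℝ) / A)
          (A * ((N : ℝ) * (Real.log N) ^ C)) := by
  obtain ⟨L, α, β, γ, η, hL, hd, hn, hNe⟩ := base_nearL hN hrs hD hD2 hnp hε
  obtain ⟨k, hk1, hk⟩ := near_TkL hL hD hd hn hNe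
  exact window_of_TkL hQ hM _ L hL _ hD k hk1 hk

end Pool.Agent.CQG
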